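import Pool.Agent.X209.PJ.Cend
import Pool.Agent.Y63.NV.Stm3
import Pool.Agent.Y858.NV.Wdef

/-!
# The official form: blocks whose defect groups contain `A` properly, and all defects
-/

open scoped Classical BigOperators
open Pool.Agent.Y63.NV (IsClassFun IsBlock redC centralValue classValue IsDefectGroup)
open Pool.Agent.Helper884.IC
open Pool.Agent.Y63.KR (conjSub chainStabilizer mem_chainStabilizer conjSub_eq_iff)
open Pool.Agent.Y858.NV (card_cent_conj classValue_one isClassFun_conj)

set_option linter.unusedSectionVars false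
set_option linter.unusedVariables false

noncomputable section

namespace Pool.Agent.X209.PJ

variable {p : ℕ} [hp : Fact p.Prime] {F : Type} [Field F] [CharP F p]
  (red : integralClosure ℤ ℂ →+* F) {G : Type} [Group G] [Finite G] {A : Subgroup G}

/-- `A` is a proper subgroup of a defect group of `B` -/
def AboveDefect (p : ℕ) (A : Subgroup G) (B : (G → F) → F) : Prop :=
  ∃ D : Subgroup G, IsDefectGroup p B D ∧ A < D

lemma fact_lt {P Q : Subgroup G} (hQ : IsPGroup p Q) (h : P < Q) :
    (Nat.card P).factorization p < (Nat.card Q).factorization p := by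
  have hP : IsPGroup p P := hQ.to_le h.le
  obtain ⟨m, hm⟩ := IsPGroup.iff_card.mp hP
  obtain ⟨n, hn⟩ := IsPGroup.iff_card.mp hQ
  have h1 : Nat.card P < Nat.card Q := by
    refine lt_of_le_of_ne (Subgroup.card_le_of_le h.le) fun h6 => ?_
    exact h.ne (Subgroup.eq_of_le_of_card_ge h.le h6.ge)
  rw [hm, hn] at h1
  rw [hm, hn, hp.out.factorization_pow, hp.out.factorization_pow]
  simp only [Finsupp.single_eq_same]
  exact (Nat.pow_lt_pow_iff_right hp.out.one_lt).mp h1

lemma fact_le {P Q : Subgroup G} (h : P ≤ Q) :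
    (Nat.card P).factorization p ≤ (Nat.card Q).factorization p :=
  (Nat.factorization_le_iff_dvd Nat.card_pos.ne' Nat.card_pos.ne').mpr
      (Subgroup.card_dvd_of_le h) p

/-- a class on which an induced block does not vanish meets the centraliser -/
lemma meets {H P : Subgroup G} (hpP : IsPGroup p P) (hPH : P ≤ H)
    (hHP : H ≤ Subgroup.normalizer (P : Set G)) {χ : H → ℂ} (h : IsIrrChar χ) {u : H → F}
    (hu : IsClassFun u) (hne : centralValue red χ u ≠ 0) :
    ∃ y : H, (y : G) ∈ Subgroup.centralizer (P : Set G) ∧ u y ≠ 0 := by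
  have : Fintype H := Fintype.ofFinite H
  by_contra hcon
  push Not at hcon
  have hn : (P.subgroupOf H).Normal := by
    constructor
    intro n hn h
    rw [Subgroup.mem_subgroupOf] at hn ⊢
    exact (Subgroup.mem_normalizer_iff.mp (hHP h.2) n).mp hn
  apply hne
  refine block_vanish (p := p) (P.subgroupOf H) (hpP.comap_subtype)
    (Pool.Agent.Y930.NV.cvh F red H χ h) hu ?_
  intro x hx
  apply hcon
  rw [Subgroup.mem_centralizer_iff] at hx ⊢
  intro y hy
  exact congrArg Subtype.val (hx ⟨y, hPH hy⟩ (Subgroup.mem_subgroupOf.mpr hy))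

lemma le_cent {P : Subgroup G} {y : G} (hy : y ∈ Subgroup.centralizer (P : Set G)) :
    P ≤ Subgroup.centralizer ({y} : Set G) := by
  intro z hz
  rw [Subgroup.mem_centralizer_iff]
  intro w hw
  rw [Set.mem_singleton_iff.mp hw]
  exact (Subgroup.mem_centralizer_iff.mp hy z hz).symm

lemma fact_conj {G : Type} [Group G] {x y : G} (h : IsConj x y) :
    (Nat.card (Subgroup.centralizer ({y} : Set G))).factorization p =
      (Nat.card (Subgroup.centralizer ({x} : Set G))).factorization p := by
  obtain ⟨c, hc⟩ := isConj_iff.mp h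
  rw [← hc, card_cent_conj]

/-- the whole group -/
lemma cent_top {H : Subgroup G} (hH : H = ⊤) (x : H) :
    Nat.card (Subgroup.centralizer ({x} : Set H)) =
      Nat.card (Subgroup.centralizer ({(x : G)} : Set G)) := by
  refine Nat.card_congr
    { toFun := fun y => ⟨y.1.1, ?_⟩
      invFun := fun y => ⟨⟨y.1, (eq_top_iff.mp hH) (Subgroup.mem_top y.1)⟩, ?_⟩
      left_inv := fun y => rfl
      right_inv := fun y => rfl }
  · have := y.2
    rw [Subgroup.mem_centralizer_iff] at this ⊢
    intro z hz
    rw [Set.mem_singleton_iff.mp hz]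
    exact congrArg Subtype.val (this x rfl)
  · have := y.2
    rw [Subgroup.mem_centralizer_iff] at this ⊢
    intro z hz
    rw [Set.mem_singleton_iff.mp hz]
    exact Subtype.ext (this x rfl)

lemma conj_top {H : Subgroup G} (hH : H = ⊤) (x y : H) : IsConj (x : G) y ↔ IsConj x y := by
  rw [isConj_iff, isConj_iff]
  constructor
  · rintro ⟨c, hc⟩
    exact ⟨⟨c, (eq_top_iff.mp hH) (Subgroup.mem_top c)⟩, Subtype.ext hc⟩
  · rintro ⟨c, hc⟩
    exact ⟨c, congrArg Subtype.val hc⟩

lemma stab_empty : chainStabilizer (∅ : Set (Subgroup G)) = ⊤ := by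
  rw [eq_top_iff]
  intro x _
  rw [mem_chainStabilizer]
  intro P hP
  exact absurd hP (Set.notMem_empty P)

/-- the value of an induced block at a class sum -/
lemma classValue_eq {H : Subgroup G} {χ : H → ℂ} {B : (G → F) → F} (hB : Induces red B χ)
    (x : G) : classValue B x = centralValue red χ (fun y => if IsConj x (y : G) then 1 else 0) :=
  (hB _ (isClassFun_conj x)).symm

lemma res_class (H : Subgroup G) (x : G) :
    IsClassFun (fun y : H => if IsConj x (y : G) then (1 : F) else 0) :=
  fun g y => isClassFun_conj x g y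

theorem large (hA : A ≤ Subgroup.center G) {σ : Set (Subgroup G)} (hσ : IsChainAbove p A σ)
    {χ : chainStabilizer σ → ℂ} (h : IsIrrChar χ) {d : ℕ} (hd : HasDefect p d χ)
    (had : (Nat.card A).factorization p < d) {B : (G → F) → F} (hB : Induces red B χ) (x : G)
    (hx : classValue B x ≠ 0) : (Nat.card A).factorization p <
      (Nat.card (Subgroup.centralizer ({x} : Set G))).factorization p := by
  rw [classValue_eq red hB] at hx
  by_cases hne : σ.Nonempty
  · obtain ⟨P, hP, hmin⟩ := exists_min hσ.1 hne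
    have hHP : chainStabilizer σ ≤ Subgroup.normalizer (P : Set G) := by
      rw [stab_diff hP]
      exact inf_le_right
    obtain ⟨y, hy, hyu⟩ := meets red (hσ.2 P hP).1 (le_stab hmin) hHP h (res_class _ x) hx
    have hc : IsConj x (y : G) := by
      by_contra hc
      exact hyu (if_neg hc)
    rw [← fact_conj hc]
    exact (fact_lt (hσ.2 P hP).1 (hσ.2 P hP).2).trans_le (fact_le (le_cent hy))
  · rw [Set.not_nonempty_iff_eq_empty] at hne
    have hH : chainStabilizer σ = ⊤ := by rw [hne]; exact stab_empty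
    have hxH : x ∈ chainStabilizer σ := by rw [hH]; trivial
    have h1 : (fun y : chainStabilizer σ => if IsConj x (y : G) then (1 : F) else 0) =
        fun y => if IsConj (⟨x, hxH⟩ : chainStabilizer σ) y then (1 : F) else 0 := by
      funext y
      simp only [← conj_top hH ⟨x, hxH⟩ y]
    rw [h1] at hx
    have h2 := defect_le red h hd hx
    rw [cent_top hH] at h2
    exact had.trans_le h2

theorem aboveDefect (hA : A ≤ Subgroup.center G) (hpA : IsPGroup p A) {B : (G → F) → F}
    (hB : IsBlock B) (h : ∀ x : G, classValue B x ≠ 0 → (Nat.card A).factorization p <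
      (Nat.card (Subgroup.centralizer ({x} : Set G))).factorization p) : AboveDefect p A B := by
  obtain ⟨x, hx, hmin⟩ := Set.exists_min_image {x : G | classValue B x ≠ 0}
    (fun x => (Nat.card ↥(Subgroup.centralizer {x})).factorization p) (Set.toFinite _)
    ⟨1, by show classValue B 1 ≠ 0; rw [classValue_one hB]; exact one_ne_zero⟩
  set C := Subgroup.centralizer ({x} : Set G) with hC
  have hAC : A ≤ C := by
    intro z hz
    rw [hC, Subgroup.mem_centralizer_iff]
    intro y _
    exact Subgroup.mem_center_iff.mp (hA hz) y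
  have hpAC : IsPGroup p (A.subgroupOf C) := hpA.comap_subtype
  obtain ⟨S, hS⟩ := hpAC.exists_le_sylow
  have hcS : Nat.card ((S : Subgroup C).map C.subtype) = Nat.card S :=
    Nat.card_congr ((S : Subgroup C).equivMapOfInjective _ C.subtype_injective).symm.toEquiv
  have hcS2 : (Nat.card ((S : Subgroup C).map C.subtype)).factorization p =
      (Nat.card C).factorization p := by
    rw [hcS, S.card_eq_multiplicity, hp.out.factorization_pow]
    simp
  refine ⟨(S : Subgroup C).map C.subtype, ⟨x, hx, fun y hy => hmin y hy,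
    Subgroup.map_subtype_le _, S.isPGroup'.map _, hcS2⟩, ?_⟩
  refine lt_of_le_of_ne ?_ ?_
  · intro z hz
    exact ⟨⟨z, hAC hz⟩, hS (Subgroup.mem_subgroupOf.mpr hz), rfl⟩
  · intro h1
    have h2 := h x hx
    rw [← hC, ← hcS2, ← h1] at h2
    exact lt_irrefl _ h2

theorem small (hA : A ≤ Subgroup.center G) (hpA : IsPGroup p A) {σ : Set (Subgroup G)}
    (hσ : IsChainAbove p A σ) {χ : chainStabilizer σ → ℂ} (h : IsIrrChar χ) {d : ℕ}
    (hd : HasDefect p d χ) (had : d ≤ (Nat.card A).factorization p) {B : (G → F) → F}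
    (hB : Induces red B χ) (hab : AboveDefect p A B) : False := by
  set H := chainStabilizer σ with hH
  have hAH : A ≤ H := center_le_stab hA σ
  have hAc : A.subgroupOf H ≤ Subgroup.center H := by
    intro z hz
    rw [Subgroup.mem_center_iff]
    intro g
    apply Subtype.ext
    exact Subgroup.mem_center_iff.mp (hA (Subgroup.mem_subgroupOf.mp hz)) g
  have hcA : Nat.card (A.subgroupOf H) = Nat.card A :=
    Nat.card_congr (Subgroup.subgroupOfEquivOfLe hAH).toEquiv
  obtain ⟨m, hm, hmd⟩ := hd
  have hmd' : m.factorization p + d = (Nat.card H).factorization p := hmd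
  obtain ⟨x, hx, hxc⟩ := cend (p := p) red hAc (hpA.comap_subtype) h hm (by rw [hcA]; omega)
  rw [hcA] at hxc
  by_cases hne : σ.Nonempty
  · obtain ⟨P, hP, hmin⟩ := exists_min hσ.1 hne
    have hHP : H ≤ Subgroup.normalizer (P : Set G) := by
      rw [hH, stab_diff hP]
      exact inf_le_right
    obtain ⟨y, hy, hyu⟩ := meets red (hσ.2 P hP).1 (le_stab hmin) hHP h (isClassFun_conj x) hx
    have hc : IsConj x y := by
      by_contra hc
      exact hyu (if_neg hc)
    rw [← fact_conj hc] at hxc
    have h1 : P.subgroupOf H ≤ Subgroup.centralizer ({y} : Set H) := by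
      intro z hz
      rw [Subgroup.mem_centralizer_iff]
      intro w hw
      rw [Set.mem_singleton_iff.mp hw]
      apply Subtype.ext
      exact (Subgroup.mem_centralizer_iff.mp hy z (Subgroup.mem_subgroupOf.mp hz)).symm
    have h2 : (Nat.card (P.subgroupOf H)).factorization p ≤
        (Nat.card (Subgroup.centralizer ({y} : Set H))).factorization p := fact_le h1
    have h3 : Nat.card (P.subgroupOf H) = Nat.card P :=
      Nat.card_congr (Subgroup.subgroupOfEquivOfLe (le_stab hmin)).toEquiv
    have h4 := fact_lt (hσ.2 P hP).1 (hσ.2 P hP).2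
    rw [h3] at h2
    omega
  · rw [Set.not_nonempty_iff_eq_empty] at hne
    have hHt : H = ⊤ := by rw [hH, hne]; exact stab_empty
    obtain ⟨D, ⟨x0, hx0, hmin, hDC, hpD, hcD⟩, hAD⟩ := hab
    have h1 : classValue B (x : G) ≠ 0 := by
      rw [classValue_eq red hB]
      have h2 : (fun y : H => if IsConj (x : G) (y : G) then (1 : F) else 0) =
          fun y => if IsConj x y then (1 : F) else 0 := by
        funext y
        simp only [conj_top hHt x y]
      rw [h2]
      exact hx
    have h2 := hmin x h1
    have h3 := fact_lt hpD hAD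
    rw [cent_top hHt] at hxc
    omega

/-- the two ways to state the vanishing -/
theorem off_iff (hA : A ≤ Subgroup.center G) (hpA : IsPGroup p A)
    (f : ((G → F) → F) → ℕ → Subgroup G → ℕ)
    (hf : ∀ B d H, f B d H ≠ 0 → ∃ χ : H → ℂ, IsIrrChar χ ∧ HasDefect p d χ ∧ Induces red B χ) :
    (∀ B d, (Nat.card A).factorization p < d → altAbove p A (fun H => (f B d H : ℤ)) = 0) ↔
      ∀ B : (G → F) → F, IsBlock B → AboveDefect p A B → ∀ d : ℕ,
        altAbove p A (fun H => (f B d H : ℤ)) = 0 := by
  have hzero : ∀ B d, (∀ σ, IsChainAbove p A σ → f B d (chainStabilizer σ) = 0) →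
      altAbove p A (fun H => (f B d H : ℤ)) = 0 := by
    intro B d h
    have h1 : altAbove p A (fun H => (f B d H : ℤ)) = altAbove p A (fun _ : Subgroup G => 0) := by
      apply altAbove_congr
      intro σ hσ
      rw [h σ hσ]
      rfl
    rw [h1]
    unfold altAbove
    simp
  constructor
  · intro h B hB hab d
    by_cases hd : (Nat.card A).factorization p < d
    · exact h B d hd
    · apply hzero
      intro σ hσ
      by_contra hne
      obtain ⟨χ, h1, h2, h3⟩ := hf B d _ hne
      exact small red hA hpA hσ h1 h2 (not_lt.mp hd) h3 hab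
  · intro h B d hd
    by_cases hex : ∃ σ, IsChainAbove p A σ ∧ f B d (chainStabilizer σ) ≠ 0
    · obtain ⟨σ, hσ, hne⟩ := hex
      obtain ⟨χ, h1, h2, h3⟩ := hf B d _ hne
      have hB : IsBlock B := induces_block (p := p) red hσ.1 (fun P hP => (hσ.2 P hP).1) h1 h3
      exact h B hB (aboveDefect hA hpA hB fun x hx => large red hA hσ h1 h2 hd h3 x hx) d
    · push Not at hex
      exact hzero B d hex

lemma kOrd_ne {B : (G → F) → F} {d : ℕ} {H : Subgroup G} (h : kOrd p red B d H ≠ 0) :
    ∃ χ : H → ℂ, IsIrrChar χ ∧ HasDefect p d χ ∧ Induces red B χ := by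
  by_contra hcon
  push Not at hcon
  apply h
  unfold kOrd
  have : IsEmpty {χ : H → ℂ // IsIrrChar χ ∧ HasDefect p d χ ∧ Induces red B χ} :=
    ⟨fun χ => hcon χ.1 χ.2.1 χ.2.2.1 χ.2.2.2⟩
  exact Nat.card_of_isEmpty

lemma kProj_ne {Z : Subgroup G} {lam : Z →* ℂˣ} {B : (G → F) → F} {d : ℕ} {H : Subgroup G}
    (h : kProj p red lam B d H ≠ 0) :
    ∃ χ : H → ℂ, IsIrrChar χ ∧ HasDefect p d χ ∧ Induces red B χ := by
  by_contra hcon
  push Not at hcon
  apply h
  unfold kProj
  have : IsEmpty {χ : H → ℂ // IsIrrChar χ ∧ Over lam χ ∧ HasDefect p d χ ∧ Induces red B χ} :=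
    ⟨fun χ => hcon χ.1 χ.2.1 χ.2.2.2.1 χ.2.2.2.2⟩
  exact Nat.card_of_isEmpty

end Pool.Agent.X209.PJ
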