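import Pool.Agent.X209.PJ.Part

/-!
# Orbits of chains, and quotients by a central subgroup
-/

open scoped Classical BigOperators
open Pool.Agent.Y63.KR

set_option linter.unusedSectionVars false
set_option linter.unusedVariables false

noncomputable section

namespace Pool.Agent.X209.PJ

variable {p : ℕ} {G : Type} [Group G] [Finite G] {A : Subgroup G}

lemma IsChainAbove.pchain {σ : Set (Subgroup G)} (h : IsChainAbove p A σ) : IsPChain p σ :=
  ⟨h.1, fun P hP => (h.2 P hP).1, fun P hP => (bot_le.trans_lt (h.2 P hP).2).ne'⟩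

lemma conj_normal [hA : A.Normal] (g : G) : conjSub g A = A := by
  rw [conjSub_eq_iff, Subgroup.normalizer_eq_top_iff.mpr hA]
  trivial

lemma IsChainAbove.conj [hA : A.Normal] {σ : Set (Subgroup G)} (h : IsChainAbove p A σ) (g : G) :
    IsChainAbove p A (conjSub g '' σ) := by
  have h1 := h.pchain.conj g
  refine ⟨h1.chain, fun P hP => ⟨h1.isPGroup P hP, ?_⟩⟩
  obtain ⟨Q, hQ, rfl⟩ := hP
  have h2 := (h.2 Q hQ).2
  refine lt_of_le_of_ne ?_ ?_
  · rw [← conj_normal (A := A) g]
    exact conjSub_le h2.le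
  · intro h3
    rw [← conj_normal (A := A) g] at h3
    exact h2.ne (conjSub_injective g h3)

theorem card_mul_altAbove [hA : A.Normal] (f : Subgroup G → ℤ)
    (hf : ∀ (g : G) (σ : Set (Subgroup G)), IsChainAbove p A σ →
      f (conjSub g (chainStabilizer σ)) = f (chainStabilizer σ))
    [Fintype {σ : Set (Subgroup G) // IsChainAbove p A σ}] :
    (Nat.card G : ℤ) * altAbove p A f =
      ∑ σ : {σ : Set (Subgroup G) // IsChainAbove p A σ},
        (-1) ^ σ.1.ncard * ((Nat.card (chainStabilizer σ.1) : ℤ) * f (chainStabilizer σ.1)) := by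
  letI : MulAction G {σ : Set (Subgroup G) // IsChainAbove p A σ} :=
    { smul := fun g σ => ⟨conjSub g '' σ.1, σ.2.conj g⟩
      one_smul := fun σ => by
        apply Subtype.ext
        change conjSub (1 : G) '' σ.1 = σ.1
        have : (conjSub (1 : G)) = id := funext conjSub_one
        rw [this, Set.image_id]
      mul_smul := fun g h σ => by
        apply Subtype.ext
        change conjSub (g * h) '' σ.1 = conjSub g '' (conjSub h '' σ.1)
        rw [← Set.image_comp]
        congr 1
        exact funext fun P => conjSub_mul g h P }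
  have hsm : ∀ (g : G) (σ : {σ : Set (Subgroup G) // IsChainAbove p A σ}),
      (g • σ).1 = conjSub g '' σ.1 := fun _ _ => rfl
  have h := orbit_sum (G := G) (aboveClass p A) (by
    intro σ τ
    change (∃ g : G, τ.1 = conjSub g '' σ.1) ↔ _
    constructor
    · rintro ⟨g, hg⟩
      exact ⟨g, Subtype.ext (by rw [hsm, hg])⟩
    · rintro ⟨g, hg⟩
      exact ⟨g, by rw [← hg, hsm]⟩)
    (fun σ => (-1) ^ σ.1.ncard * f (chainStabilizer σ.1)) (by
      rintro σ τ ⟨g, hg⟩
      rw [hg, ncard_conj, chainStabilizer_conj]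
      congr 1
      exact (hf g σ.1 σ.2).symm)
  unfold altAbove
  rw [h]
  refine Finset.sum_congr rfl fun σ _ => ?_
  have hst : Nat.card (MulAction.stabilizer G σ) = Nat.card (chainStabilizer σ.1) := by
    refine Nat.card_congr (Equiv.subtypeEquivRight fun g => ?_)
    rw [MulAction.mem_stabilizer_iff, Subtype.ext_iff, hsm, mem_chainStabilizer]
    constructor
    · intro h3 P hP
      have hgP : conjSub g P ∈ σ.1 := by
        rw [← h3]
        exact ⟨P, hP, rfl⟩
      have hcard : Nat.card (conjSub g P) = Nat.card P :=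
        Nat.card_congr (Subgroup.equivMapOfInjective _ _ (MulAut.conj g).injective).toEquiv.symm
      rcases σ.2.1.total hgP hP with h4 | h4
      · exact Subgroup.eq_of_le_of_card_ge h4 hcard.ge
      · exact (Subgroup.eq_of_le_of_card_ge h4 hcard.le).symm
    · intro h3
      ext P
      constructor
      · rintro ⟨Q, hQ, rfl⟩
        rw [h3 Q hQ]
        exact hQ
      · intro hP
        exact ⟨P, hP, h3 P hP⟩
  rw [hst]
  ring

/-! ### Quotients -/

section quot

variable {G' : Type} [Group G'] [Finite G'] (π : G →* G')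

lemma conjSub_map (x : G) (P : Subgroup G) : conjSub (π x) (P.map π) = (conjSub x P).map π := by
  unfold conjSub
  rw [Subgroup.map_map, Subgroup.map_map]
  congr 1
  ext y
  simp

lemma map_inj {P Q : Subgroup G} (hP : π.ker ≤ P) (hQ : π.ker ≤ Q) (h : P.map π = Q.map π) :
    P = Q := by
  rw [← Subgroup.comap_map_eq_self hP, ← Subgroup.comap_map_eq_self hQ, h]

lemma ker_le_conj {P : Subgroup G} (hP : π.ker ≤ P) (x : G) : π.ker ≤ conjSub x P := by
  rw [← conj_normal (A := π.ker) x]
  exact conjSub_le hP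

lemma stab_map (hπ : Function.Surjective π) {σ : Set (Subgroup G)} (hσ : ∀ P ∈ σ, π.ker ≤ P) :
    chainStabilizer ((Subgroup.map π) '' σ) = (chainStabilizer σ).map π := by
  rw [← Subgroup.map_comap_eq_self_of_surjective hπ (chainStabilizer ((Subgroup.map π) '' σ))]
  congr 1
  ext x
  rw [Subgroup.mem_comap, mem_chainStabilizer, mem_chainStabilizer]
  constructor
  · intro h P hP
    have h1 := h (P.map π) ⟨P, hP, rfl⟩
    rw [conjSub_map] at h1
    exact map_inj π (ker_le_conj π (hσ P hP) x) (hσ P hP) h1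
  · rintro h _ ⟨P, hP, rfl⟩
    rw [conjSub_map, h P hP]

lemma card_map {H : Subgroup G} (hH : π.ker ≤ H) :
    Nat.card H = Nat.card π.ker * Nat.card (H.map π) := by
  have h1 := Subgroup.card_eq_card_quotient_mul_card_subgroup (π.subgroupMap H).ker
  have h2 := Nat.card_congr (QuotientGroup.quotientKerEquivOfSurjective (π.subgroupMap H)
    (π.subgroupMap_surjective H)).toEquiv
  have h3 : Nat.card (π.subgroupMap H).ker = Nat.card π.ker := by
    refine Nat.card_congr
      { toFun := fun x => ⟨x.1.1, by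
          have := x.2
          rw [MonoidHom.mem_ker] at this ⊢
          exact congrArg Subtype.val this⟩
        invFun := fun x => ⟨⟨x.1, hH x.2⟩, by
          have := x.2
          rw [MonoidHom.mem_ker] at this ⊢
          exact Subtype.ext this⟩
        left_inv := fun x => rfl
        right_inv := fun x => rfl }
  rw [h1, h2, h3, mul_comm]

lemma above_map (hA : π.ker ≤ A) {σ : Set (Subgroup G)} (h : IsChainAbove p A σ) :
    IsChainAbove p (A.map π) ((Subgroup.map π) '' σ) := by
  constructor
  · rintro _ ⟨P, hP, rfl⟩ _ ⟨Q, hQ, rfl⟩ _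
    rcases h.1.total hP hQ with h1 | h1
    · exact Or.inl (Subgroup.map_mono h1)
    · exact Or.inr (Subgroup.map_mono h1)
  · rintro _ ⟨P, hP, rfl⟩
    refine ⟨(h.2 P hP).1.map π, ?_⟩
    refine lt_of_le_of_ne (Subgroup.map_mono (h.2 P hP).2.le) fun h1 => ?_
    exact (h.2 P hP).2.ne (map_inj π hA (hA.trans (h.2 P hP).2.le) h1)

lemma above_comap [Fact p.Prime] (hπ : Function.Surjective π) (hA : π.ker ≤ A) (hp : IsPGroup p π.ker)
    {σ : Set (Subgroup G')}
    (h : IsChainAbove p (A.map π) σ) : IsChainAbove p A ((Subgroup.comap π) '' σ) := by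
  constructor
  · rintro _ ⟨P, hP, rfl⟩ _ ⟨Q, hQ, rfl⟩ _
    rcases h.1.total hP hQ with h1 | h1
    · exact Or.inl (Subgroup.comap_mono h1)
    · exact Or.inr (Subgroup.comap_mono h1)
  · rintro _ ⟨P, hP, rfl⟩
    refine ⟨(h.2 P hP).1.comap_of_ker_isPGroup π hp, ?_⟩
    have h1 := (h.2 P hP).2
    refine lt_of_le_of_ne ?_ fun h2 => ?_
    · rw [← Subgroup.map_le_iff_le_comap]
      exact h1.le
    · apply h1.ne
      rw [h2, Subgroup.map_comap_eq_self_of_surjective hπ]

theorem altAbove_quot [Fact p.Prime] [A.Normal] [(A.map π).Normal] (hπ : Function.Surjective π)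
    (hA : π.ker ≤ A) (hp : IsPGroup p π.ker) (f : Subgroup G → ℤ) (f' : Subgroup G' → ℤ)
    (hf : ∀ (g : G) (σ : Set (Subgroup G)), IsChainAbove p A σ →
      f (conjSub g (chainStabilizer σ)) = f (chainStabilizer σ))
    (hf' : ∀ (g : G') (σ : Set (Subgroup G')), IsChainAbove p (A.map π) σ →
      f' (conjSub g (chainStabilizer σ)) = f' (chainStabilizer σ))
    (hff : ∀ H : Subgroup G, π.ker ≤ H → f H = f' (H.map π)) :
    (Nat.card G : ℤ) * altAbove p A f =
      (Nat.card π.ker : ℤ) * ((Nat.card G' : ℤ) * altAbove p (A.map π) f') := by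
  have : Fintype {σ : Set (Subgroup G) // IsChainAbove p A σ} := Fintype.ofFinite _
  have : Fintype {σ : Set (Subgroup G') // IsChainAbove p (A.map π) σ} := Fintype.ofFinite _
  rw [card_mul_altAbove f hf, card_mul_altAbove f' hf', Finset.mul_sum]
  have hker : ∀ σ : {σ : Set (Subgroup G) // IsChainAbove p A σ}, ∀ P ∈ σ.1, π.ker ≤ P :=
    fun σ P hP => hA.trans (σ.2.2 P hP).2.le
  refine Finset.sum_bij' (fun σ _ => ⟨(Subgroup.map π) '' σ.1, above_map π hA σ.2⟩)
    (fun σ _ => ⟨(Subgroup.comap π) '' σ.1, above_comap π hπ hA hp σ.2⟩) ?_ ?_ ?_ ?_ ?_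
  · intro σ _
    exact Finset.mem_univ _
  · intro σ _
    exact Finset.mem_univ _
  · intro σ _
    apply Subtype.ext
    change (Subgroup.comap π) '' ((Subgroup.map π) '' σ.1) = σ.1
    rw [← Set.image_comp]
    conv_rhs => rw [← Set.image_id σ.1]
    apply Set.image_congr
    intro P hP
    exact Subgroup.comap_map_eq_self (hker σ P hP)
  · intro σ _
    apply Subtype.ext
    change (Subgroup.map π) '' ((Subgroup.comap π) '' σ.1) = σ.1
    rw [← Set.image_comp]
    conv_rhs => rw [← Set.image_id σ.1]
    apply Set.image_congr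
    intro P hP
    exact Subgroup.map_comap_eq_self_of_surjective hπ P
  · intro σ _
    have h1 : ((Subgroup.map π) '' σ.1).ncard = σ.1.ncard := by
      apply Set.ncard_image_of_injOn
      intro P hP Q hQ h
      exact map_inj π (hker σ P hP) (hker σ Q hQ) h
    have h2 : π.ker ≤ chainStabilizer σ.1 := by
      intro x hx
      rw [mem_chainStabilizer]
      intro P hP
      rw [conjSub_eq_iff]
      exact Subgroup.le_normalizer (hker σ P hP hx)
    simp only []
    rw [h1, stab_map π hπ (hker σ), card_map π h2, hff _ h2]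
    push_cast
    ring

end quot

end Pool.Agent.X209.PJ
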