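import Pool.Agent.X209.PJ.GenZ

/-!
# The core equivalence
-/

open scoped Classical BigOperators
open Pool.Agent.Helper884.IC Pool.Agent.Y63.AWC
open Pool.Agent.Y63.NV (redC centralValue IsClassFun)
open Pool.Agent.Y63.KR (conjSub chainStabilizer mem_chainStabilizer conjSub_eq_iff mem_conjSub
  conjSub_inv_conjSub)

set_option linter.unusedSectionVars false
set_option linter.unusedVariables false

noncomputable section

namespace Pool.Agent.X209.PJ

variable {p : ℕ} {F : Type} [Field F] (red : integralClosure ℤ ℂ →+* F)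

/-- `A` is the largest normal `p`-subgroup -/
structure IsCore (p : ℕ) {G : Type} [Group G] (A : Subgroup G) : Prop where
  pgroup : IsPGroup p A
  normal : A.Normal
  max : ∀ N : Subgroup G, N.Normal → IsPGroup p N → N ≤ A

/-- the central form -/
def CentralForm (p : ℕ) : Prop := ∀ (G : Type) [Group G] [Finite G] (A : Subgroup G),
  A ≤ Subgroup.center G → IsCore p A → DadeCentral red p A

/-- the projective form -/
def ProjForm (p : ℕ) : Prop := ∀ (G : Type) [Group G] [Finite G] (Z A : Subgroup G),
  Z ≤ Subgroup.center G → IsSylowOf p A Z → ∀ (lam : Z →* ℂˣ) (B : (G → F) → F) (d : ℕ),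
    (Nat.card A).factorization p < d → altAbove p A (fun H => (kProj p red lam B d H : ℤ)) = 0

lemma kOrd_conj {G : Type} [Group G] [Finite G] (B : (G → F) → F) (d : ℕ) (g : G)
    (H : Subgroup G) : kOrd p red B d (conjSub g H) = kOrd p red B d H := by
  rw [← kTriv_bot, ← kTriv_bot, kTriv_eq_kGen, kTriv_eq_kGen,
    kGen_conj red (TB B) (fun t ht => ht.1) bot_le d g H]

theorem dadeCentral_all [hp : Fact p.Prime] (h : CentralForm red p) {G : Type} [Group G]
    [Finite G] (A : Subgroup G) (hA : A ≤ Subgroup.center G) (hpA : IsPGroup p A) :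
    DadeCentral red p A := by
  have hn : A.Normal := normal_of_center hA
  by_cases hc : IsCore p A
  · exact h G A hA hc
  · have h1 : ¬ ∀ N : Subgroup G, N.Normal → IsPGroup p N → N ≤ A := fun h2 => hc ⟨hpA, hn, h2⟩
    push Not at h1
    obtain ⟨N, hN, hpN, hNA⟩ := h1
    intro B d _
    exact contraction hpA hpN hNA _ (fun g σ _ => by rw [kOrd_conj])

theorem proj_of_central [hp : Fact p.Prime] [CharP F p] (h : CentralForm red p) :
    ProjForm red p := by
  intro G _ _ Z A hZ hS lam B d hd
  apply altAbove_split red hZ hS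
  refine kProj_zero red (hS.le.trans hZ) hS.pgroup ?_ _ (lam.comp (Subgroup.inclusion hS.le)) le_rfl
    B d hd
  intro Y hY hYn
  exact dadeCentral_all red h _ (map_center _ (QuotientGroup.mk'_surjective Y) (hS.le.trans hZ))
    (hS.pgroup.map _)

theorem central_of_proj [hp : Fact p.Prime] (h : ProjForm red p) : CentralForm red p := by
  intro G _ _ A hA hc B d hd
  have : Fintype (A →* ℂˣ) := Fintype.ofFinite _
  have h1 := altAbove_kTriv (p := p) red hA (bot_le : (⊥ : Subgroup G) ≤ A) B d
  have h2 : (fun H : Subgroup G => (kTriv red p ⊥ B d H : ℤ)) =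
      fun H => (kOrd p red B d H : ℤ) := by
    funext H
    rw [kTriv_bot]
  rw [h2] at h1
  rw [h1]
  refine Finset.sum_eq_zero fun lam _ => ?_
  exact h G A A hA ⟨le_rfl, hc.pgroup, rfl⟩ lam B d hd

theorem core_iff [hp : Fact p.Prime] [CharP F p] : ProjForm red p ↔ CentralForm red p :=
  ⟨central_of_proj red, proj_of_central red⟩

end Pool.Agent.X209.PJ
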