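import Pool.Agent.X209.PJ.Blk
import Pool.Agent.X209.PJ.Core

/-!
# The induced block of a block of the stabiliser of a chain
-/

open scoped Classical BigOperators
open Pool.Agent.Y63.NV (IsClassFun IsBlock conv cut sum_cut centralValue)
open Pool.Agent.Y705.NV (conv_classFun)
open Pool.Agent.Helper884.IC
open Pool.Agent.Y63.KR (conjSub chainStabilizer mem_chainStabilizer conjSub_eq_iff)

set_option linter.unusedSectionVars false
set_option linter.unusedVariables false

noncomputable section

namespace Pool.Agent.X209.PJ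

variable {p : ℕ} {F : Type} [Field F] {G : Type} [Group G] [Finite G]

/-- extension by zero -/
def ext0 {K : Subgroup G} (f : K → F) : G → F := fun y => if h : y ∈ K then f ⟨y, h⟩ else 0

lemma ext0_mem {K : Subgroup G} (f : K → F) {y : G} (h : y ∈ K) : ext0 f y = f ⟨y, h⟩ := dif_pos h

lemma ext0_not {K : Subgroup G} (f : K → F) {y : G} (h : y ∉ K) : ext0 f y = 0 := dif_neg h

lemma ext0_conj {K : Subgroup G} {f : K → F} (hf : IsClassFun f) {r : G} (hr : r ∈ K) (y : G) :
    ext0 f (r * y * r⁻¹) = ext0 f y := by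
  by_cases hy : y ∈ K
  · have h1 : r * y * r⁻¹ ∈ K := K.mul_mem (K.mul_mem hr hy) (K.inv_mem hr)
    rw [ext0_mem f hy, ext0_mem f h1]
    exact hf ⟨r, hr⟩ ⟨y, hy⟩
  · have h1 : r * y * r⁻¹ ∉ K := fun h2 => hy (by
      have h3 := K.mul_mem (K.mul_mem (K.inv_mem hr) h2) hr
      have h4 : r⁻¹ * (r * y * r⁻¹) * r = y := by group
      rwa [h4] at h3)
    rw [ext0_not f hy, ext0_not f h1]

lemma conv_ext [hp : Fact p.Prime] [CharP F p] {K P : Subgroup G} (hpP : IsPGroup p P)
    (hPK : P ≤ K) {f g : K → F} (hf : IsClassFun f) (hg : IsClassFun g) (x : K)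
    (hx : (x : G) ∈ Subgroup.centralizer (P : Set G)) [Fintype G] :
    conv f g x = ∑ y : G, if y ∈ Subgroup.centralizer (P : Set G) then
      ext0 f y * ext0 g (y⁻¹ * x) else 0 := by
  have : Fintype K := Fintype.ofFinite K
  rw [← sum_cut (p := p) P hpP (fun y => ext0 f y * ext0 g (y⁻¹ * x))]
  · unfold conv
    rw [finsum_eq_sum_of_fintype]
    have h2 : ∀ y : G, ext0 f y * ext0 g (y⁻¹ * x) ≠ 0 → y ∈ K := by
      intro y hy
      by_contra hyK
      exact hy (by rw [ext0_not f hyK, zero_mul])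
    rw [← Finset.sum_filter_of_ne (p := fun y => y ∈ K) (fun y _ hy => h2 y hy)]
    rw [Finset.sum_subtype (Finset.univ.filter fun y => y ∈ K) (p := fun y => y ∈ K) (by simp)]
    refine Finset.sum_congr rfl fun y _ => ?_
    rw [ext0_mem f y.2, ext0_mem g (K.mul_mem (K.inv_mem y.2) x.2)]
    rfl
  · intro r hr y
    rw [ext0_conj hf (hPK hr)]
    congr 1
    have h3 := Subgroup.mem_centralizer_iff.mp hx r hr
    have h4 : (r * y * r⁻¹)⁻¹ * (x : G) = r * (y⁻¹ * x) * r⁻¹ := by
      calc (r * y * r⁻¹)⁻¹ * (x : G) = r * y⁻¹ * r⁻¹ * (x * r) * r⁻¹ := by group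
        _ = r * y⁻¹ * r⁻¹ * (r * x) * r⁻¹ := by rw [h3]
        _ = r * (y⁻¹ * x) * r⁻¹ := by group
    rw [h4, ext0_conj hg (hPK hr)]

/-- the Brauer homomorphism -/
theorem brauer [hp : Fact p.Prime] [CharP F p] {H K P : Subgroup G} (hHK : H ≤ K)
    (hpP : IsPGroup p P) (hPH : P ≤ H) (hHP : H ≤ Subgroup.normalizer (P : Set G))
    (hc : ∀ x ∈ K, x ∈ Subgroup.centralizer (P : Set G) → x ∈ H) {b : (H → F) → F}
    (hb : IsBlock b) : IsBlock (fun f : K → F => b (fun x : H => f ⟨x, hHK x.2⟩)) := by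
  have : Fintype G := Fintype.ofFinite G
  have hres : ∀ f : K → F, IsClassFun f → IsClassFun (fun x : H => f ⟨x, hHK x.2⟩) :=
    fun f hf g x => hf ⟨g, hHK g.2⟩ ⟨x, hHK x.2⟩
  refine ⟨fun f g hf hg => hb.add _ _ (hres f hf) (hres g hg),
    fun a f hf => hb.smul a _ (hres f hf), ?_, ?_⟩
  · have h1 : ∀ (i : DecidableEq K) (j : DecidableEq H),
        (fun x : H => (@Pi.single K (fun _ => F) _ i 1 1) ⟨x, hHK x.2⟩) =
          @Pi.single H (fun _ => F) _ j 1 1 := by
      intro i j
      funext x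
      by_cases hx : x = 1
      · subst hx
        exact (Pi.single_eq_same (M := fun _ : K => F) _ _).trans
          (Pi.single_eq_same (M := fun _ : H => F) _ _).symm
      · have hx' : (⟨x, hHK x.2⟩ : K) ≠ 1 :=
          fun h => hx (Subtype.ext (congrArg (fun t : K => (t : G)) h))
        exact (Pi.single_eq_of_ne (M := fun _ : K => F) hx' _).trans
          (Pi.single_eq_of_ne (M := fun _ : H => F) hx _).symm
    exact Eq.trans (congrArg b (h1 _ _)) hb.one
  · intro f g hf hg
    have hn : (P.subgroupOf H).Normal := by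
      constructor
      intro n hn h
      rw [Subgroup.mem_subgroupOf] at hn ⊢
      exact (Subgroup.mem_normalizer_iff.mp (hHP h.2) n).mp hn
    rw [← hb.mul _ _ (hres f hf) (hres g hg)]
    refine block_cut (p := p) (P.subgroupOf H) (hpP.comap_subtype) hb
      (hres _ (by
        have : Fintype K := Fintype.ofFinite K
        exact conv_classFun hf hg)) (by
        have : Fintype H := Fintype.ofFinite H
        exact conv_classFun (hres f hf) (hres g hg)) ?_
    intro x hx
    have hxP : (x : G) ∈ Subgroup.centralizer (P : Set G) := by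
      rw [Subgroup.mem_centralizer_iff] at hx ⊢
      intro y hy
      exact congrArg Subtype.val (hx ⟨y, hPH hy⟩ (Subgroup.mem_subgroupOf.mpr hy))
    rw [conv_ext (p := p) hpP (hPH.trans hHK) hf hg ⟨x, hHK x.2⟩ hxP,
      conv_ext (p := p) hpP hPH (hres f hf) (hres g hg) x hxP]
    refine Finset.sum_congr rfl fun y _ => ?_
    by_cases hy : y ∈ Subgroup.centralizer (P : Set G)
    · rw [if_pos hy, if_pos hy]
      have key : ∀ (f : K → F) (z : G), z ∈ Subgroup.centralizer (P : Set G) →
          ext0 f z = ext0 (fun x : H => f ⟨x, hHK x.2⟩) z := by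
        intro f z hz
        by_cases hzK : z ∈ K
        · rw [ext0_mem f hzK, ext0_mem _ (hc z hzK hz)]
        · rw [ext0_not f hzK, ext0_not _ (fun h => hzK (hHK h))]
      rw [key f y hy, key g (y⁻¹ * x) (Subgroup.mul_mem _ (Subgroup.inv_mem _ hy) hxP)]
    · rw [if_neg hy, if_neg hy]

/-- blocks of `H` induce blocks of `G` -/
def Good (F : Type) [Field F] (H : Subgroup G) : Prop :=
  ∀ b : (H → F) → F, IsBlock b → IsBlock (fun f : G → F => b (fun x => f x))

lemma good_top : Good F (⊤ : Subgroup G) := by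
  intro b hb
  have hres : ∀ f : G → F, IsClassFun f → IsClassFun (fun x : (⊤ : Subgroup G) => f x) :=
    fun f hf g x => hf g x
  refine ⟨fun f g hf hg => hb.add _ _ (hres f hf) (hres g hg),
    fun a f hf => hb.smul a _ (hres f hf), ?_, ?_⟩
  · have h1 : ∀ (i : DecidableEq G) (j : DecidableEq (⊤ : Subgroup G)),
        (fun x : (⊤ : Subgroup G) => (@Pi.single G (fun _ => F) _ i 1 1) x) =
          @Pi.single (⊤ : Subgroup G) (fun _ => F) _ j 1 1 := by
      intro i j
      funext x
      by_cases hx : x = 1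
      · subst hx
        rw [Pi.single_eq_same]
        exact Pi.single_eq_same _ _
      · rw [Pi.single_eq_of_ne hx]
        exact Pi.single_eq_of_ne (fun h => hx (Subtype.ext h)) _
    exact Eq.trans (congrArg b (h1 _ _)) hb.one
  · intro f g hf hg
    rw [← hb.mul _ _ (hres f hf) (hres g hg)]
    congr 1
    funext x
    unfold conv
    exact (finsum_comp_equiv (Subgroup.topEquiv (G := G)).toEquiv
      (f := fun y : G => f y * g (y⁻¹ * x))).symm

lemma exists_min {σ : Set (Subgroup G)} (hσ : IsChain (· ≤ ·) σ) (hne : σ.Nonempty) :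
    ∃ P ∈ σ, ∀ Q ∈ σ, P ≤ Q := by
  obtain ⟨M, hM⟩ := (Set.toFinite σ).exists_minimal hne
  refine ⟨M, hM.1, fun Q hQ => ?_⟩
  rcases hσ.total hM.1 hQ with h1 | h1
  · exact h1
  · exact hM.2 hQ h1

lemma stab_diff {σ : Set (Subgroup G)} {P : Subgroup G} (hP : P ∈ σ) :
    chainStabilizer σ = chainStabilizer (σ \ {P}) ⊓ Subgroup.normalizer (P : Set G) := by
  ext x
  rw [Subgroup.mem_inf, mem_chainStabilizer, mem_chainStabilizer]
  constructor
  · intro h
    exact ⟨fun Q hQ => h Q hQ.1, conjSub_eq_iff.mp (h P hP)⟩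
  · rintro ⟨h1, h2⟩ Q hQ
    by_cases hQP : Q = P
    · rw [hQP]
      exact conjSub_eq_iff.mpr h2
    · exact h1 Q ⟨hQ, hQP⟩

lemma le_stab {σ : Set (Subgroup G)} {P : Subgroup G} (hmin : ∀ Q ∈ σ, P ≤ Q) :
    P ≤ chainStabilizer σ := by
  intro x hx
  rw [mem_chainStabilizer]
  intro Q hQ
  rw [conjSub_eq_iff]
  exact Subgroup.le_normalizer (hmin Q hQ hx)

theorem good_stab [hp : Fact p.Prime] [CharP F p] : ∀ (n : ℕ) (σ : Set (Subgroup G)),
    σ.ncard = n → IsChain (· ≤ ·) σ → (∀ P ∈ σ, IsPGroup p P) → Good F (chainStabilizer σ) := by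
  intro n
  induction n with
  | zero =>
    intro σ hn hσ hpσ
    have h1 : σ = ∅ := (Set.ncard_eq_zero (Set.toFinite σ)).mp hn
    have h2 : chainStabilizer σ = ⊤ := by
      rw [h1, eq_top_iff]
      intro x _
      rw [mem_chainStabilizer]
      intro P hP
      exact absurd hP (Set.notMem_empty P)
    rw [h2]
    exact good_top
  | succ n ih =>
    intro σ hn hσ hpσ
    have hne : σ.Nonempty := by
      rw [← Set.ncard_pos (Set.toFinite σ)]
      omega
    obtain ⟨P, hP, hmin⟩ := exists_min hσ hne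
    have h1 : (σ \ {P}).ncard = n := by
      have := Set.ncard_sdiff_singleton_add_one hP (Set.toFinite σ)
      omega
    have h2 := ih (σ \ {P}) h1 (hσ.mono Set.sdiff_subset) (fun Q hQ => hpσ Q hQ.1)
    have h3 := stab_diff hP
    have h4 : chainStabilizer σ ≤ chainStabilizer (σ \ {P}) := by
      rw [h3]
      exact inf_le_left
    intro b hb
    have h5 := brauer (p := p) (K := chainStabilizer (σ \ {P})) h4 (hpσ P hP) (le_stab hmin)
      (by
        rw [h3]
        exact inf_le_right) (by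
        intro x hx hxc
        rw [h3]
        refine ⟨hx, ?_⟩
        exact Subgroup.centralizer_le_normalizer _ hxc) hb
    exact h2 _ h5

theorem induces_block [hp : Fact p.Prime] [CharP F p] (red : integralClosure ℤ ℂ →+* F)
    {σ : Set (Subgroup G)} (hσ : IsChain (· ≤ ·) σ) (hpσ : ∀ P ∈ σ, IsPGroup p P)
    {χ : chainStabilizer σ → ℂ} (h : IsIrrChar χ) {B : (G → F) → F} (hB : Induces red B χ) :
    IsBlock B := by
  have h1 : IsBlock (centralValue red χ) :=
    Pool.Agent.Y930.NV.cvh F red (chainStabilizer σ) χ h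
  have h2 := good_stab (F := F) (p := p) _ σ rfl hσ hpσ _ h1
  refine ⟨?_, ?_, ?_, ?_⟩
  · intro f g hf hg
    have hfg : IsClassFun (f + g) := fun a x => by
      simp only [Pi.add_apply, hf a x, hg a x]
    rw [← hB _ hfg, ← hB _ hf, ← hB _ hg]
    exact h2.add f g hf hg
  · intro a f hf
    have haf : IsClassFun (a • f) := fun c x => by
      simp only [Pi.smul_apply, hf c x]
    rw [← hB _ haf, ← hB _ hf]
    exact h2.smul a f hf
  · have hδ : IsClassFun (Pi.single 1 1 : G → F) := by
      have := Pool.Agent.Y405.NV.class_const (H := G) (1 : F)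
      rwa [one_smul] at this
    rw [← hB _ hδ]
    exact h2.one
  · intro f g hf hg
    have hfg : IsClassFun (conv f g) := by
      have : Fintype G := Fintype.ofFinite G
      exact conv_classFun hf hg
    rw [← hB _ hfg, ← hB _ hf, ← hB _ hg]
    exact h2.mul f g hf hg

end Pool.Agent.X209.PJ
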