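import Pool.Agent.X209.PJ.Orb
import Pool.Agent.Y63.NV.Infl

/-!
# Characters of quotients
-/

open scoped Classical BigOperators
open Pool.Agent.Helper884.IC Pool.Agent.Y63.AWC
open Pool.Agent.Y63.NV (redC centralValue IsClassFun)
open Pool.Agent.Y63.KR (conjSub chainStabilizer mem_chainStabilizer conjSub_eq_iff mem_conjSub
  conjSub_inv_conjSub)

set_option linter.unusedSectionVars false
set_option linter.unusedVariables false

noncomputable section

namespace Pool.Agent.X209.PJ

variable {p : ℕ} {F : Type} [Field F] (red : integralClosure ℤ ℂ →+* F)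
  {G : Type} [Group G] [Finite G] {A : Subgroup G}

/-- the number of characters with given values of the central character at some class functions -/
def kGen (p : ℕ) (T : Set ((G → F) × F)) (Y : Subgroup G) (d : ℕ) (H : Subgroup G) : ℕ :=
  Nat.card {χ : H → ℂ // IsIrrChar χ ∧ TrivOn Y χ ∧ HasDefect p d χ ∧
    ∀ t ∈ T, centralValue red χ (fun x => t.1 x) = t.2}

/-- all the values of `B` -/
def TB (B : (G → F) → F) : Set ((G → F) × F) := {t | IsClassFun t.1 ∧ t.2 = B t.1}

lemma kTriv_eq_kGen (Y : Subgroup G) (B : (G → F) → F) (d : ℕ) (H : Subgroup G) :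
    kTriv red p Y B d H = kGen red p (TB B) Y d H := by
  unfold kTriv kGen
  refine Nat.card_congr (Equiv.subtypeEquivRight fun χ => ?_)
  refine and_congr Iff.rfl (and_congr Iff.rfl (and_congr Iff.rfl ?_))
  constructor
  · rintro h ⟨f, c⟩ ⟨h1, h2⟩
    simp only [] at h1 h2
    rw [h2]
    exact h f h1
  · intro h f hf
    exact h (f, B f) ⟨hf, rfl⟩

lemma cv_iso {J K : Type} [Group J] [Group K] [Finite J] [Finite K] (e : J ≃* K) {χ : K → ℂ}
    (h : IsIrrChar χ) (f : J → F) (hf : IsClassFun f) :
    centralValue red (fun x => χ (e x)) f = centralValue red χ (fun y => f (e.symm y)) := by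
  have h1 := Pool.Agent.Y930.NV.inf F red J K e.toMonoidHom χ f e.surjective h hf
  refine h1.trans ?_
  congr 1
  funext y
  rw [finsum_eq_single _ (e.symm y)]
  · rw [if_pos]
    exact e.apply_symm_apply y
  · intro x hx
    rw [if_neg]
    intro h2
    apply hx
    rw [← h2]
    exact (e.symm_apply_apply x).symm

lemma kGen_le (T : Set ((G → F) × F)) (hT : ∀ t ∈ T, IsClassFun t.1) {Y : Subgroup G}
    (hY : Y ≤ Subgroup.center G) (d : ℕ) (g : G) (H : Subgroup G) :
    kGen red p T Y d (conjSub g H) ≤ kGen red p T Y d H := by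
  unfold kGen
  have hfin := finite_irr (H := H) (fun χ => TrivOn Y χ ∧ HasDefect p d χ ∧
    ∀ t ∈ T, centralValue red χ (fun x => t.1 x) = t.2)
  let e : H ≃* ↥(conjSub g H) :=
    H.equivMapOfInjective (MulAut.conj g).toMonoidHom (MulAut.conj g).injective
  have he : ∀ x : H, ((e x : ↥(conjSub g H)) : G) = g * x * g⁻¹ := fun x => rfl
  refine Nat.card_le_card_of_injective (fun χ => ⟨fun x => χ.1 (e x), ?_⟩) ?_
  · obtain ⟨χ, h1, h2, h3, h4⟩ := χ
    refine ⟨irr_comp e h1, ?_, ?_, ?_⟩
    · intro y hy x z hxz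
      apply h2 y hy
      rw [he, he, hxz]
      have h5 := Subgroup.mem_center_iff.mp (hY hy) g
      rw [← mul_assoc, h5]
      group
    · obtain ⟨m, h5, h6⟩ := h3
      refine ⟨m, ?_, ?_⟩
      · change χ (e 1) = _
        rw [map_one]
        exact h5
      · rw [h6]
        rw [Nat.card_congr e.toEquiv]
    · intro t ht
      rw [cv_iso red e h1 (fun x : H => t.1 x) (fun g x => hT t ht g x), ← h4 t ht]
      congr 1
      funext y
      have h5 := he (e.symm y)
      rw [e.apply_symm_apply] at h5
      rw [h5]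
      exact (hT t ht g _).symm
  · intro χ ψ h
    apply Subtype.ext
    funext x
    have h1 := congrFun (congrArg Subtype.val h) (e.symm x)
    simp only [e.apply_symm_apply] at h1
    exact h1

lemma kGen_conj (T : Set ((G → F) × F)) (hT : ∀ t ∈ T, IsClassFun t.1) {Y : Subgroup G}
    (hY : Y ≤ Subgroup.center G) (d : ℕ) (g : G) (H : Subgroup G) :
    kGen red p T Y d (conjSub g H) = kGen red p T Y d H := by
  apply le_antisymm (kGen_le red T hT hY d g H)
  have h := kGen_le (p := p) red T hT hY d g⁻¹ (conjSub g H)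
  rwa [conjSub_inv_conjSub] at h

/-! ### Quotients -/

section quot

variable {G' : Type} [Group G'] [Finite G'] (π : G →* G')

/-- the image in the group algebra of `G'` -/
def push (f : G → F) : G' → F := fun u => ∑ᶠ x : G, if π x = u then f x else 0

lemma push_class (hπ : Function.Surjective π) {f : G → F} (hf : IsClassFun f) :
    IsClassFun (push π f) := by
  intro g u
  obtain ⟨w, rfl⟩ := hπ g
  have : Fintype G := Fintype.ofFinite G
  unfold push
  rw [finsum_eq_sum_of_fintype, finsum_eq_sum_of_fintype]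
  refine (Fintype.sum_equiv (MulAut.conj w).toEquiv _ _ fun x => ?_).symm
  change (if π x = u then f x else 0) = if π (w * x * w⁻¹) = π w * u * (π w)⁻¹ then
    f (w * x * w⁻¹) else 0
  rw [hf w x]
  congr 1
  rw [map_mul, map_mul, map_inv]
  apply propext
  constructor
  · rintro rfl
    rfl
  · intro h
    exact mul_left_cancel (mul_right_cancel h)

lemma cv_quot (H : Subgroup G) (hH : π.ker ≤ H) {χ : H.map π → ℂ} (h : IsIrrChar χ) (f : G → F)
    (hf : IsClassFun f) :
    centralValue red (fun x : H => χ (π.subgroupMap H x)) (fun x : H => f x) =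
      centralValue red χ (fun u : H.map π => push π f u) := by
  have h1 := Pool.Agent.Y930.NV.inf F red H (H.map π) (π.subgroupMap H) χ (fun x : H => f x)
    (π.subgroupMap_surjective H) h (fun g x => hf g x)
  refine h1.trans ?_
  congr 1
  funext u
  have : Fintype G := Fintype.ofFinite G
  have : Fintype H := Fintype.ofFinite H
  unfold push
  rw [finsum_eq_sum_of_fintype, finsum_eq_sum_of_fintype]
  have h2 : ∀ x : G, (if π x = (u : G') then f x else 0) ≠ 0 → x ∈ H := by
    intro x hx
    by_contra hxH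
    apply hx
    rw [if_neg]
    intro h3
    apply hxH
    obtain ⟨y, hy, hyu⟩ := u.2
    have h4 : x * y⁻¹ ∈ π.ker := by
      rw [MonoidHom.mem_ker, map_mul, map_inv, h3, ← hyu, mul_inv_cancel]
    have h5 := H.mul_mem (hH h4) hy
    rwa [inv_mul_cancel_right] at h5
  rw [← Finset.sum_filter_of_ne (p := fun x => x ∈ H) (fun x _ hx => h2 x hx)]
  rw [Finset.sum_subtype (Finset.univ.filter fun x => x ∈ H) (p := fun x => x ∈ H) (by simp)]
  refine Finset.sum_congr rfl fun x _ => ?_
  congr 1
  apply propext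
  constructor
  · intro h3
    rw [← h3]
    rfl
  · intro h3
    exact Subtype.ext h3

theorem kGen_quot (T : Set ((G → F) × F)) (hT : ∀ t ∈ T, IsClassFun t.1) (d : ℕ) (H : Subgroup G)
    (hH : π.ker ≤ H) :
    kGen red p T π.ker (d + (Nat.card π.ker).factorization p) H =
      kGen red p ((fun t : (G → F) × F => (push π t.1, t.2)) '' T) ⊥ d (H.map π) := by
  unfold kGen
  symm
  have hcard : (Nat.card H).factorization p = (Nat.card π.ker).factorization p +
      (Nat.card (H.map π)).factorization p := by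
    rw [card_map π hH, Nat.factorization_mul Nat.card_pos.ne' Nat.card_pos.ne', Finsupp.add_apply]
  have hdef : ∀ χ : H.map π → ℂ, HasDefect p d χ ↔
      HasDefect p (d + (Nat.card π.ker).factorization p) (fun x : H => χ (π.subgroupMap H x)) := by
    intro χ
    unfold HasDefect
    refine exists_congr fun m => ?_
    have h0 : χ (π.subgroupMap H 1) = χ 1 := by rw [map_one]
    rw [hcard]
    constructor
    · rintro ⟨h1, h2⟩
      exact ⟨h0.trans h1, by omega⟩
    · rintro ⟨h1, h2⟩
      exact ⟨h0.symm.trans h1, by omega⟩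
  refine Nat.card_eq_of_bijective (fun χ => ⟨fun x => χ.1 (π.subgroupMap H x), ?_⟩) ⟨?_, ?_⟩
  · obtain ⟨χ, h1, h2, h3, h4⟩ := χ
    refine ⟨Pool.Agent.Y930.NV.irr_inflate (π.subgroupMap H) (π.subgroupMap_surjective H) h1, ?_,
      (hdef χ).mp h3, ?_⟩
    · intro y hy x z hxz
      change χ _ = χ _
      congr 1
      apply Subtype.ext
      change π z = π x
      rw [hxz, map_mul, (MonoidHom.mem_ker).mp hy, one_mul]
    · intro t ht
      rw [cv_quot red π H hH h1 t.1 (hT t ht)]
      exact h4 _ ⟨t, ht, rfl⟩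
  · intro χ ψ h
    apply Subtype.ext
    funext u
    obtain ⟨x, rfl⟩ := π.subgroupMap_surjective H u
    exact congrFun (congrArg Subtype.val h) x
  · rintro ⟨χ, h1, h2, h3, h4⟩
    have hinf : ∀ q ∈ (π.subgroupMap H).ker, ∀ x : H, χ (q * x) = χ x := by
      intro q hq x
      refine h2 q ?_ x (q * x) rfl
      rw [MonoidHom.mem_ker] at hq ⊢
      exact congrArg Subtype.val hq
    obtain ⟨χ', h5, h6⟩ := Pool.Agent.Y63.NV.deflate (π.subgroupMap H).ker h1 hinf
    let e := QuotientGroup.quotientKerEquivOfSurjective (π.subgroupMap H)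
      (π.subgroupMap_surjective H)
    have he : ∀ x : H, e (x : H ⧸ (π.subgroupMap H).ker) = π.subgroupMap H x := fun x => rfl
    have h7 : (fun x : H => χ' (e.symm (π.subgroupMap H x))) = χ := by
      funext x
      rw [← he, e.symm_apply_apply, h6]
    have h8 : IsIrrChar (fun u : H.map π => χ' (e.symm u)) := irr_comp e.symm h5
    refine ⟨⟨fun u => χ' (e.symm u), h8, ?_, ?_, ?_⟩, ?_⟩
    · intro y hy x z hxz
      rw [Subgroup.mem_bot.mp hy, one_mul] at hxz
      rw [Subtype.ext hxz]
    · rw [hdef]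
      rw [← h7] at h3
      exact h3
    · rintro _ ⟨t, ht, rfl⟩
      rw [← cv_quot red π H hH h8 t.1 (hT t ht)]
      rw [← h7] at h4
      exact h4 t ht
    · apply Subtype.ext
      exact h7

end quot

/-! ### The partition by blocks -/

/-- the label of a character -/
def lab {H : Subgroup G} (χ : H → ℂ) : (G → F) → F := fun f =>
  if IsClassFun f then centralValue red χ (fun x => f x) else 0

/-- all labels -/
def RS : Set ((G → F) → F) := {β | ∃ (H : Subgroup G) (χ : H → ℂ), IsIrrChar χ ∧ lab red χ = β}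

lemma RS_finite : (RS (G := G) red).Finite := by
  have h1 : RS (G := G) red = ⋃ H : Subgroup G, (fun χ : H → ℂ => lab red χ) '' {χ | IsIrrChar χ} := by
    ext β
    simp only [RS, Set.mem_iUnion, Set.mem_image]
    rfl
  rw [h1]
  refine Set.finite_iUnion fun H => ?_
  have : Fintype H := Fintype.ofFinite H
  exact (irr_finite (G := H)).image _

theorem kGen_sum (T : Set ((G → F) × F)) (hT : ∀ t ∈ T, IsClassFun t.1) (d : ℕ) (H : Subgroup G) :
    kGen red p T ⊥ d H = ∑ β ∈ (RS_finite (G := G) red).toFinset.filter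
      (fun β => ∀ t ∈ T, β t.1 = t.2), kOrd p red β d H := by
  unfold kGen kOrd
  set S := (RS_finite (G := G) red).toFinset.filter (fun β => ∀ t ∈ T, β t.1 = t.2) with hS
  have hfin : ∀ β : (G → F) → F,
      Finite {χ : H → ℂ // IsIrrChar χ ∧ HasDefect p d χ ∧ Induces red β χ} :=
    fun β => finite_irr (H := H) (fun χ => HasDefect p d χ ∧ Induces red β χ)
  have hlab : ∀ (χ : H → ℂ) (f : G → F), IsClassFun f →
      lab red χ f = centralValue red χ (fun x => f x) := by
    intro χ f hf
    unfold lab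
    rw [if_pos hf]
  have h1 : Nat.card {χ : H → ℂ // IsIrrChar χ ∧ TrivOn ⊥ χ ∧ HasDefect p d χ ∧
      ∀ t ∈ T, centralValue red χ (fun x => t.1 x) = t.2} =
      Nat.card (Σ β : {β // β ∈ S},
        {χ : H → ℂ // IsIrrChar χ ∧ HasDefect p d χ ∧ Induces red β.1 χ}) := by
    refine Nat.card_congr
      { toFun := fun χ => ⟨⟨lab red χ.1, ?_⟩, χ.1, χ.2.1, χ.2.2.2.1, ?_⟩
        invFun := fun s => ⟨s.2.1, s.2.2.1, ?_, s.2.2.2.1, ?_⟩
        left_inv := fun χ => rfl
        right_inv := ?_ }
    · rw [hS, Finset.mem_filter, Set.Finite.mem_toFinset]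
      refine ⟨⟨H, χ.1, χ.2.1, rfl⟩, fun t ht => ?_⟩
      rw [hlab _ _ (hT t ht)]
      exact χ.2.2.2.2 t ht
    · intro f hf
      exact (hlab _ _ hf).symm
    · intro y hy x z hxz
      rw [Subgroup.mem_bot.mp hy, one_mul] at hxz
      rw [Subtype.ext hxz]
    · intro t ht
      rw [s.2.2.2.2 t.1 (hT t ht)]
      exact (Finset.mem_filter.mp s.1.2).2 t ht
    · rintro ⟨⟨β, hβ⟩, χ, h2, h3, h4⟩
      have h5 : lab red χ = β := by
        rw [hS, Finset.mem_filter, Set.Finite.mem_toFinset] at hβ
        obtain ⟨⟨K, ψ, _, rfl⟩, _⟩ := hβ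
        funext f
        by_cases hf : IsClassFun f
        · rw [hlab _ _ hf]
          exact h4 f hf
        · unfold lab
          rw [if_neg hf, if_neg hf]
      subst h5
      rfl
  rw [h1, Nat.card_sigma]
  exact Finset.sum_coe_sort S (fun β => Nat.card {χ : H → ℂ // IsIrrChar χ ∧ HasDefect p d χ ∧
    Induces red β χ})

end Pool.Agent.X209.PJ
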