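import Pool.Agent.X209.PJ.Off

/-!
# Each block of `G` dominates at most one block of `G/Y`, for a central `p`-subgroup `Y`
-/

open scoped Classical BigOperators MonoidAlgebra
open Pool.Agent.Y63.NV (IsClassFun IsBlock redC centralValue conv)
open Pool.Agent.Y405.NV (ofF ofC toRH class_iff coeff_ofF)

set_option linter.unusedSectionVars false
set_option linter.unusedVariables false

noncomputable section

namespace Pool.Agent.X209.PJ

/-- the `p`-th power of a lift of a central element is central -/
lemma step_ring {p : ℕ} [hp : Fact p.Prime] {F : Type} [Field F] [CharP F p] {R R' : Type}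
    [Ring R] [Algebra F R] [Nontrivial R] [Ring R'] (φ : R →+* R') (hφ : Function.Surjective φ)
    {t : R} (ht : ∀ w, t * w = w * t) (htp : t ^ p = 0) (hker : ∀ w, φ w = 0 → ∃ w', w = t * w')
    {z' : R'} (hz' : ∀ w, z' * w = w * z') :
    ∃ z : R, (∀ w, z * w = w * z) ∧ φ z = z' ^ p := by
  obtain ⟨u, hu⟩ := hφ z'
  have : CharP (Module.End F R) p :=
    charP_of_injective_algebraMap (algebraMap F (Module.End F R)).injective p
  set D : Module.End F R := LinearMap.mulLeft F u - LinearMap.mulRight F u with hD
  have hDv : ∀ v, D v = u * v - v * u := fun v => rfl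
  have h1 : ∀ v, ∃ w, D v = t * w := by
    intro v
    apply hker
    rw [hDv, map_sub, map_mul, map_mul, hu, hz', sub_self]
  have h2 : ∀ k v, ∃ w, (D ^ k) v = t ^ k * w := by
    intro k
    induction k with
    | zero => exact fun v => ⟨v, by simp⟩
    | succ k ih =>
      intro v
      obtain ⟨w, hw⟩ := ih v
      obtain ⟨w', hw'⟩ := h1 w
      refine ⟨w', ?_⟩
      have htk : ∀ w, t ^ k * w = w * t ^ k := fun w => (Commute.pow_left (ht w) k)
      rw [pow_succ', Module.End.mul_apply, hw, hDv]
      have h3 : u * (t ^ k * w) - t ^ k * w * u = t ^ k * (u * w - w * u) := by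
        rw [← mul_assoc, ← htk u, mul_assoc, mul_assoc, mul_sub]
      rw [h3, ← hDv, hw', pow_succ, mul_assoc]
  have h3 : D ^ p = LinearMap.mulLeft F (u ^ p) - LinearMap.mulRight F (u ^ p) := by
    rw [hD, sub_pow_char_of_commute p (LinearMap.commute_mulLeft_right u u),
      LinearMap.pow_mulLeft, LinearMap.pow_mulRight]
  refine ⟨u ^ p, fun v => ?_, by rw [map_pow, hu]⟩
  obtain ⟨w, hw⟩ := h2 p v
  rw [htp, zero_mul, h3] at hw
  have h4 : u ^ p * v - v * u ^ p = 0 := hw
  exact sub_eq_zero.mp h4

section grp

variable {p : ℕ} [hp : Fact p.Prime] {F : Type} [Field F] [CharP F p]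

/-- the map of the group algebras -/
abbrev mp (F : Type) [Field F] {G G' : Type} [Group G] [Group G'] (π : G →* G') :
    MonoidAlgebra F G →+* MonoidAlgebra F G' := MonoidAlgebra.mapDomainRingHom F π

lemma mp_single {G G' : Type} [Group G] [Group G'] (π : G →* G') (g : G) (c : F) :
    mp F π (MonoidAlgebra.single g c) = MonoidAlgebra.single (π g) c := by
  simp [mp]

lemma mp_surj {G G' : Type} [Group G] [Group G'] (π : G →* G') (hπ : Function.Surjective π) :
    Function.Surjective (mp F π) := by
  intro w
  induction w using MonoidAlgebra.induction_linear with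
  | zero => exact ⟨0, map_zero _⟩
  | add x y hx hy =>
    obtain ⟨a, rfl⟩ := hx
    obtain ⟨b, rfl⟩ := hy
    exact ⟨a + b, map_add _ _ _⟩
  | single u c =>
    obtain ⟨g, rfl⟩ := hπ u
    exact ⟨MonoidAlgebra.single g c, mp_single π g c⟩

lemma step_grp {G G' : Type} [Group G] [Group G'] [Finite G] (π : G →* G')
    (hπ : Function.Surjective π) {y : G} (hy : y ∈ Subgroup.center G) (hyp : y ^ p = 1)
    (hker : π.ker = Subgroup.zpowers y) {z' : MonoidAlgebra F G'} (hz' : ∀ w, z' * w = w * z') :
    ∃ z : MonoidAlgebra F G, (∀ w, z * w = w * z) ∧ mp F π z = z' ^ p := by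
  set t : MonoidAlgebra F G := MonoidAlgebra.single y 1 - 1 with ht
  have : CharP (MonoidAlgebra F G) p :=
    charP_of_injective_algebraMap (algebraMap F (MonoidAlgebra F G)).injective p
  have hYc : ∀ w : MonoidAlgebra F G, MonoidAlgebra.single y 1 * w = w * MonoidAlgebra.single y 1 := by
    intro w
    induction w using MonoidAlgebra.induction_linear with
    | zero => rw [mul_zero, zero_mul]
    | add a b ha hb => rw [mul_add, add_mul, ha, hb]
    | single g c =>
      rw [MonoidAlgebra.single_mul_single, MonoidAlgebra.single_mul_single, one_mul, mul_one,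
        Subgroup.mem_center_iff.mp hy g]
  refine step_ring (p := p) (F := F) (mp F π) (mp_surj π hπ) (t := t) ?_ ?_ ?_ hz'
  · intro w
    rw [ht, sub_mul, mul_sub, one_mul, mul_one, hYc]
  · rw [ht, sub_pow_char_of_commute p (Commute.one_right _), one_pow, MonoidAlgebra.single_pow,
      hyp, one_pow, ← MonoidAlgebra.one_def, sub_self]
  · -- the kernel
    let s : G' → G := Function.surjInv hπ
    have hs : ∀ u, π (s u) = u := Function.surjInv_eq hπ
    have key : ∀ w : MonoidAlgebra F G, ∃ r, w = MonoidAlgebra.mapDomain s (mp F π w) + t * r := by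
      intro w
      induction w using MonoidAlgebra.induction_linear with
      | zero => exact ⟨0, by simp⟩
      | add a b ha hb =>
        obtain ⟨r1, h1⟩ := ha
        obtain ⟨r2, h2⟩ := hb
        refine ⟨r1 + r2, ?_⟩
        rw [map_add, MonoidAlgebra.mapDomain_add, mul_add]
        nth_rw 1 [h1, h2]
        abel
      | single g c =>
        have h1 : g * (s (π g))⁻¹ ∈ π.ker := by
          rw [MonoidHom.mem_ker, map_mul, map_inv, hs, mul_inv_cancel]
        rw [hker, ← mem_powers_iff_mem_zpowers] at h1
        obtain ⟨n, hn⟩ := h1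
        simp only at hn
        have hg : g = y ^ n * s (π g) := by rw [hn, inv_mul_cancel_right]
        refine ⟨(∑ i ∈ Finset.range n, (MonoidAlgebra.single y 1 : MonoidAlgebra F G) ^ i) *
          MonoidAlgebra.single (s (π g)) c, ?_⟩
        rw [mp_single, MonoidAlgebra.mapDomain_single, ← mul_assoc, ht, mul_geom_sum, sub_mul,
          one_mul, MonoidAlgebra.single_pow, one_pow, MonoidAlgebra.single_mul_single, one_mul,
          ← hg]
        abel
    intro w hw
    obtain ⟨r, hr⟩ := key w
    rw [hw, MonoidAlgebra.mapDomain_zero, zero_add] at hr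
    exact ⟨r, hr⟩

theorem lift_pow (n : ℕ) : ∀ (G G' : Type) [Group G] [Group G'] [Finite G] [Finite G']
    (π : G →* G'), Function.Surjective π → π.ker ≤ Subgroup.center G → IsPGroup p π.ker →
    Nat.card π.ker ≤ n → ∀ z' : MonoidAlgebra F G', (∀ w, z' * w = w * z') →
    ∃ N : ℕ, ∃ z : MonoidAlgebra F G, (∀ w, z * w = w * z) ∧ mp F π z = z' ^ (p ^ N) := by
  induction n with
  | zero =>
    intro G G' _ _ _ _ π hπ hc hpk hn
    have := Nat.card_pos (α := π.ker)
    omega
  | succ n ih =>
    intro G G' _ _ _ _ π hπ hc hpk hn z' hz'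
    by_cases h1 : Nat.card π.ker = 1
    · -- injective
      have hinj : Function.Injective π := by
        rw [← MonoidHom.ker_eq_bot_iff]
        exact (Subgroup.card_eq_one.mp h1)
      have hinj2 : Function.Injective (mp F π) := MonoidAlgebra.mapDomain_injective hinj
      obtain ⟨z, hz⟩ := mp_surj (F := F) π hπ z'
      refine ⟨0, z, fun w => ?_, by rw [hz, pow_zero, pow_one]⟩
      apply hinj2
      rw [map_mul, map_mul, hz, hz']
    · -- an element of order `p`
      have hdvd : p ∣ Nat.card π.ker := by
        obtain ⟨k, hk⟩ := IsPGroup.iff_card.mp hpk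
        rcases Nat.eq_zero_or_pos k with h2 | h2
        · rw [hk, h2, pow_zero] at h1
          exact absurd rfl h1
        · rw [hk]
          exact dvd_pow_self p (by omega)
      obtain ⟨y, hy⟩ := exists_prime_orderOf_dvd_card' p hdvd
      have hy1 : orderOf (y : G) = p := by rw [Subgroup.orderOf_coe, hy]
      have hyc : (y : G) ∈ Subgroup.center G := hc y.2
      set Y1 : Subgroup G := Subgroup.zpowers (y : G) with hY1
      have hY1k : Y1 ≤ π.ker := by
        rw [hY1, Subgroup.zpowers_le]
        exact y.2
      have hY1n : Y1.Normal := normal_of_center (hY1k.trans hc)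
      set π1 : G →* G ⧸ Y1 := QuotientGroup.mk' Y1 with hπ1
      set π2 : G ⧸ Y1 →* G' := QuotientGroup.lift Y1 π (fun g hg => hY1k hg) with hπ2
      have hcomp : ∀ g, π2 (π1 g) = π g := fun g => rfl
      have hs1 : Function.Surjective π1 := QuotientGroup.mk'_surjective Y1
      have hs2 : Function.Surjective π2 := by
        intro u
        obtain ⟨g, rfl⟩ := hπ u
        exact ⟨π1 g, rfl⟩
      have hk1 : π1.ker = Y1 := QuotientGroup.ker_mk' Y1
      have hk2 : π2.ker = π.ker.map π1 := by
        ext u
        obtain ⟨g, rfl⟩ := hs1 u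
        rw [MonoidHom.mem_ker, hcomp, Subgroup.mem_map]
        constructor
        · intro h
          exact ⟨g, h, rfl⟩
        · rintro ⟨x, hx, hxg⟩
          rw [← hcomp, ← hxg, hcomp]
          exact hx
      have hcard : Nat.card π.ker = Nat.card Y1 * Nat.card π2.ker := by
        rw [hk2, card_map π1 (by rw [hk1]; exact hY1k), hk1]
      have hcY : Nat.card Y1 = p := by rw [hY1, Nat.card_zpowers, hy1]
      have hlt : Nat.card π2.ker ≤ n := by
        have h3 := Nat.card_pos (α := π2.ker)
        have h4 := hp.out.two_le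
        rw [hcY] at hcard
        have h5 : 2 * Nat.card π2.ker ≤ p * Nat.card π2.ker := Nat.mul_le_mul_right _ h4
        omega
      have hc2 : π2.ker ≤ Subgroup.center (G ⧸ Y1) := by
        rw [hk2]
        exact map_center π1 hs1 hc
      have hp2 : IsPGroup p π2.ker := by
        rw [hk2]
        exact hpk.map π1
      obtain ⟨N, z1, hz1, hz1'⟩ := ih (G ⧸ Y1) G' π2 hs2 hc2 hp2 hlt z' hz'
      obtain ⟨z, hz, hz2⟩ := step_grp (p := p) (F := F) π1 hs1 hyc
        (by rw [← hy1]; exact pow_orderOf_eq_one _) hk1 hz1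
      refine ⟨N + 1, z, hz, ?_⟩
      have h6 : mp F π = (mp F π2).comp (mp F π1) := by
        rw [← MonoidAlgebra.mapDomainRingHom_comp]
        congr 1
      rw [h6, RingHom.comp_apply, hz2, map_pow, hz1', ← pow_mul, pow_succ]

lemma coeff_mp {G G' : Type} [Group G] [Group G'] [Finite G] (π : G →* G')
    (w : MonoidAlgebra F G) (u : G') : (mp F π w).coeff u = push π (fun x => w.coeff x) u := by
  have : Fintype G := Fintype.ofFinite G
  unfold push
  rw [finsum_eq_sum_of_fintype]
  induction w using MonoidAlgebra.induction_linear with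
  | zero => simp
  | add a b ha hb =>
    rw [map_add, MonoidAlgebra.coeff_add, Finsupp.add_apply, ha, hb, ← Finset.sum_add_distrib]
    refine Finset.sum_congr rfl fun x _ => ?_
    by_cases h : π x = u
    · simp [h]
    · simp [h]
  | single g c =>
    rw [mp_single, MonoidAlgebra.coeff_single, Finset.sum_eq_single g]
    · simp only [MonoidAlgebra.coeff_single]
      by_cases h : π g = u
      · rw [h, Finsupp.single_eq_same, if_pos rfl, Finsupp.single_eq_same]
      · rw [Finsupp.single_eq_of_ne (Ne.symm h), if_neg h]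
    · intro x _ hx
      simp only [MonoidAlgebra.coeff_single]
      rw [Finsupp.single_eq_of_ne hx, ite_self]
    · intro h
      exact absurd (Finset.mem_univ _) h

theorem uniq {G G' : Type} [Group G] [Group G'] [Finite G] [Finite G'] (π : G →* G')
    (hπ : Function.Surjective π) (hc : π.ker ≤ Subgroup.center G) (hpk : IsPGroup p π.ker)
    {b b' : (G' → F) → F} (hb : IsBlock b) (hb' : IsBlock b')
    (h : ∀ f : G → F, IsClassFun f → b (push π f) = b' (push π f)) {f : G' → F}
    (hf : IsClassFun f) : b f = b' f := by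
  have hmemc : ∀ z : MonoidAlgebra F G', z ∈ Subring.center (MonoidAlgebra F G') ↔
      ∀ w, z * w = w * z := by
    intro z
    rw [Subring.mem_center_iff]
    exact ⟨fun h w => (h w).symm, fun h w => (h w).symm⟩
  set z' := ofC f hf with hz'
  obtain ⟨N, z, hz, hz2⟩ := lift_pow (p := p) (F := F) (Nat.card π.ker) G G' π hπ hc hpk le_rfl z'.1
    ((hmemc _).mp z'.2)
  have hzc : IsClassFun (fun x => z.coeff x) := by
    rw [← class_iff, Subring.mem_center_iff]
    exact fun w => (hz w).symm
  have key : ∀ {β : (G' → F) → F} (hβ : IsBlock β),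
      (β f) ^ (p ^ N) = β (push π (fun x => z.coeff x)) := by
    intro β hβ
    have h1 : toRH hβ (z' ^ (p ^ N)) = (β f) ^ (p ^ N) := by
      rw [map_pow]
      rfl
    rw [← h1, Pool.Agent.Y405.NV.toRH_apply]
    congr 1
    funext u
    have h2 : ((z' ^ (p ^ N) : Subring.center (MonoidAlgebra F G')) : MonoidAlgebra F G') =
        mp F π z := by
      rw [hz2]
      rfl
    rw [h2, coeff_mp]
  have h3 : (b f) ^ (p ^ N) = (b' f) ^ (p ^ N) := by
    rw [key hb, key hb', h _ hzc]
  have h4 : (b f - b' f) ^ (p ^ N) = 0 := by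
    rw [sub_pow_char_pow, h3, sub_self]
  exact sub_eq_zero.mp (pow_eq_zero_iff (pow_ne_zero _ hp.out.ne_zero) |>.mp h4)

end grp

end Pool.Agent.X209.PJ
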