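import Pool.Agent.X209.PJ.Local
import Pool.Agent.X209.NB.InvE

/-!
# Cyclic quotients of the central `p`-subgroup suffice
-/

open scoped Classical BigOperators
open Pool.Agent.Helper884.IC Pool.Agent.Y63.AWC
open Pool.Agent.Y63.NV (redC centralValue IsClassFun IsBlock)
open Pool.Agent.Y63.KR (conjSub chainStabilizer mem_chainStabilizer conjSub_eq_iff mem_conjSub
  conjSub_inv_conjSub)
open Pool.Agent.X209.CC (LamW)

set_option linter.unusedSectionVars false
set_option linter.unusedVariables false

noncomputable section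

namespace Pool.Agent.X209.PJ

variable {p : ℕ} {F : Type} [Field F] (red : integralClosure ℤ ℂ →+* F)

section

variable {G : Type} [Group G] [Finite G] {A : Subgroup G}

lemma Lam_kerG [Fintype (A →* ℂˣ)] (mu : A →* ℂˣ) : Lam A (kerG mu) = LamW mu.ker := by
  ext nu
  rw [Lam, LamW, Finset.mem_filter, Finset.mem_filter]
  refine and_congr_right fun _ => ?_
  constructor
  · intro h3 a ha
    exact h3 a ((mem_kerG mu a).mpr ha)
  · intro h3 a ha
    exact h3 ((mem_kerG mu a).mp ha)

/-- the image of `A` modulo the kernel of a linear character is cyclic -/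
lemma cyclic_quot (mu : A →* ℂˣ) (hn : (kerG mu).Normal) :
    IsCyclic (A.map (QuotientGroup.mk' (kerG mu))) := by
  let f : A →* A.map (QuotientGroup.mk' (kerG mu)) :=
    (QuotientGroup.mk' (kerG mu)).subgroupMap A
  have hf : Function.Surjective f := (QuotientGroup.mk' (kerG mu)).subgroupMap_surjective A
  have hker : f.ker = mu.ker := by
    ext a
    rw [MonoidHom.mem_ker]
    constructor
    · intro h
      have h1 : QuotientGroup.mk' (kerG mu) (a : G) = 1 := congrArg Subtype.val h
      rw [← MonoidHom.mem_ker, QuotientGroup.ker_mk'] at h1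
      exact (mem_kerG mu a).mp h1
    · intro h
      apply Subtype.ext
      change QuotientGroup.mk' (kerG mu) (a : G) = 1
      rw [← MonoidHom.mem_ker, QuotientGroup.ker_mk']
      exact (mem_kerG mu a).mpr h
  have hfin : Finite mu.range := by
    have : Finite (Set.range mu) := Set.finite_range mu
    exact this
  have hcyc : IsCyclic mu.range := isCyclic_subgroup_units mu.range
  let e : A.map (QuotientGroup.mk' (kerG mu)) ≃* mu.range :=
    ((QuotientGroup.quotientKerEquivOfSurjective f hf).symm.trans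
      (QuotientGroup.quotientMulEquivOfEq hker)).trans (QuotientGroup.quotientKerEquivRange mu)
  exact isCyclic_of_surjective e.symm.toMonoidHom e.symm.surjective

theorem proj_of_cyclic [hp : Fact p.Prime] [CharP F p] (hA : A ≤ Subgroup.center G)
    (hpA : IsPGroup p A)
    (h : ∀ Y : Subgroup G, Y ≤ A → ∀ _ : Y.Normal, IsCyclic (A.map (QuotientGroup.mk' Y)) →
      DadeCentral red p (A.map (QuotientGroup.mk' Y)))
    (lam : A →* ℂˣ) (B : (G → F) → F) (d : ℕ) (hd : (Nat.card A).factorization p < d) :
    altAbove p A (fun H => (kProj p red lam B d H : ℤ)) = 0 := by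
  have : Fintype (A →* ℂˣ) := Fintype.ofFinite _
  refine Pool.Agent.X209.NB.vanish
    (fun mu : A →* ℂˣ => altAbove p A (fun H => (kProj p red mu B d H : ℤ))) ?_ lam ?_
  · intro mu nu hk
    simp only [kProj_ker red hpA nu mu hk.symm B]
  · intro m
    have hKA : kerG (lam ^ m) ≤ A := kerG_le _
    have hKn : (kerG (lam ^ m)).Normal := normal_of_center (hKA.trans hA)
    have h1 := kTriv_zero red (QuotientGroup.mk' (kerG (lam ^ m)))
      (QuotientGroup.mk'_surjective _) hA hpA (by rw [QuotientGroup.ker_mk']; exact hKA)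
      (h _ hKA hKn (cyclic_quot (lam ^ m) hKn)) B d hd
    rw [QuotientGroup.ker_mk', altAbove_kTriv red hA hKA B d, Lam_kerG] at h1
    exact h1

theorem central_of_cyclic [hp : Fact p.Prime] [CharP F p] (hA : A ≤ Subgroup.center G)
    (hpA : IsPGroup p A)
    (h : ∀ Y : Subgroup G, Y ≤ A → ∀ _ : Y.Normal, IsCyclic (A.map (QuotientGroup.mk' Y)) →
      DadeCentral red p (A.map (QuotientGroup.mk' Y))) : DadeCentral red p A := by
  intro B d hd
  have : Fintype (A →* ℂˣ) := Fintype.ofFinite _
  have h1 := altAbove_kTriv (p := p) red hA (bot_le : (⊥ : Subgroup G) ≤ A) B d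
  have h2 : (fun H : Subgroup G => (kTriv red p ⊥ B d H : ℤ)) =
      fun H => (kOrd p red B d H : ℤ) := by
    funext H
    rw [kTriv_bot]
  rw [h2] at h1
  rw [h1]
  exact Finset.sum_eq_zero fun lam _ => proj_of_cyclic red hA hpA h lam B d hd

end

theorem cyclic_iff [hp : Fact p.Prime] [CharP F p] :
    CentralForm red p ↔ ∀ (G : Type) [Group G] [Finite G] (A : Subgroup G),
      A ≤ Subgroup.center G → IsCore p A → IsCyclic A → DadeCentral red p A := by
  constructor
  · intro h G _ _ A hA hc _
    exact h G A hA hc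
  · intro h G _ _ A hA hc
    apply central_of_cyclic red hA hc.pgroup
    intro Y hYA hY hcyc
    have hS : IsSylowOf p A A := ⟨le_rfl, hc.pgroup, rfl⟩
    have hc' : IsCore p (A.map (QuotientGroup.mk' Y)) :=
      Pool.Agent.X209.NB.core_quot (QuotientGroup.mk' Y) (QuotientGroup.mk'_surjective Y) hA hS
        (by rw [QuotientGroup.ker_mk']; exact hYA) hc
    exact h (G ⧸ Y) _ (map_center _ (QuotientGroup.mk'_surjective Y) hA) hc' hcyc

end Pool.Agent.X209.PJ

/-! ### The explicit formula -/

namespace Pool.Agent.X209.PJ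

variable {p : ℕ} {F : Type} [Field F] (red : integralClosure ℤ ℂ →+* F)
  {G : Type} [Group G] [Finite G] {A : Subgroup G}

theorem cyclic_formula [hp : Fact p.Prime] [CharP F p] (hA : A ≤ Subgroup.center G)
    (hpA : IsPGroup p A) (B : (G → F) → F) (d : ℕ) :
    ((altAbove p A (fun H => (kOrd p red B d H : ℤ)) : ℤ) : ℚ) =
      ∑ᶠ lam : A →* ℂˣ, (∑ m ∈ (orderOf lam).divisors, (ArithmeticFunction.moebius m : ℚ) *
        ((altAbove p A (fun H => (kTriv red p (kerG (lam ^ m)) B d H : ℤ)) : ℤ) : ℚ)) /
          (Nat.totient (orderOf lam) : ℚ) := by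
  have : Fintype (A →* ℂˣ) := Fintype.ofFinite _
  rw [finsum_eq_sum_of_fintype]
  have h1 := altAbove_kTriv (p := p) red hA (bot_le : (⊥ : Subgroup G) ≤ A) B d
  have h2 : (fun H : Subgroup G => (kTriv red p ⊥ B d H : ℤ)) =
      fun H => (kOrd p red B d H : ℤ) := by
    funext H
    rw [kTriv_bot]
  have h3 : Lam A (⊥ : Subgroup G) = Finset.univ := by
    rw [Lam, Finset.filter_true_of_mem]
    intro lam _ a ha
    have : a = 1 := Subtype.ext (Subgroup.mem_bot.mp ha)
    rw [this, map_one]
  rw [h2, h3] at h1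
  rw [h1]
  push_cast
  refine Finset.sum_congr rfl fun lam _ => ?_
  have h4 := Pool.Agent.X209.NB.moebius_formula
    (fun mu : A →* ℂˣ => altAbove p A (fun H => (kProj p red mu B d H : ℤ)))
    (fun mu nu hk => by simp only [kProj_ker red hpA nu mu hk.symm B]) lam
  have h5 : (Nat.totient (orderOf lam) : ℚ) ≠ 0 := by
    have h6 : 0 < Nat.totient (orderOf lam) := Nat.totient_pos.mpr (orderOf_pos lam)
    exact_mod_cast h6.ne'
  rw [eq_div_iff h5]
  have h6 := congrArg (Int.cast : ℤ → ℚ) h4
  push_cast at h6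
  rw [mul_comm, h6]
  refine Finset.sum_congr rfl fun m _ => ?_
  congr 1
  rw [altAbove_kTriv red hA (kerG_le _) B d, Lam_kerG]
  push_cast
  rfl

end Pool.Agent.X209.PJ
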