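import Pool.Agent.X209.PJ.Local
import Pool.Agent.X209.NB.InvE

/-!
# Sums over all defects
-/

open scoped Classical BigOperators
open Pool.Agent.Y63.NV (IsClassFun IsBlock redC centralValue conv)
open Pool.Agent.Helper884.IC
open Pool.Agent.Y63.AWC (deg_nat deg_dvd one_ne)
open Pool.Agent.Y63.KR (conjSub chainStabilizer mem_chainStabilizer conjSub_eq_iff)
open Pool.Agent.X209.CC (LamW)

set_option linter.unusedSectionVars false
set_option linter.unusedVariables false

noncomputable section

namespace Pool.Agent.X209.PJ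

lemma card_partition {α : Type} (P : α → Prop) (D : ℕ → α → Prop) (N : ℕ)
    (hfin : Finite {x // P x}) (h1 : ∀ x, P x → ∃ d ∈ Finset.range (N + 1), D d x)
    (h2 : ∀ x d d', P x → D d x → D d' x → d = d') :
    Nat.card {x // P x} = ∑ d ∈ Finset.range (N + 1), Nat.card {x // P x ∧ D d x} := by
  have hf : ∀ d : ℕ, Finite {x // P x ∧ D d x} := fun d =>
    Finite.of_injective (fun x : {x // P x ∧ D d x} => (⟨x.1, x.2.1⟩ : {x // P x}))
      (fun x y h => Subtype.ext (congrArg (fun z : {x // P x} => z.1) h))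
  rw [← Finset.sum_coe_sort (Finset.range (N + 1)) (fun d => Nat.card {x // P x ∧ D d x}),
    ← Nat.card_sigma]
  choose! f hf1 hf2 using h1
  refine Nat.card_congr
    { toFun := fun x => ⟨⟨f x.1, hf1 x.1 x.2⟩, x.1, x.2, hf2 x.1 x.2⟩
      invFun := fun s => ⟨s.2.1, s.2.2.1⟩
      left_inv := fun x => rfl
      right_inv := ?_ }
  rintro ⟨⟨d, hd⟩, x, hx, hdx⟩
  have h3 : f x = d := h2 x (f x) d hx (hf2 x hx) hdx
  subst h3
  rfl

variable {p : ℕ} [hp : Fact p.Prime] {F : Type} [Field F] [CharP F p]
  (red : integralClosure ℤ ℂ →+* F)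

section

variable {G : Type} [Group G]

/-- `k(B_σ, λ)`: the number of the irreducible characters of `H = G_σ` over `lam` in blocks which
induce `B`. -/
def kLamAll {F : Type} [Field F] (red : integralClosure ℤ ℂ →+* F) {Z : Subgroup G}
    (lam : Z →* ℂˣ) (B : (G → F) → F) (H : Subgroup G) : ℕ :=
  Nat.card {χ : H → ℂ // IsIrrChar χ ∧ Over lam χ ∧ Induces red B χ}

/-- `k(B_σ)`: the number of the irreducible characters of `H = G_σ` in blocks which induce `B`. -/
def kAllB {F : Type} [Field F] (red : integralClosure ℤ ℂ →+* F) (B : (G → F) → F)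
    (H : Subgroup G) : ℕ :=
  Nat.card {χ : H → ℂ // IsIrrChar χ ∧ Induces red B χ}

/-- The equations of the alternating-sum form, for the characters over each linear character of
`Z`. -/
def SumProj (p : ℕ) {F : Type} [Field F] (red : integralClosure ℤ ℂ →+* F) (Z A : Subgroup G) :
    Prop :=
  ∀ (lam : Z →* ℂˣ) (B : (G → F) → F), IsBlock B → AboveDefect p A B →
    altAbove p A (fun H => (kLamAll red lam B H : ℤ)) = 0

/-- The equations of the alternating-sum form. -/
def SumOrd (p : ℕ) {F : Type} [Field F] (red : integralClosure ℤ ℂ →+* F) (A : Subgroup G) :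
    Prop :=
  ∀ B : (G → F) → F, IsBlock B → AboveDefect p A B →
    altAbove p A (fun H => (kAllB red B H : ℤ)) = 0

end

section

variable {G : Type} [Group G] [Finite G] {A Z : Subgroup G}

lemma exists_defect {H : Subgroup G} {χ : H → ℂ} (h : IsIrrChar χ) :
    ∃ d ∈ Finset.range ((Nat.card G).factorization p + 1), HasDefect p d χ := by
  have : Fintype H := Fintype.ofFinite H
  obtain ⟨m, hm0, hm⟩ := deg_nat h
  have hdvd : m ∣ Nat.card H := deg_dvd h hm
  have h1 := (Nat.factorization_le_iff_dvd hm0.ne' Nat.card_pos.ne').mpr hdvd p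
  have h2 := (Nat.factorization_le_iff_dvd Nat.card_pos.ne' Nat.card_pos.ne').mpr
    (Subgroup.card_subgroup_dvd_card H) p
  refine ⟨(Nat.card H).factorization p - m.factorization p, ?_, m, hm, by omega⟩
  rw [Finset.mem_range]
  omega

lemma defect_unique {H : Subgroup G} {χ : H → ℂ} {d d' : ℕ} (h : HasDefect p d χ)
    (h' : HasDefect p d' χ) : d = d' := by
  obtain ⟨m, hm, hd⟩ := h
  obtain ⟨m', hm', hd'⟩ := h'
  have h1 : m = m' := by
    rw [hm] at hm'
    exact_mod_cast hm'
  subst h1
  omega

lemma kLamAll_eq (lam : Z →* ℂˣ) (B : (G → F) → F) (H : Subgroup G) :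
    kLamAll red lam B H =
      ∑ d ∈ Finset.range ((Nat.card G).factorization p + 1), kProj p red lam B d H := by
  have hfin := finite_irr (H := H) (fun χ => Over lam χ ∧ Induces red B χ)
  unfold kLamAll
  rw [card_partition _ (fun d χ => HasDefect p d χ) _ hfin (fun χ h => exists_defect h.1)
    (fun χ d d' _ h h' => defect_unique h h')]
  refine Finset.sum_congr rfl fun d _ => ?_
  unfold kProj
  refine Nat.card_congr (Equiv.subtypeEquivRight fun χ => ?_)
  tauto

lemma kAllB_eq (B : (G → F) → F) (H : Subgroup G) :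
    kAllB red B H =
      ∑ d ∈ Finset.range ((Nat.card G).factorization p + 1), kOrd p red B d H := by
  have hfin := finite_irr (H := H) (fun χ => Induces red B χ)
  unfold kAllB
  rw [card_partition _ (fun d χ => HasDefect p d χ) _ hfin (fun χ h => exists_defect h.1)
    (fun χ d d' _ h h' => defect_unique h h')]
  refine Finset.sum_congr rfl fun d _ => ?_
  unfold kOrd
  refine Nat.card_congr (Equiv.subtypeEquivRight fun χ => ?_)
  tauto

lemma altAbove_zero_of' {f : Subgroup G → ℤ}
    (h : ∀ σ, IsChainAbove p A σ → f (chainStabilizer σ) = 0) : altAbove p A f = 0 := by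
  have h1 : altAbove p A f = altAbove p A (fun _ : Subgroup G => 0) := altAbove_congr h
  rw [h1]
  unfold altAbove
  simp

theorem sum_off (hA : A ≤ Subgroup.center G) (hpA : IsPGroup p A)
    (f : ((G → F) → F) → ℕ → Subgroup G → ℕ)
    (hf : ∀ B d H, f B d H ≠ 0 → ∃ χ : H → ℂ, IsIrrChar χ ∧ HasDefect p d χ ∧ Induces red B χ) :
    (∀ B, ∑ d ∈ Finset.Ioc ((Nat.card A).factorization p) ((Nat.card G).factorization p),
      altAbove p A (fun H => (f B d H : ℤ)) = 0) ↔
      ∀ B : (G → F) → F, IsBlock B → AboveDefect p A B →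
        altAbove p A (fun H => ((∑ d ∈ Finset.range ((Nat.card G).factorization p + 1),
          f B d H : ℕ) : ℤ)) = 0 := by
  have hsplit : ∀ B : (G → F) → F, AboveDefect p A B →
      altAbove p A (fun H => ((∑ d ∈ Finset.range ((Nat.card G).factorization p + 1),
          f B d H : ℕ) : ℤ)) =
        ∑ d ∈ Finset.Ioc ((Nat.card A).factorization p) ((Nat.card G).factorization p),
          altAbove p A (fun H => (f B d H : ℤ)) := by
    intro B hab
    push_cast
    rw [altAbove_sum]
    symm
    apply Finset.sum_subset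
    · intro d hd
      rw [Finset.mem_Ioc] at hd
      rw [Finset.mem_range]
      omega
    · intro d hd hd'
      rw [Finset.mem_range] at hd
      rw [Finset.mem_Ioc] at hd'
      have hda : d ≤ (Nat.card A).factorization p := by omega
      apply altAbove_zero_of'
      intro σ hσ
      by_contra hne
      obtain ⟨χ, h1, h2, h3⟩ := hf B d (chainStabilizer σ) (fun h0 => hne (by rw [h0]; rfl))
      exact small red hA hpA hσ h1 h2 hda h3 hab
  constructor
  · intro h B hB hab
    rw [hsplit B hab]
    exact h B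
  · intro h B
    by_cases hex : ∃ d, (Nat.card A).factorization p < d ∧ ∃ σ, IsChainAbove p A σ ∧
        f B d (chainStabilizer σ) ≠ 0
    · obtain ⟨d, hd, σ, hσ, hne⟩ := hex
      obtain ⟨χ, h1, h2, h3⟩ := hf B d _ hne
      have hB : IsBlock B := induces_block (p := p) red hσ.1 (fun P hP => (hσ.2 P hP).1) h1 h3
      have hab := aboveDefect hA hpA hB fun x hx => large red hA hσ h1 h2 hd h3 x hx
      rw [← hsplit B hab]
      exact h B hB hab
    · push Not at hex
      refine Finset.sum_eq_zero fun d hd => ?_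
      apply altAbove_zero_of'
      intro σ hσ
      rw [hex d (Finset.mem_Ioc.mp hd).1 σ hσ]
      rfl

/-- the sum of the projective numbers -/
def SP (p : ℕ) {F : Type} [Field F] (red : integralClosure ℤ ℂ →+* F) {G : Type} [Group G]
    (A : Subgroup G) {Z : Subgroup G} (lam : Z →* ℂˣ) (B : (G → F) → F) : ℤ :=
  ∑ d ∈ Finset.Ioc ((Nat.card A).factorization p) ((Nat.card G).factorization p),
    altAbove p A (fun H => (kProj p red lam B d H : ℤ))

/-- the sum of the ordinary numbers -/
def SO (p : ℕ) {F : Type} [Field F] (red : integralClosure ℤ ℂ →+* F) {G : Type} [Group G]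
    (A : Subgroup G) (B : (G → F) → F) : ℤ :=
  ∑ d ∈ Finset.Ioc ((Nat.card A).factorization p) ((Nat.card G).factorization p),
    altAbove p A (fun H => (kOrd p red B d H : ℤ))

lemma sumProj_iff (hZ : Z ≤ Subgroup.center G) (hS : IsSylowOf p A Z) :
    SumProj p red Z A ↔ ∀ (lam : Z →* ℂˣ) (B : (G → F) → F), SP p red A lam B = 0 := by
  refine forall_congr' fun lam => ?_
  have h := sum_off red (hS.le.trans hZ) hS.pgroup (fun B d H => kProj p red lam B d H)
    (fun B d H hne => kProj_ne red hne)
  unfold SP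
  rw [h]
  refine forall_congr' fun B => imp_congr_right fun _ => imp_congr_right fun _ => ?_
  simp only [kLamAll_eq (p := p) red]

lemma sumOrd_iff (hA : A ≤ Subgroup.center G) (hpA : IsPGroup p A) :
    SumOrd p red A ↔ ∀ B : (G → F) → F, SO p red A B = 0 := by
  have h := sum_off red hA hpA (fun B d H => kOrd p red B d H)
    (fun B d H hne => kOrd_ne red hne)
  unfold SO
  rw [h]
  refine forall_congr' fun B => imp_congr_right fun _ => imp_congr_right fun _ => ?_
  simp only [kAllB_eq (p := p) red]

/-! ### From `Z` to `A` -/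

lemma SP_split (hZ : Z ≤ Subgroup.center G) (hS : IsSylowOf p A Z) (lam : Z →* ℂˣ)
    (B : (G → F) → F) : SP p red A lam B =
      if ∀ z : Z, B (delta (z : G)) = redC red (lam z : ℂ) then
        SP p red A (lam.comp (Subgroup.inclusion hS.le)) B else 0 := by
  have h1 : ∀ d, altAbove p A (fun H => (kProj p red lam B d H : ℤ)) =
      altAbove p A (fun H => (if ∀ z : Z, B (delta (z : G)) = redC red (lam z : ℂ) then
        (kProj p red (lam.comp (Subgroup.inclusion hS.le)) B d H : ℤ) else 0)) := by
    intro d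
    apply altAbove_congr
    intro σ _
    rw [kProj_split red hZ hS lam B d (center_le_stab hZ σ)]
    split_ifs <;> rfl
  unfold SP
  rw [Finset.sum_congr rfl fun d _ => h1 d]
  split_ifs with hc
  · rfl
  · refine Finset.sum_eq_zero fun d _ => ?_
    unfold altAbove
    simp

lemma SP_A_of_Z (hZ : Z ≤ Subgroup.center G) (hS : IsSylowOf p A Z) {B : (G → F) → F}
    (h : ∀ lam : Z →* ℂˣ, SP p red A lam B = 0) (mu : A →* ℂˣ) : SP p red A mu B = 0 := by
  by_cases hex : ∃ d σ, IsChainAbove p A σ ∧ kProj p red mu B d (chainStabilizer σ) ≠ 0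
  · obtain ⟨d, σ, hσ, hne⟩ := hex
    have hex2 : ∃ χ : chainStabilizer σ → ℂ, IsIrrChar χ ∧ Over mu χ ∧ HasDefect p d χ ∧
        Induces red B χ := by
      by_contra hcon
      push Not at hcon
      apply hne
      unfold kProj
      have : IsEmpty {χ : chainStabilizer σ → ℂ // IsIrrChar χ ∧ Over mu χ ∧ HasDefect p d χ ∧
          Induces red B χ} :=
        ⟨fun χ => hcon χ.1 χ.2.1 χ.2.2.1 χ.2.2.2.1 χ.2.2.2.2⟩
      exact Nat.card_of_isEmpty
    obtain ⟨χ, h1, h2, h3, h4⟩ := hex2
    have hZσ := center_le_stab hZ σ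
    obtain ⟨lam, hlam⟩ := exists_over hZ hZσ h1
    have hc : ∀ z : Z, B (delta (z : G)) = redC red (lam z : ℂ) :=
      fun z => induces_val red hZ hZσ h1 hlam h4 z
    have hmu : lam.comp (Subgroup.inclusion hS.le) = mu :=
      over_unique (hS.le.trans hZσ) h1 (over_restrict hS.le hlam) h2
    have h5 := h lam
    rw [SP_split red hZ hS lam B, if_pos hc, hmu] at h5
    exact h5
  · push Not at hex
    unfold SP
    refine Finset.sum_eq_zero fun d _ => ?_
    apply altAbove_zero_of'
    intro σ hσ
    rw [hex d σ hσ]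
    rfl

/-! ### Quotients -/

section quot

variable {G' : Type} [Group G'] [Finite G'] (π : G →* G')

/-- the sum of the numbers given by the labels of the quotient -/
lemma sum_SP [Fintype (A →* ℂˣ)] (hπ : Function.Surjective π)
    (hA : A ≤ Subgroup.center G) (hpA : IsPGroup p A) (hY : π.ker ≤ A) (B : (G → F) → F) :
    (Nat.card G : ℤ) * ∑ lam ∈ Lam A π.ker, SP p red A lam B =
      (Nat.card π.ker : ℤ) * ((Nat.card G' : ℤ) * ∑ d' ∈ Finset.Ioc
        ((Nat.card (A.map π)).factorization p) ((Nat.card G').factorization p),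
          altAbove p (A.map π) (fun H =>
        (kGen red p ((fun t : (G → F) × F => (push π t.1, t.2)) '' (TB B)) ⊥ d' H : ℤ))) := by
  have hcard : (Nat.card A).factorization p = (Nat.card (A.map π)).factorization p +
      (Nat.card π.ker).factorization p := by
    rw [card_map π hY, Nat.factorization_mul Nat.card_pos.ne' Nat.card_pos.ne', Finsupp.add_apply,
      add_comm]
  have hcardG : (Nat.card G).factorization p = (Nat.card G').factorization p +
      (Nat.card π.ker).factorization p := by
    have h3 := card_map π (H := ⊤) le_top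
    rw [Subgroup.map_top_of_surjective π hπ, Subgroup.card_top, Subgroup.card_top] at h3
    rw [h3, Nat.factorization_mul Nat.card_pos.ne' Nat.card_pos.ne', Finsupp.add_apply, add_comm]
  unfold SP
  rw [Finset.sum_comm]
  have h1 : ∀ d, ∑ lam ∈ Lam A π.ker, altAbove p A (fun H => (kProj p red lam B d H : ℤ)) =
      altAbove p A (fun H => (kTriv red p π.ker B d H : ℤ)) :=
    fun d => (altAbove_kTriv red hA hY B d).symm
  rw [Finset.sum_congr rfl fun d _ => h1 d, hcard, hcardG, ← Finset.map_add_right_Ioc,
    Finset.sum_map, Finset.mul_sum, Finset.mul_sum, Finset.mul_sum]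
  refine Finset.sum_congr rfl fun d' _ => ?_
  exact quot_eq red π hπ hA hpA hY B d'

lemma SP_of_SO [Fintype (A →* ℂˣ)] (hπ : Function.Surjective π)
    (hA : A ≤ Subgroup.center G) (hpA : IsPGroup p A) (hY : π.ker ≤ A) (B : (G → F) → F)
    (h : ∀ β : (G' → F) → F, SO p red (A.map π) β = 0) :
    ∑ lam ∈ Lam A π.ker, SP p red A lam B = 0 := by
  have h1 := sum_SP red π hπ hA hpA hY B
  set T' : Set ((G' → F) × F) := (fun t : (G → F) × F => (push π t.1, t.2)) '' (TB B) with hT'def
  have hT' : ∀ t ∈ T', IsClassFun t.1 := by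
    rintro _ ⟨t, ht, rfl⟩
    exact push_class π hπ ht.1
  have h2 : ∑ d' ∈ Finset.Ioc ((Nat.card (A.map π)).factorization p)
      ((Nat.card G').factorization p), altAbove p (A.map π) (fun H =>
        (kGen red p T' ⊥ d' H : ℤ)) = 0 := by
    have h3 : ∀ d' : ℕ, altAbove p (A.map π) (fun H => (kGen red p T' ⊥ d' H : ℤ)) =
        ∑ β ∈ (RS_finite (G := G') red).toFinset.filter (fun β => ∀ t ∈ T', β t.1 = t.2),
          altAbove p (A.map π) (fun H => (kOrd p red β d' H : ℤ)) := by
      intro d'
      rw [← altAbove_sum]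
      congr 1
      funext H
      rw [kGen_sum red T' hT' d' H]
      push_cast
      rfl
    rw [Finset.sum_congr rfl fun d' _ => h3 d', Finset.sum_comm]
    exact Finset.sum_eq_zero fun β _ => h β
  rw [h2, mul_zero, mul_zero] at h1
  have h5 : (Nat.card G : ℤ) ≠ 0 := by exact_mod_cast Nat.card_pos.ne'
  exact (mul_eq_zero.mp h1).resolve_left h5

lemma SO_of_SP (hπ : Function.Surjective π)
    (hA : A ≤ Subgroup.center G) (hpA : IsPGroup p A) (hY : π.ker ≤ A)
    (h : ∀ (mu : A →* ℂˣ) (B : (G → F) → F), SP p red A mu B = 0) (β : (G' → F) → F) :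
    SO p red (A.map π) β = 0 := by
  by_cases hex : ∃ d σ, IsChainAbove p (A.map π) σ ∧ kOrd p red β d (chainStabilizer σ) ≠ 0
  · obtain ⟨d, σ, hσ, hne⟩ := hex
    obtain ⟨χ, h1, h2, h3⟩ := kOrd_ne red hne
    have hβ : IsBlock β := induces_block (p := p) red hσ.1 (fun P hP => (hσ.2 P hP).1) h1 h3
    have : Fintype (A →* ℂˣ) := Fintype.ofFinite _
    have h4 := sum_SP red π hπ hA hpA hY (fun f => β (push π f))
    rw [Finset.sum_eq_zero (fun mu _ => h mu _), mul_zero] at h4
    have h5 : ∀ d' : ℕ, altAbove p (A.map π) (fun H =>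
        (kGen red p ((fun t : (G → F) × F => (push π t.1, t.2)) '' (TB fun f => β (push π f))) ⊥ d' H
          : ℤ)) = altAbove p (A.map π) (fun H => (kOrd p red β d' H : ℤ)) := by
      intro d'
      apply altAbove_congr
      intro τ hτ
      rw [kOrd_push red π hπ (hY.trans hA) (hpA.to_le hY) hβ d' hτ]
    rw [Finset.sum_congr rfl fun d' _ => h5 d'] at h4
    have h6 : (Nat.card π.ker : ℤ) ≠ 0 := by exact_mod_cast Nat.card_pos.ne'
    have h7 : (Nat.card G' : ℤ) ≠ 0 := by exact_mod_cast Nat.card_pos.ne'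
    exact ((mul_eq_zero.mp ((mul_eq_zero.mp h4.symm).resolve_left h6)).resolve_left h7)
  · push Not at hex
    unfold SO
    refine Finset.sum_eq_zero fun d _ => ?_
    apply altAbove_zero_of'
    intro σ hσ
    rw [hex d σ hσ]
    rfl

end quot

/-- **Group by group.** -/
theorem sum_local (hZ : Z ≤ Subgroup.center G) (hS : IsSylowOf p A Z) :
    SumProj p red Z A ↔ ∀ Y : Subgroup G, Y ≤ A → ∀ _ : Y.Normal,
      SumOrd p red (A.map (QuotientGroup.mk' Y)) := by
  have hA := hS.le.trans hZ
  rw [sumProj_iff red hZ hS]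
  constructor
  · intro h Y hYA hY
    rw [sumOrd_iff red (map_center _ (QuotientGroup.mk'_surjective Y) hA) (hS.pgroup.map _)]
    exact SO_of_SP red (QuotientGroup.mk' Y) (QuotientGroup.mk'_surjective Y) hA hS.pgroup
      (by rw [QuotientGroup.ker_mk']; exact hYA)
      (fun mu B => SP_A_of_Z red hZ hS (fun lam => h lam B) mu)
  · intro h lam B
    rw [SP_split red hZ hS lam B]
    split_ifs
    swap
    · rfl
    have : Fintype (A →* ℂˣ) := Fintype.ofFinite _
    refine Pool.Agent.X209.NB.vanish (fun mu : A →* ℂˣ => SP p red A mu B) ?_ _ ?_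
    · intro mu nu hk
      simp only [SP, kProj_ker red hS.pgroup nu mu hk.symm B]
    · intro m
      set mu : A →* ℂˣ := (lam.comp (Subgroup.inclusion hS.le)) ^ m with hmu
      have hKA : kerG mu ≤ A := kerG_le _
      have hKn : (kerG mu).Normal := normal_of_center (hKA.trans hA)
      have h1 := SP_of_SO red (QuotientGroup.mk' (kerG mu)) (QuotientGroup.mk'_surjective _) hA
        hS.pgroup (by rw [QuotientGroup.ker_mk']; exact hKA) B
        ((sumOrd_iff red (map_center _ (QuotientGroup.mk'_surjective _) hA)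
          (hS.pgroup.map _)).mp (h (kerG mu) hKA hKn))
      rw [QuotientGroup.ker_mk'] at h1
      have h2 : Lam A (kerG mu) = LamW mu.ker := by
        ext nu
        rw [Lam, LamW, Finset.mem_filter, Finset.mem_filter]
        refine and_congr_right fun _ => ?_
        constructor
        · intro h3 a ha
          exact h3 a ((mem_kerG mu a).mpr ha)
        · intro h3 a ha
          exact h3 ((mem_kerG mu a).mp ha)
      rw [← h2]
      exact h1

end

end Pool.Agent.X209.PJ

/-! ### The global statement -/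

namespace Pool.Agent.X209.PJ

variable {p : ℕ} [hp : Fact p.Prime] {F : Type} [Field F] [CharP F p]
  (red : integralClosure ℤ ℂ →+* F)

theorem sum_global :
    (∀ (G : Type) [Group G] [Finite G] (Z A : Subgroup G), Z ≤ Subgroup.center G →
      IsSylowOf p A Z → SumProj p red Z A) ↔
    ∀ (G : Type) [Group G] [Finite G] (A : Subgroup G), A ≤ Subgroup.center G → IsCore p A →
      SumOrd p red A := by
  constructor
  · intro h G _ _ A hA hc
    have hS : IsSylowOf p A A := ⟨le_rfl, hc.pgroup, rfl⟩
    rw [sumOrd_iff red hA hc.pgroup]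
    intro β
    have h1 := SO_of_SP red (MonoidHom.id G) Function.surjective_id hA hc.pgroup
      (by rw [MonoidHom.ker_id]; exact bot_le)
      ((sumProj_iff red hA hS).mp (h G A A hA hS)) β
    rwa [Subgroup.map_id] at h1
  · intro h G _ _ Z A hZ hS
    rw [sum_local red hZ hS]
    intro Y hYA hY
    have hc := map_center (A := A) (QuotientGroup.mk' Y) (QuotientGroup.mk'_surjective Y)
      (hS.le.trans hZ)
    have hpA : IsPGroup p (A.map (QuotientGroup.mk' Y)) := hS.pgroup.map _
    by_cases hcore : IsCore p (A.map (QuotientGroup.mk' Y))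
    · exact h (G ⧸ Y) _ hc hcore
    · have hn : (A.map (QuotientGroup.mk' Y)).Normal := normal_of_center hc
      have h1 : ¬ ∀ N : Subgroup (G ⧸ Y), N.Normal → IsPGroup p N →
          N ≤ A.map (QuotientGroup.mk' Y) := fun h2 => hcore ⟨hpA, hn, h2⟩
      push Not at h1
      obtain ⟨N, hN, hpN, hNA⟩ := h1
      intro B _ _
      refine contraction hpA hpN hNA _ (fun g σ _ => ?_)
      rw [kAllB_eq (p := p) red, kAllB_eq (p := p) red]
      congr 1
      exact Finset.sum_congr rfl fun d _ => kOrd_conj red B d g _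

end Pool.Agent.X209.PJ
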