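import Pool.Agent.Y63.NV.Defs
import Pool.Agent.Helper884.IC.Compl

/-!
# Dade's projective conjecture: definitions
-/

open scoped Classical

noncomputable section

namespace Pool.Agent.X209.PJ

open Pool.Agent.Y63.KR (conjSub chainStabilizer conjSub_one conjSub_mul)
open Pool.Agent.Y63.NV (centralValue IsClassFun)
open Pool.Agent.Helper884.IC (IsIrrChar)

section defs

variable {G : Type} [Group G]

/-- `σ` is a chain of `p`-subgroups of `G` which contain `A` properly. It stands for the chain which
starts with `A` and continues with the members of `σ`. -/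
def IsChainAbove (p : ℕ) (A : Subgroup G) (σ : Set (Subgroup G)) : Prop :=
  IsChain (· ≤ ·) σ ∧ ∀ P ∈ σ, IsPGroup p P ∧ A < P

theorem above_equivalence (p : ℕ) (A : Subgroup G) :
    Equivalence (fun σ τ : {σ : Set (Subgroup G) // IsChainAbove p A σ} =>
      ∃ g : G, τ.1 = conjSub g '' σ.1) :=
  { refl := fun σ => ⟨1, by
      have : (conjSub (1 : G)) = id := funext conjSub_one
      rw [this, Set.image_id]⟩
    symm := by
      rintro σ τ ⟨g, hg⟩
      refine ⟨g⁻¹, ?_⟩
      rw [hg, ← Set.image_comp]
      have : conjSub g⁻¹ ∘ conjSub g = id := funext fun P => by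
        rw [Function.comp_apply, ← conjSub_mul, inv_mul_cancel, conjSub_one, id]
      rw [this, Set.image_id]
    trans := by
      rintro σ τ υ ⟨g, hg⟩ ⟨h, hh⟩
      refine ⟨h * g, ?_⟩
      rw [hh, hg, ← Set.image_comp]
      congr 1
      exact (funext fun P => conjSub_mul h g P).symm }

/-- Conjugacy of chains. -/
def aboveClass (p : ℕ) (A : Subgroup G) : Setoid {σ : Set (Subgroup G) // IsChainAbove p A σ} where
  r σ τ := ∃ g : G, τ.1 = conjSub g '' σ.1
  iseqv := above_equivalence p A

/-- The alternating sum `∑_σ (-1)^|σ| f(G_σ)` over representatives `σ` of the `G`-classes of the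
chains of `p`-subgroups starting with `A`, the chain of length zero included. -/
def altAbove (p : ℕ) (A : Subgroup G) (f : Subgroup G → ℤ) : ℤ :=
  ∑ᶠ c : Quotient (aboveClass p A), (-1) ^ c.out.1.ncard * f (chainStabilizer c.out.1)

/-- The character `χ` of `H` lies over the character `lam` of `A`. -/
def Over {A : Subgroup G} (lam : A →* ℂˣ) {H : Subgroup G} (χ : H → ℂ) : Prop :=
  ∀ (a : A) (x y : H), (y : G) = (a : G) * (x : G) → χ y = (lam a : ℂ) * χ x

/-- The character `χ` has `p`-defect `d`. -/
def HasDefect (p d : ℕ) {H : Type} [Group H] (χ : H → ℂ) : Prop :=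
  ∃ m : ℕ, χ 1 = (m : ℂ) ∧ m.factorization p + d = (Nat.card H).factorization p

/-- The block of the character `χ` of `H` induces the block (with the central character) `B` of
`G`. -/
def Induces {F : Type} [Field F] (red : integralClosure ℤ ℂ →+* F) (B : (G → F) → F)
    {H : Subgroup G} (χ : H → ℂ) : Prop :=
  ∀ f : G → F, IsClassFun f → centralValue red χ (fun x => f x) = B f

/-- `k^d(B_σ, λ)`: the number of the irreducible characters of `H = G_σ` of defect `d` which lie over
`lam` and in blocks which induce `B`. -/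
def kProj (p : ℕ) {F : Type} [Field F] (red : integralClosure ℤ ℂ →+* F) {A : Subgroup G}
    (lam : A →* ℂˣ) (B : (G → F) → F) (d : ℕ) (H : Subgroup G) : ℕ :=
  Nat.card {χ : H → ℂ // IsIrrChar χ ∧ Over lam χ ∧ HasDefect p d χ ∧ Induces red B χ}

/-- `k^d(B_σ)`: the number of the irreducible characters of `H = G_σ` of defect `d` in blocks which
induce `B`. -/
def kOrd (p : ℕ) {F : Type} [Field F] (red : integralClosure ℤ ℂ →+* F)
    (B : (G → F) → F) (d : ℕ) (H : Subgroup G) : ℕ :=
  Nat.card {χ : H → ℂ // IsIrrChar χ ∧ HasDefect p d χ ∧ Induces red B χ}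

end defs

end Pool.Agent.X209.PJ
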