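import Pool.Agent.Y824.NV.LQ
import Pool.Agent.Y705.NV.Schur
import Pool.Agent.Y63.NV.Cutw
import Pool.Agent.Y405.NV.Rinj

/-!
# Blocks and normal `p`-subgroups: only the centraliser contributes
-/

open scoped Classical BigOperators
open Pool.Agent.Y63.NV (IsClassFun IsBlock conv cut sum_cut)
open Pool.Agent.Y705.NV (opT opT_comm conv_classFun)

set_option linter.unusedSectionVars false
set_option linter.unusedVariables false

noncomputable section

namespace Pool.Agent.X209.PJ

section reg

variable {F : Type} [Field F] {J : Type} [Group J] [Fintype J]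

/-- the regular representation on functions -/
def regR : Representation F J (J → F) where
  toFun h :=
    { toFun := fun φ x => φ (h⁻¹ * x)
      map_add' := fun _ _ => rfl
      map_smul' := fun _ _ => rfl }
  map_one' := by
    ext φ x
    simp
  map_mul' g h := by
    refine LinearMap.ext fun φ => funext fun x => ?_
    change φ ((g * h)⁻¹ * x) = φ (h⁻¹ * (g⁻¹ * x))
    rw [mul_inv_rev, mul_assoc]

lemma regR_apply (h : J) (φ : J → F) (x : J) : (regR h : (J → F) →ₗ[F] (J → F)) φ x =
    φ (h⁻¹ * x) := rfl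

lemma opT_regR (u φ : J → F) : opT regR u φ = conv u φ := by
  funext x
  unfold opT conv
  rw [finsum_eq_sum_of_fintype, LinearMap.sum_apply, Finset.sum_apply]
  rfl

/-- on a nonzero eigenspace a central element which vanishes on the centraliser acts as zero -/
lemma eig_zero {p : ℕ} [hp : Fact p.Prime] [CharP F p] (Q : Subgroup J) [hQ : Q.Normal]
    (hpQ : IsPGroup p Q) {u : J → F} (hu : IsClassFun u)
    (h0 : ∀ x ∈ Subgroup.centralizer (Q : Set J), u x = 0) {c : F} {φ : J → F} (hφ : φ ≠ 0)
    (he : opT regR u φ = c • φ) : c = 0 := by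
  let W : Submodule F (J → F) := LinearMap.ker (opT regR u - c • (1 : Module.End F (J → F)))
  have hWmem : ∀ ψ, ψ ∈ W ↔ opT regR u ψ = c • ψ := by
    intro ψ
    rw [LinearMap.mem_ker, LinearMap.sub_apply, LinearMap.smul_apply, Module.End.one_apply,
      sub_eq_zero]
  have hWst : ∀ (q : J) (ψ : J → F), ψ ∈ W → regR q ψ ∈ W := by
    intro q ψ hψ
    rw [hWmem] at hψ ⊢
    have h1 : (opT regR u * regR q : Module.End F (J → F)) ψ =
        (regR q * opT regR u : Module.End F (J → F)) ψ := by
      rw [opT_comm regR hu q]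
    rw [Module.End.mul_apply, Module.End.mul_apply, hψ] at h1
    rw [h1, map_smul]
  let σ : Representation F Q W :=
    { toFun := fun q => (regR (q : J)).restrict (hWst q)
      map_one' := by
        refine LinearMap.ext fun w => Subtype.ext ?_
        change regR ((1 : Q) : J) w.1 = w.1
        rw [Subgroup.coe_one, map_one]
        rfl
      map_mul' := fun q r => by
        refine LinearMap.ext fun w => Subtype.ext ?_
        change regR ((q * r : Q) : J) w.1 = regR (q : J) (regR (r : J) w.1)
        rw [Subgroup.coe_mul, map_mul]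
        rfl }
  have hnt : Nontrivial W := by
    rw [Submodule.nontrivial_iff_ne_bot]
    intro h1
    have h2 : φ ∈ W := (hWmem φ).mpr he
    rw [h1] at h2
    exact hφ ((Submodule.mem_bot F).mp h2)
  obtain ⟨w, hw0, hw⟩ := Pool.Agent.Y824.NV.fixed_vector hpQ σ
  have hw1 : ∀ q ∈ Q, ∀ x : J, w.1 (q * x) = w.1 x := by
    intro q hq x
    have h1 := congrArg Subtype.val (hw ⟨q⁻¹, Q.inv_mem hq⟩)
    have h2 := congrFun h1 x
    have h3 : w.1 ((q⁻¹)⁻¹ * x) = w.1 x := h2
    rwa [inv_inv] at h3
  have h4 : opT regR u w.1 = 0 := by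
    rw [opT_regR]
    funext x
    unfold conv
    rw [finsum_eq_sum_of_fintype, sum_cut (p := p) Q hpQ (fun y => u y * w.1 (y⁻¹ * x))]
    · refine Finset.sum_eq_zero fun y _ => ?_
      split_ifs with hy
      · rw [h0 y hy, zero_mul]
      · rfl
    · intro r hr y
      rw [hu r y]
      congr 1
      have e1 : (r * y * r⁻¹)⁻¹ * x = r * ((y⁻¹ * r⁻¹ * y) * (y⁻¹ * x)) := by group
      rw [e1, hw1 r hr, hw1 (y⁻¹ * r⁻¹ * y)]
      have := hQ.conj_mem r⁻¹ (Q.inv_mem hr) y⁻¹
      rwa [inv_inv] at this
  have h5 := (hWmem w.1).mp w.2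
  rw [h4] at h5
  have h6 : w.1 ≠ 0 := fun h => hw0 (Subtype.ext h)
  exact (smul_eq_zero.mp h5.symm).resolve_right h6

theorem block_vanish {p : ℕ} [hp : Fact p.Prime] [CharP F p] (Q : Subgroup J) [hQ : Q.Normal]
    (hpQ : IsPGroup p Q) {b : (J → F) → F} (hb : IsBlock b) {u : J → F} (hu : IsClassFun u)
    (h0 : ∀ x ∈ Subgroup.centralizer (Q : Set J), u x = 0) : b u = 0 := by
  by_contra hne
  set c := b u with hc
  set S : Module.End F (J → F) := c • (1 : Module.End F (J → F)) - opT regR u with hS
  have hSv : ∀ φ, S φ = c • φ - conv u φ := by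
    intro φ
    rw [hS, LinearMap.sub_apply, LinearMap.smul_apply, Module.End.one_apply, opT_regR]
  by_cases hinj : Function.Injective S
  · have hsurj : Function.Surjective S := LinearMap.injective_iff_surjective.mp hinj
    obtain ⟨v, hv⟩ := hsurj (Pi.single 1 1)
    have hδ : IsClassFun (Pi.single 1 1 : J → F) := by
      have := Pool.Agent.Y405.NV.class_const (H := J) (1 : F)
      rwa [one_smul] at this
    have hvc : IsClassFun v := by
      intro h x
      have h1 : S (fun x => v (h * x * h⁻¹)) = S v := by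
        rw [hv]
        funext y
        have h2 := congrFun hv (h * y * h⁻¹)
        rw [hδ h y] at h2
        rw [← h2, hSv, hSv]
        simp only [Pi.sub_apply, Pi.smul_apply]
        congr 1
        unfold conv
        rw [finsum_eq_sum_of_fintype, finsum_eq_sum_of_fintype]
        refine Fintype.sum_equiv (MulAut.conj h).toEquiv _ _ fun g => ?_
        change u g * v (h * (g⁻¹ * y) * h⁻¹) =
          u (h * g * h⁻¹) * v ((h * g * h⁻¹)⁻¹ * (h * y * h⁻¹))
        rw [hu h g]
        congr 2
        group
      exact congrFun (hinj h1) x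
    have h3 : (Pi.single 1 1 : J → F) + conv u v = c • v := by
      rw [← hv, hSv, sub_add_cancel]
    have h4 := congrArg b h3
    rw [hb.add _ _ hδ (conv_classFun hu hvc), hb.smul c v hvc, hb.mul u v hu hvc, hb.one,
      ← hc] at h4
    exact one_ne_zero (add_eq_right.mp h4)
  · have h1 : ∃ φ : J → F, φ ≠ 0 ∧ S φ = 0 := by
      by_contra h2
      push Not at h2
      apply hinj
      rw [← LinearMap.ker_eq_bot, Submodule.eq_bot_iff]
      intro φ hφ
      by_contra h3
      exact h2 φ h3 hφ
    obtain ⟨φ, hφ0, hφ⟩ := h1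
    rw [hSv, sub_eq_zero] at hφ
    exact hne (eig_zero Q hpQ hu h0 hφ0 (by rw [opT_regR, hφ]))

end reg

/-- only the centraliser of a normal `p`-subgroup contributes -/
theorem block_cut {p : ℕ} [hp : Fact p.Prime] {F : Type} [Field F] [CharP F p] {J : Type}
    [Group J] [Finite J] (Q : Subgroup J) [hQ : Q.Normal]
    (hpQ : IsPGroup p Q) {b : (J → F) → F} (hb : IsBlock b) {u v : J → F} (hu : IsClassFun u)
    (hv : IsClassFun v) (h0 : ∀ x ∈ Subgroup.centralizer (Q : Set J), u x = v x) : b u = b v := by
  have : Fintype J := Fintype.ofFinite J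
  have hw : IsClassFun (fun x => u x + (-1 : F) * v x) := by
    intro g x
    simp only [hu g x, hv g x]
  have h1 := block_vanish Q hpQ hb hw (fun x hx => by rw [h0 x hx]; ring)
  have hv' : IsClassFun ((-1 : F) • v) := fun g x => by
    simp only [Pi.smul_apply, hv g x]
  have h2 : (fun x => u x + (-1 : F) * v x) = u + (-1 : F) • v := rfl
  rw [h2, hb.add _ _ hu hv', hb.smul _ _ hv, neg_one_mul, ← sub_eq_add_neg, sub_eq_zero] at h1
  exact h1

end Pool.Agent.X209.PJ
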