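import Pool.Agent.X209.PJ.Faith

/-!
# Characters of central defect: the general case
-/

open scoped Classical BigOperators
open Pool.Agent.Y63.NV (IsClassFun IsBlock redC centralValue)
open Pool.Agent.Helper884.IC
open Pool.Agent.Y63.AWC (one_ne deg_nat isIntegral_char)
open Pool.Agent.Y930.NV (redC_mul redC_sum redC_of redC_zero redC_intCast redC_one)

set_option linter.unusedSectionVars false
set_option linter.unusedVariables false

noncomputable section

namespace Pool.Agent.X209.PJ

variable {p : ℕ} [hp : Fact p.Prime] {F : Type} [Field F] [CharP F p]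
  (red : integralClosure ℤ ℂ →+* F) {J : Type} [Group J] [Finite J] {A : Subgroup J}

theorem cend (hA : A ≤ Subgroup.center J) (hpA : IsPGroup p A) {χ : J → ℂ} (h : IsIrrChar χ)
    {m : ℕ} (hm : χ 1 = (m : ℂ))
    (hd : (Nat.card J).factorization p ≤ m.factorization p + (Nat.card A).factorization p) :
    ∃ x : J, centralValue red χ (fun y => if IsConj x y then (1 : F) else 0) ≠ 0 ∧
      (Nat.card (Subgroup.centralizer ({x} : Set J))).factorization p ≤
        (Nat.card A).factorization p := by
  -- the kernel
  have hcen : ∀ z ∈ A, ∀ y : J, χ (z * y) = χ z / χ 1 * χ y := by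
    intro z hz y
    exact central_char h (fun g => (Subgroup.mem_center_iff.mp (hA hz) g).symm) y
  have h0 : χ 1 ≠ 0 := one_ne h
  let K : Subgroup J :=
    { carrier := {z | z ∈ A ∧ χ z = χ 1}
      one_mem' := ⟨A.one_mem, rfl⟩
      mul_mem' := by
        rintro y z ⟨h1, h2⟩ ⟨h3, h4⟩
        refine ⟨A.mul_mem h1 h3, ?_⟩
        rw [hcen y h1, h2, div_self h0, one_mul, h4]
      inv_mem' := by
        rintro z ⟨h1, h2⟩
        refine ⟨A.inv_mem h1, ?_⟩
        have h3 := hcen z h1 z⁻¹
        rw [mul_inv_cancel, h2, div_self h0, one_mul] at h3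
        exact h3.symm }
  have hK : ∀ z, z ∈ K ↔ z ∈ A ∧ χ z = χ 1 := fun z => Iff.rfl
  have hKA : K ≤ A := fun z hz => ((hK z).mp hz).1
  have hKn : K.Normal := normal_of_center (hKA.trans hA)
  obtain ⟨χ', h1, h2⟩ := Pool.Agent.Y63.NV.deflate K h (by
    intro q hq x
    rw [hcen q (hKA hq), ((hK q).mp hq).2, div_self h0, one_mul])
  set π : J →* J ⧸ K := QuotientGroup.mk' K with hπdef
  have hπ : Function.Surjective π := QuotientGroup.mk'_surjective K
  have hker : π.ker = K := QuotientGroup.ker_mk' K
  have h2' : ∀ x, χ x = χ' (π x) := h2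
  have hA' : A.map π ≤ Subgroup.center (J ⧸ K) := map_center π hπ hA
  have hf' : ∀ z ∈ A.map π, χ' z = χ' 1 → z = 1 := by
    rintro _ ⟨z, hz, rfl⟩ h3
    have h4 : χ' (π z) = χ' (π 1) := by rw [map_one]; exact h3
    rw [← h2', ← h2'] at h4
    have h5 : z ∈ K := (hK z).mpr ⟨hz, h4⟩
    rw [← hker] at h5
    exact h5
  have hm' : χ' 1 = (m : ℂ) := by
    have h3 := h2' 1
    rw [map_one] at h3
    rw [← h3, hm]
  have hcJ : (Nat.card J).factorization p = (Nat.card K).factorization p +
      (Nat.card (J ⧸ K)).factorization p := by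
    have h3 := Subgroup.card_eq_card_quotient_mul_card_subgroup K
    rw [h3, Nat.factorization_mul Nat.card_pos.ne' Nat.card_pos.ne', Finsupp.add_apply, add_comm]
  have hcA : (Nat.card A).factorization p = (Nat.card K).factorization p +
      (Nat.card (A.map π)).factorization p := by
    rw [card_map π (by rw [hker]; exact hKA), Nat.factorization_mul Nat.card_pos.ne'
      Nat.card_pos.ne', Finsupp.add_apply, hker]
  obtain ⟨x', h3, h4⟩ := faith (p := p) red hA' h1 hf' hm' (by omega)
  obtain ⟨x, rfl⟩ := hπ x'
  -- the class sizes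
  have hle : Subgroup.centralizer ({x} : Set J) ≤
      (Subgroup.centralizer ({π x} : Set (J ⧸ K))).comap π := by
    intro y hy
    rw [Subgroup.mem_comap, Subgroup.mem_centralizer_iff]
    intro z hz
    rw [Set.mem_singleton_iff.mp hz, ← map_mul, ← map_mul,
      Subgroup.mem_centralizer_iff.mp hy x rfl]
  have hq : (Subgroup.centralizer ({x} : Set J)).relIndex
      ((Subgroup.centralizer ({π x} : Set (J ⧸ K))).comap π) * cl (π x) = cl x := by
    have h5 := Subgroup.relIndex_mul_index hle
    rw [Subgroup.index_comap_of_surjective _ hπ] at h5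
    exact h5
  set q := (Subgroup.centralizer ({x} : Set J)).relIndex
      ((Subgroup.centralizer ({π x} : Set (J ⧸ K))).comap π) with hqdef
  have hq0 : q ≠ 0 := by
    intro h5
    rw [h5, zero_mul] at hq
    exact cl_ne x hq.symm
  have h5 := fact_cl (p := p) x
  have h6 := fact_cl (p := p) (π x)
  have h7 : (cl x).factorization p = q.factorization p + (cl (π x)).factorization p := by
    rw [← hq, Nat.factorization_mul hq0 (cl_ne _), Finsupp.add_apply]
  have hAx : A ≤ Subgroup.centralizer ({x} : Set J) := by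
    intro z hz
    rw [Subgroup.mem_centralizer_iff]
    intro y hy
    exact Subgroup.mem_center_iff.mp (hA hz) y
  have h8 : (Nat.card A).factorization p ≤
      (Nat.card (Subgroup.centralizer ({x} : Set J))).factorization p :=
    (Nat.factorization_le_iff_dvd Nat.card_pos.ne' Nat.card_pos.ne').mpr
      (Subgroup.card_dvd_of_le hAx) p
  have hqp : q.factorization p = 0 := by omega
  have hqF : (q : F) ≠ 0 := by
    rw [Ne, CharP.cast_eq_zero_iff F p]
    intro h9
    have := hp.out.factorization_pos_of_dvd hq0 h9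
    omega
  refine ⟨x, ?_, by omega⟩
  rw [cv_class red h]
  have h10 : (cl x : ℂ) * χ x / χ 1 = (q : ℂ) * ((cl (π x) : ℂ) * χ' (π x) / χ' 1) := by
    rw [← hq, h2' x, hm, hm']
    push_cast
    ring
  rw [h10, redC_mul red (int_nat _) (int_class h1 _), redC_nat]
  exact mul_ne_zero hqF h3

/-- a character of defect larger than the central defect -/
theorem defect_le {χ : J → ℂ} (h : IsIrrChar χ) {d : ℕ} (hd : HasDefect p d χ) {x : J}
    (hx : centralValue red χ (fun y => if IsConj x y then (1 : F) else 0) ≠ 0) :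
    d ≤ (Nat.card (Subgroup.centralizer ({x} : Set J))).factorization p := by
  have : Fintype J := Fintype.ofFinite J
  obtain ⟨m, hm, hmd⟩ := hd
  by_contra hlt
  push Not at hlt
  have h5 := fact_cl (p := p) x
  have h0 : χ 1 ≠ 0 := one_ne h
  have hm0 : m ≠ 0 := by
    rintro rfl
    rw [hm, Nat.cast_zero] at h0
    exact h0 rfl
  have hm1 : (m : ℂ) ≠ 0 := by exact_mod_cast hm0
  apply hx
  rw [cv_class red h]
  refine red_zero (p := p) red (N1 := cl x) (N2 := m) (cl_ne x) hm0 (by omega)
    (isIntegral_char h x) (int_class h x) ?_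
  rw [hm]
  field_simp

end Pool.Agent.X209.PJ
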