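import Pool.Agent.X209.PJ.Ind

/-!
# Values at class sums, and characters of central defect
-/

open scoped Classical BigOperators
open Pool.Agent.Y63.NV (IsClassFun IsBlock redC centralValue)
open Pool.Agent.Helper884.IC
open Pool.Agent.Y63.AWC (one_ne deg_nat isIntegral_char)
open Pool.Agent.Y930.NV (redC_mul redC_sum redC_of redC_zero redC_intCast redC_one om om_int om_ind)

set_option linter.unusedSectionVars false
set_option linter.unusedVariables false

noncomputable section

namespace Pool.Agent.X209.PJ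

section cls

variable {J : Type} [Group J] [Finite J]

/-- the size of the class of `x` -/
def cl (x : J) : ℕ := (Subgroup.centralizer ({x} : Set J)).index

lemma cl_card (x : J) : cl x * Nat.card (Subgroup.centralizer ({x} : Set J)) = Nat.card J := by
  unfold cl
  rw [mul_comm]
  exact Subgroup.card_mul_index _

lemma cl_ne (x : J) : cl x ≠ 0 := Subgroup.index_ne_zero_of_finite

lemma card_cls (x : J) : Nat.card {y : J // IsConj x y} = cl x := by
  have h1 := MulAction.index_stabilizer (ConjAct J) x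
  have h2 := Subgroup.nat_card_centralizer_nat_card_stabilizer x
  have h3 := (MulAction.stabilizer (ConjAct J) x).card_mul_index
  have h4 := cl_card x
  have h5 : Nat.card (ConjAct J) = Nat.card J := Nat.card_congr ConjAct.ofConjAct.toEquiv
  rw [h5, ← h2] at h3
  have h6 : (MulAction.orbit (ConjAct J) x).ncard = Nat.card {y : J // IsConj x y} := by
    rw [← Nat.card_coe_set_eq]
    refine Nat.card_congr (Equiv.subtypeEquivRight fun y => ?_)
    rw [ConjAct.mem_orbit_conjAct]
    exact ⟨fun h => h.symm, fun h => h.symm⟩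
  have h7 : 0 < Nat.card (Subgroup.centralizer ({x} : Set J)) := Nat.card_pos
  rw [← h6, ← h1]
  apply Nat.eq_of_mul_eq_mul_left h7
  rw [h3, ← h4, mul_comm]

lemma card_carrier (x : J) : Nat.card (ConjClasses.mk x).carrier = cl x := by
  rw [← card_cls]
  refine Nat.card_congr (Equiv.subtypeEquivRight fun y => ?_)
  rw [ConjClasses.mem_carrier_iff_mk_eq, ConjClasses.mk_eq_mk_iff_isConj, isConj_comm]

lemma out_conj (x : J) : IsConj x (ConjClasses.mk x).out := by
  have h1 : ConjClasses.mk (ConjClasses.mk x).out = ConjClasses.mk x := Quotient.out_eq _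
  rw [ConjClasses.mk_eq_mk_iff_isConj] at h1
  exact h1.symm

lemma irr_conj {χ : J → ℂ} (h : IsIrrChar χ) {x y : J} (hxy : IsConj x y) : χ x = χ y := by
  have : Fintype J := Fintype.ofFinite J
  obtain ⟨c, hc⟩ := isConj_iff.mp hxy
  rw [← hc, h.isClass x c]

lemma int_class {χ : J → ℂ} (h : IsIrrChar χ) (x : J) :
    IsIntegral ℤ ((cl x : ℂ) * χ x / χ 1) := by
  have : Fintype J := Fintype.ofFinite J
  have h1 := om_int h (Pool.Agent.Y930.NV.Cf_ind ℤ (ConjClasses.mk x))
  rw [Pool.Agent.Y930.NV.ind_cast, om_ind χ (Pool.Agent.Y930.NV.irr_Cf h), card_carrier,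
    ← irr_conj h (out_conj x)] at h1
  exact h1

variable {F : Type} [Field F] (red : integralClosure ℤ ℂ →+* F)

theorem cv_class {χ : J → ℂ} (h : IsIrrChar χ) (x : J) :
    centralValue red χ (fun y => if IsConj x y then (1 : F) else 0) =
      redC red ((cl x : ℂ) * χ x / χ 1) := by
  unfold centralValue
  rw [finsum_eq_single _ (ConjClasses.mk x)]
  · have e1 : (if IsConj x (ConjClasses.mk x).out then (1 : F) else 0) = 1 := if_pos (out_conj x)
    refine (congrArg (fun a : F => a * redC red
      ((Nat.card (ConjClasses.mk x).carrier : ℂ) * χ (ConjClasses.mk x).out / χ 1)) e1).trans ?_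
    simp only [one_mul]
    rw [card_carrier, ← irr_conj h (out_conj x)]
  · intro C hC
    have h1 : ¬ IsConj x (C.out : J) := by
      intro h2
      apply hC
      have h3 : ConjClasses.mk x = ConjClasses.mk C.out := ConjClasses.mk_eq_mk_iff_isConj.mpr h2
      rw [h3]
      exact (Quotient.out_eq C).symm
    have e1 : (if IsConj x (C.out : J) then (1 : F) else 0) = 0 := if_neg h1
    exact (congrArg (fun a : F => a * redC red
      ((Nat.card C.carrier : ℂ) * χ C.out / χ 1)) e1).trans (zero_mul _)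

end cls

section red

variable {p : ℕ} [hp : Fact p.Prime] {F : Type} [Field F] [CharP F p]
  (red : integralClosure ℤ ℂ →+* F)

lemma redC_nat (n : ℕ) : redC red (n : ℂ) = (n : F) := by
  have := redC_intCast red (n : ℤ)
  simpa using this

lemma int_nat (n : ℕ) : IsIntegral ℤ (n : ℂ) := by
  have := Pool.Agent.Y930.NV.int_intCast (n : ℤ)
  simpa using this

lemma cancel {N1 N2 : ℕ} (h1 : N1 ≠ 0) (h2 : N2 ≠ 0) (hv : N2.factorization p ≤ N1.factorization p)
    {T S : ℂ} (h : (N1 : ℂ) * T = N2 * S) :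
    ((p ^ (N1.factorization p - N2.factorization p) * (N1 / p ^ N1.factorization p) : ℕ) : ℂ) * T =
      ((N2 / p ^ N2.factorization p : ℕ) : ℂ) * S := by
  have hp0 : ((p ^ N2.factorization p : ℕ) : ℂ) ≠ 0 := by
    exact_mod_cast pow_ne_zero _ hp.out.ne_zero
  apply mul_left_cancel₀ hp0
  have e1 : p ^ N1.factorization p * (N1 / p ^ N1.factorization p) = N1 :=
    Nat.ordProj_mul_ordCompl_eq_self N1 p
  have e2 : p ^ N2.factorization p * (N2 / p ^ N2.factorization p) = N2 :=
    Nat.ordProj_mul_ordCompl_eq_self N2 p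
  have e3 : p ^ N2.factorization p * (p ^ (N1.factorization p - N2.factorization p) *
      (N1 / p ^ N1.factorization p)) = N1 := by
    rw [← mul_assoc, ← pow_add, Nat.add_sub_cancel' hv, e1]
  rw [← mul_assoc, ← mul_assoc, ← Nat.cast_mul, ← Nat.cast_mul, e3, e2, h]

lemma compl_ne {N : ℕ} (h : N ≠ 0) : ((N / p ^ N.factorization p : ℕ) : F) ≠ 0 := by
  rw [Ne, CharP.cast_eq_zero_iff F p]
  exact Nat.not_dvd_ordCompl hp.out h

lemma red_unit {N1 N2 : ℕ} (h1 : N1 ≠ 0) (h2 : N2 ≠ 0)
    (hv : N2.factorization p ≤ N1.factorization p) {T S : ℂ} (hT : IsIntegral ℤ T)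
    (hS : IsIntegral ℤ S) (h : (N1 : ℂ) * T = N2 * S) (hS0 : redC red S ≠ 0) :
    redC red T ≠ 0 := by
  intro h0
  have h3 := congrArg (redC red) (cancel (p := p) h1 h2 hv h)
  rw [redC_mul red (int_nat _) hT, redC_mul red (int_nat _) hS, h0, mul_zero, redC_nat] at h3
  rcases mul_eq_zero.mp h3.symm with h4 | h4
  · exact compl_ne (F := F) h2 h4
  · exact hS0 h4

lemma red_zero {N1 N2 : ℕ} (h1 : N1 ≠ 0) (h2 : N2 ≠ 0)
    (hv : N2.factorization p < N1.factorization p) {T S : ℂ} (hT : IsIntegral ℤ T)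
    (hS : IsIntegral ℤ S) (h : (N1 : ℂ) * T = N2 * S) : redC red S = 0 := by
  have h3 := congrArg (redC red) (cancel (p := p) h1 h2 hv.le h)
  rw [redC_mul red (int_nat _) hT, redC_mul red (int_nat _) hS, redC_nat, redC_nat] at h3
  have h4 : ((p ^ (N1.factorization p - N2.factorization p) * (N1 / p ^ N1.factorization p) : ℕ) : F)
      = 0 := by
    rw [Nat.cast_mul, Nat.cast_pow, CharP.cast_eq_zero, zero_pow (by omega), zero_mul]
  rw [h4, zero_mul] at h3
  exact (mul_eq_zero.mp h3.symm).resolve_left (compl_ne (F := F) h2)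

end red

end Pool.Agent.X209.PJ
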