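import Pool.Agent.X209.PJ.Orb

/-!
# Contraction
-/

open scoped Classical BigOperators
open Pool.Agent.Y63.KR

set_option linter.unusedSectionVars false
set_option linter.unusedVariables false

noncomputable section

namespace Pool.Agent.X209.PJ

variable {p : ℕ} {G : Type} [Group G] [Finite G] {A : Subgroup G}

lemma above_toggle [Fact p.Prime] {U : Subgroup G} [hUn : U.Normal] (hU : IsPGroup p U)
    (hAU : A < U) {σ : Set (Subgroup G)} (h : IsChainAbove p A σ) :
    IsChainAbove p A (toggle U σ) ∧ chainStabilizer σ ≤ chainStabilizer (toggle U σ) := by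
  have hL := lower_cases h.1 U
  have hLp : IsPGroup p (lower U σ) := by
    rcases hL with h1 | h1
    · rw [h1]; exact IsPGroup.of_bot
    · exact (h.2 _ h1.1).1
  have hTp : IsPGroup p (toggled U σ) := IsPGroup.to_sup_of_normal_right hLp hU
  have hAT : A < toggled U σ := lt_of_lt_of_le hAU (le_toggled U σ)
  have hLK : ∀ x ∈ chainStabilizer σ, conjSub x (lower U σ) = lower U σ := by
    intro x hx
    rcases hL with h1 | h1
    · rw [h1]
      exact conj_normal x
    · exact mem_chainStabilizer.mp hx _ h1.1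
  have hTK : ∀ x ∈ chainStabilizer σ, conjSub x (toggled U σ) = toggled U σ := by
    intro x hx
    unfold toggled
    have : conjSub x (lower U σ ⊔ U) = conjSub x (lower U σ) ⊔ conjSub x U :=
      Subgroup.map_sup _ _ _
    rw [this, hLK x hx, conj_normal]
  by_cases hm : toggled U σ ∈ σ
  · have h1 : toggle U σ = σ \ {toggled U σ} := if_pos hm
    rw [h1]
    refine ⟨⟨h.1.mono Set.diff_subset, fun P hP => h.2 P hP.1⟩, ?_⟩
    intro x hx
    rw [mem_chainStabilizer] at hx ⊢
    exact fun P hP => hx P hP.1
  · have h1 : toggle U σ = insert (toggled U σ) σ := if_neg hm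
    rw [h1]
    refine ⟨⟨?_, ?_⟩, ?_⟩
    · refine h.1.insert fun P hP _ => ?_
      rcases comparable (U := U) h.1 hP with h2 | h2
      · exact Or.inr h2
      · exact Or.inl h2
    · rintro P (rfl | hP)
      · exact ⟨hTp, hAT⟩
      · exact h.2 P hP
    · intro x hx
      rw [mem_chainStabilizer]
      rintro P (rfl | hP)
      · exact hTK x hx
      · exact mem_chainStabilizer.mp hx P hP

/-- if there is a normal `p`-subgroup outside `A`, the alternating sums vanish -/
theorem contraction [Fact p.Prime] [hA : A.Normal] (hpA : IsPGroup p A) {N : Subgroup G}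
    [hN : N.Normal] (hpN : IsPGroup p N) (h : ¬ N ≤ A) (f : Subgroup G → ℤ)
    (hf : ∀ (g : G) (σ : Set (Subgroup G)), IsChainAbove p A σ →
      f (conjSub g (chainStabilizer σ)) = f (chainStabilizer σ)) : altAbove p A f = 0 := by
  have : Fintype {σ : Set (Subgroup G) // IsChainAbove p A σ} := Fintype.ofFinite _
  have hU : IsPGroup p (A ⊔ N : Subgroup G) := IsPGroup.to_sup_of_normal_left hpA hpN
  have hAU : A < A ⊔ N := lt_of_le_of_ne le_sup_left fun h1 => h (by
    have h2 : N ≤ A ⊔ N := le_sup_right
    rwa [← h1] at h2)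
  have hUn : (A ⊔ N : Subgroup G).Normal := inferInstance
  set U : Subgroup G := A ⊔ N with hUdef
  have hst : ∀ σ : {σ : Set (Subgroup G) // IsChainAbove p A σ},
      chainStabilizer (toggle U σ.1) = chainStabilizer σ.1 := by
    intro σ
    obtain ⟨h1, h2⟩ := above_toggle hU hAU σ.2
    obtain ⟨_, h3⟩ := above_toggle hU hAU h1
    rw [toggle_toggle] at h3
    exact le_antisymm h3 h2
  have h0 := card_mul_altAbove f hf
  have hG : (Nat.card G : ℤ) ≠ 0 := by exact_mod_cast Nat.card_pos.ne'
  have hsum : ∑ σ : {σ : Set (Subgroup G) // IsChainAbove p A σ},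
        (-1 : ℤ) ^ σ.1.ncard * ((Nat.card (chainStabilizer σ.1) : ℤ) * f (chainStabilizer σ.1)) = 0 := by
    refine Finset.sum_involution
      (fun σ _ => ⟨toggle U σ.1, (above_toggle hU hAU σ.2).1⟩) ?_ ?_ ?_ ?_
    · intro σ _
      change (-1 : ℤ) ^ σ.1.ncard * ((Nat.card (chainStabilizer σ.1) : ℤ) *
        f (chainStabilizer σ.1)) + (-1) ^ (toggle U σ.1).ncard *
        ((Nat.card (chainStabilizer (toggle U σ.1)) : ℤ) * f (chainStabilizer (toggle U σ.1))) = 0
      rw [ncard_toggle, hst]
      ring
    · intro σ _ _ h1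
      have h2 : toggle U σ.1 = σ.1 := congrArg Subtype.val h1
      have h3 := ncard_toggle U σ.1
      rw [h2] at h3
      have h4 : ((-1 : ℤ)) ^ σ.1.ncard ≠ 0 := pow_ne_zero _ (by norm_num)
      omega
    · intro σ _
      exact Finset.mem_univ _
    · intro σ _
      apply Subtype.ext
      exact toggle_toggle U σ.1
  rw [hsum] at h0
  exact (mul_eq_zero.mp h0).resolve_left hG

end Pool.Agent.X209.PJ
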