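import Pool.Agent.X209.PJ.Cls

/-!
# Characters of central defect
-/

open scoped Classical BigOperators
open Pool.Agent.Y63.NV (IsClassFun IsBlock redC centralValue)
open Pool.Agent.Helper884.IC
open Pool.Agent.Y63.AWC (one_ne deg_nat isIntegral_char)
open Pool.Agent.Y930.NV (redC_mul redC_sum redC_of redC_zero redC_intCast redC_one)

set_option linter.unusedSectionVars false
set_option linter.unusedVariables false

noncomputable section

namespace Pool.Agent.X209.PJ

variable {p : ℕ} [hp : Fact p.Prime] {F : Type} [Field F] [CharP F p]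
  (red : integralClosure ℤ ℂ →+* F) {J : Type} [Group J] [Finite J] {A : Subgroup J}

/-- conjugacy modulo `A` -/
def conjMod (hA : A ≤ Subgroup.center J) : Setoid J where
  r x y := ∃ z ∈ A, IsConj (z * x) y
  iseqv :=
    { refl := fun x => ⟨1, A.one_mem, by rw [one_mul]⟩
      symm := by
        rintro x y ⟨z, hz, hc⟩
        obtain ⟨g, hg⟩ := isConj_iff.mp hc
        refine ⟨z⁻¹, A.inv_mem hz, isConj_iff.mpr ⟨g⁻¹, ?_⟩⟩
        have h1 := Subgroup.mem_center_iff.mp (hA hz) g
        rw [← hg]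
        have h2 : g * (z * x) * g⁻¹ = z * (g * x * g⁻¹) := by
          rw [← mul_assoc g z x, h1]; group
        rw [h2, inv_mul_cancel_left]
        group
      trans := by
        rintro x y w ⟨z, hz, hc⟩ ⟨z', hz', hc'⟩
        obtain ⟨g, hg⟩ := isConj_iff.mp hc
        obtain ⟨g', hg'⟩ := isConj_iff.mp hc'
        refine ⟨z' * z, A.mul_mem hz' hz, isConj_iff.mpr ⟨g' * g, ?_⟩⟩
        have h1 := Subgroup.mem_center_iff.mp (hA hz') g
        rw [← hg', ← hg]
        have h2 : z' * (g * (z * x) * g⁻¹) = g * (z' * z * x) * g⁻¹ := by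
          calc z' * (g * (z * x) * g⁻¹) = (z' * g) * (z * x) * g⁻¹ := by group
            _ = (g * z') * (z * x) * g⁻¹ := by rw [h1]
            _ = g * (z' * z * x) * g⁻¹ := by group
        rw [h2]
        group }

omit hp in
lemma card_fibre (hA : A ≤ Subgroup.center J) {χ : J → ℂ} (h : IsIrrChar χ)
    (hf : ∀ z ∈ A, χ z = χ 1 → z = 1) {x : J} (hx : χ x ≠ 0) :
    Nat.card {y : J // (conjMod hA).r x y} = Nat.card A * cl x := by
  rw [← card_cls, ← Nat.card_prod]
  have h0 : χ 1 ≠ 0 := one_ne h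
  have hcen : ∀ z ∈ A, ∀ y : J, χ (z * y) = χ z / χ 1 * χ y := by
    intro z hz y
    exact central_char h (fun g => (Subgroup.mem_center_iff.mp (hA hz) g).symm) y
  symm
  refine Nat.card_eq_of_bijective (fun t : A × {y : J // IsConj x y} =>
    (⟨(t.1 : J) * t.2.1, t.1, t.1.2, ?_⟩ : {y : J // (conjMod hA).r x y})) ⟨?_, ?_⟩
  · obtain ⟨g, hg⟩ := isConj_iff.mp t.2.2
    refine isConj_iff.mpr ⟨g, ?_⟩
    have h1 := Subgroup.mem_center_iff.mp (hA t.1.2) g
    rw [← mul_assoc g, h1, ← hg]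
    group
  · rintro ⟨⟨z, hz⟩, ⟨y, hy⟩⟩ ⟨⟨z', hz'⟩, ⟨y', hy'⟩⟩ he
    have h1 : z * y = z' * y' := congrArg Subtype.val he
    have h2 : y' = (z'⁻¹ * z) * y := by
      rw [mul_assoc, h1, inv_mul_cancel_left]
    have hz2 : z'⁻¹ * z ∈ A := A.mul_mem (A.inv_mem hz') hz
    have h3 : χ y' = χ (z'⁻¹ * z) / χ 1 * χ y := by rw [h2, hcen _ hz2]
    rw [← irr_conj h hy', ← irr_conj h hy] at h3
    have h4 : χ (z'⁻¹ * z) / χ 1 = 1 := by
      have h5 : χ x * 1 = χ x * (χ (z'⁻¹ * z) / χ 1) := by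
        rw [mul_one, mul_comm (χ x) (χ (z'⁻¹ * z) / χ 1)]
        exact h3
      exact (mul_left_cancel₀ hx h5).symm
    have h5 : χ (z'⁻¹ * z) = χ 1 := by
      rw [div_eq_one_iff_eq h0] at h4
      exact h4
    have h6 := hf _ hz2 h5
    have h7 : z = z' := by
      rw [inv_mul_eq_one] at h6
      exact h6.symm
    subst h7
    have h8 : y = y' := mul_left_cancel h1
    subst h8
    rfl
  · rintro ⟨y, z, hz, hc⟩
    refine ⟨⟨⟨z, hz⟩, ⟨z⁻¹ * y, ?_⟩⟩, ?_⟩
    · obtain ⟨g, hg⟩ := isConj_iff.mp hc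
      refine isConj_iff.mpr ⟨g, ?_⟩
      have h1 := Subgroup.mem_center_iff.mp (hA hz) g
      rw [← hg, ← mul_assoc g z x, h1]
      group
    · apply Subtype.ext
      change z * (z⁻¹ * y) = y
      rw [mul_inv_cancel_left]

lemma fact_cl (x : J) : (cl x).factorization p +
    (Nat.card (Subgroup.centralizer ({x} : Set J))).factorization p =
      (Nat.card J).factorization p := by
  rw [← cl_card x, Nat.factorization_mul (cl_ne x) Nat.card_pos.ne', Finsupp.add_apply]

lemma cl_inv (x : J) : cl x⁻¹ = cl x := by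
  unfold cl
  congr 1
  ext y
  rw [Subgroup.mem_centralizer_iff, Subgroup.mem_centralizer_iff]
  constructor
  · intro h z hz
    rw [Set.mem_singleton_iff.mp hz]
    have h1 := h x⁻¹ rfl
    calc x * y = x * (y * x⁻¹) * x := by group
      _ = x * (x⁻¹ * y) * x := by rw [h1]
      _ = y * x := by group
  · intro h z hz
    rw [Set.mem_singleton_iff.mp hz]
    have h1 := h x rfl
    calc x⁻¹ * y = x⁻¹ * (y * x) * x⁻¹ := by group
      _ = x⁻¹ * (x * y) * x⁻¹ := by rw [h1]
      _ = y * x⁻¹ := by group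

theorem faith (hA : A ≤ Subgroup.center J) {χ : J → ℂ} (h : IsIrrChar χ)
    (hf : ∀ z ∈ A, χ z = χ 1 → z = 1) {m : ℕ} (hm : χ 1 = (m : ℂ))
    (hd : (Nat.card J).factorization p ≤ m.factorization p + (Nat.card A).factorization p) :
    ∃ x : J, redC red ((cl x : ℂ) * χ x / χ 1) ≠ 0 ∧
      (Nat.card (Subgroup.centralizer ({x} : Set J))).factorization p ≤
        (Nat.card A).factorization p := by
  have : Fintype J := Fintype.ofFinite J
  have h0 : χ 1 ≠ 0 := one_ne h
  have hm0 : m ≠ 0 := by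
    rintro rfl
    rw [hm, Nat.cast_zero] at h0
    exact h0 rfl
  have hcen : ∀ z ∈ A, ∀ y : J, χ (z * y) = χ z / χ 1 * χ y := by
    intro z hz y
    exact central_char h (fun g => (Subgroup.mem_center_iff.mp (hA hz) g).symm) y
  have hJ : ∑ x : J, χ x * χ x⁻¹ = (Nat.card J : ℂ) := by
    have h1 := B_irr h h
    rw [if_pos rfl] at h1
    unfold Pool.Agent.Helper884.IC.B at h1
    have h2 : (Nat.card J : ℂ) ≠ 0 := by exact_mod_cast Nat.card_pos.ne'
    field_simp at h1
    exact h1
  let s := conjMod hA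
  have : Fintype (Quotient s) := Fintype.ofFinite _
  -- the summand is constant on the classes
  have hconst : ∀ x y : J, s.r x y → χ x * χ x⁻¹ = χ y * χ y⁻¹ := by
    rintro x y ⟨z, hz, hc⟩
    have hz1 : (z * x)⁻¹ = z⁻¹ * x⁻¹ := by
      rw [mul_inv_rev]
      exact (Subgroup.mem_center_iff.mp (hA (A.inv_mem hz)) x⁻¹)
    have hc' : IsConj (z⁻¹ * x⁻¹) y⁻¹ := by
      obtain ⟨g, hg⟩ := isConj_iff.mp hc
      refine isConj_iff.mpr ⟨g, ?_⟩
      rw [← hz1, ← hg]
      group
    rw [← irr_conj h hc, ← irr_conj h hc', hcen z hz, hcen z⁻¹ (A.inv_mem hz)]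
    have h1 : χ z / χ 1 * (χ z⁻¹ / χ 1) = 1 := by
      have h2 := hcen z hz z⁻¹
      rw [mul_inv_cancel] at h2
      rw [mul_div_assoc', ← h2, div_self h0]
    calc χ x * χ x⁻¹ = (χ z / χ 1 * (χ z⁻¹ / χ 1)) * (χ x * χ x⁻¹) := by rw [h1, one_mul]
      _ = _ := by ring
  let t : Quotient s → ℂ := fun c => ((cl c.out : ℂ) * χ c.out / χ 1) * χ (c.out)⁻¹
  have ht : ∀ c, IsIntegral ℤ (t c) := fun c => (int_class h _).mul (isIntegral_char h _)
  have hsum : ((Nat.card A * m : ℕ) : ℂ) * ∑ c, t c = (Nat.card J : ℕ) * 1 := by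
    rw [mul_one, ← hJ, ← Finset.sum_fiberwise Finset.univ (Quotient.mk s) (fun x => χ x * χ x⁻¹),
      Finset.mul_sum]
    refine Finset.sum_congr rfl fun c _ => ?_
    have hrel : ∀ x : J, Quotient.mk s x = c ↔ s.r c.out x := by
      intro x
      constructor
      · intro h1
        have h2 : Quotient.mk s c.out = Quotient.mk s x := (Quotient.out_eq c).trans h1.symm
        exact Quotient.exact h2
      · intro h1
        exact (Quotient.sound h1).symm.trans (Quotient.out_eq c)
    have h1 : ∀ x ∈ Finset.univ.filter (fun x => Quotient.mk s x = c),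
        χ x * χ x⁻¹ = χ c.out * χ (c.out)⁻¹ := by
      intro x hx
      exact (hconst _ _ ((hrel x).mp (Finset.mem_filter.mp hx).2)).symm
    rw [Finset.sum_congr rfl h1, Finset.sum_const, nsmul_eq_mul]
    by_cases hx : χ c.out = 0
    · simp only [t, hx, zero_mul, mul_zero, zero_div]
    · have h2 : ((Finset.univ.filter (fun x => Quotient.mk s x = c)).card : ℕ) =
          Nat.card A * cl c.out := by
        rw [← card_fibre hA h hf hx, Nat.card_eq_fintype_card, Fintype.card_subtype]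
        congr 1
        ext x
        rw [Finset.mem_filter, Finset.mem_filter, hrel x]
      rw [h2]
      simp only [t]
      push_cast
      rw [hm]
      have hm1 : (m : ℂ) ≠ 0 := by exact_mod_cast hm0
      field_simp
  have h3 : redC red (∑ c, t c) ≠ 0 := by
    refine red_unit (p := p) red (mul_ne_zero Nat.card_pos.ne' hm0) Nat.card_pos.ne' ?_
      (IsIntegral.sum _ fun c _ => ht c) isIntegral_one hsum ?_
    · rw [Nat.factorization_mul Nat.card_pos.ne' hm0, Finsupp.add_apply]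
      omega
    · rw [redC_one]
      exact one_ne_zero
  rw [redC_sum red _ _ (fun c _ => ht c)] at h3
  obtain ⟨c, _, hc⟩ := Finset.exists_ne_zero_of_sum_ne_zero h3
  set x := c.out with hx
  have h4 : redC red (t c) = redC red ((cl x : ℂ) * χ x / χ 1) * redC red (χ x⁻¹) :=
    redC_mul red (int_class h _) (isIntegral_char h _)
  rw [h4] at hc
  refine ⟨x, left_ne_zero_of_mul hc, ?_⟩
  by_contra hlt
  push Not at hlt
  have h5 := fact_cl (p := p) x
  apply right_ne_zero_of_mul hc
  refine red_zero (p := p) red (N1 := m) (N2 := cl x) hm0 (cl_ne x) (by omega)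
    (int_class h x⁻¹) (isIntegral_char h x⁻¹) ?_
  rw [cl_inv, hm]
  have hm1 : (m : ℂ) ≠ 0 := by exact_mod_cast hm0
  field_simp

end Pool.Agent.X209.PJ
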