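import Pool.Agent.X209.PJ.Red
import Pool.Agent.X209.PJ.Defs

/-!
# Galois conjugation: the numbers only depend on the kernel of the character of `A`
-/

open scoped Classical BigOperators
open Pool.Agent.Helper884.IC Pool.Agent.Y63.AWC
open Pool.Agent.Y63.NV (redC centralValue IsClassFun)

set_option linter.unusedSectionVars false
set_option linter.unusedVariables false

noncomputable section

namespace Pool.Agent.X209.PJ

variable {p : ℕ} [hp : Fact p.Prime] {F : Type} [Field F] [CharP F p]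
  (red : integralClosure ℤ ℂ →+* F) {G : Type} [Group G] [Finite G] {A : Subgroup G}

lemma finite_irr {H : Type} [Group H] [Finite H] (P : (H → ℂ) → Prop) :
    Finite {χ : H → ℂ // IsIrrChar χ ∧ P χ} := by
  have : Fintype H := Fintype.ofFinite H
  have h1 : Finite {χ : H → ℂ // IsIrrChar χ} := (irr_finite (G := H)).to_subtype
  exact Finite.of_injective (fun χ : {χ : H → ℂ // IsIrrChar χ ∧ P χ} =>
    (⟨χ.1, χ.2.1⟩ : {χ : H → ℂ // IsIrrChar χ})) (fun χ ψ h => Subtype.ext (congrArg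
      (fun x : {χ : H → ℂ // IsIrrChar χ} => x.1) h))

lemma hom_pow_one (mu : A →* ℂˣ) : mu ^ 1 = mu := by
  ext a
  rw [MonoidHom.pow_apply, pow_one]

lemma hom_pow_mul (mu : A →* ℂˣ) (i j : ℕ) : mu ^ (i * j) = (mu ^ i) ^ j := by
  ext a
  rw [MonoidHom.pow_apply, MonoidHom.pow_apply, MonoidHom.pow_apply, pow_mul]

/-- one inequality -/
lemma kProj_le {k : ℕ} {ζ : ℂ} {τ : ℂ →+* ℂ} (h : Gal p (Nat.card G) k ζ τ) (lam : A →* ℂˣ)
    (B : (G → F) → F) (d : ℕ) (H : Subgroup G) :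
    kProj p red lam B d H ≤ kProj p red (lam ^ k) B d H := by
  have : Fintype H := Fintype.ofFinite H
  unfold kProj
  have hfin := finite_irr (H := H) (fun χ => Over (lam ^ k) χ ∧ HasDefect p d χ ∧ Induces red B χ)
  refine Nat.card_le_card_of_injective (fun χ => ⟨fun x => τ (χ.1 x), ?_⟩) ?_
  · obtain ⟨χ, h1, h2, h3, h4⟩ := χ
    refine ⟨irr_twist τ h1, ?_, ?_, ?_⟩
    · intro a x y hxy
      have h5 := h2 a x y hxy
      have h6 : ((lam a : ℂˣ) : ℂ) ^ Nat.card G = 1 := by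
        rw [← Units.val_pow_eq_pow_val, ← map_pow]
        have h7 : a ^ Nat.card G = 1 := by
          apply Subtype.ext
          rw [SubmonoidClass.coe_pow]
          exact pow_card_eq_one'
        rw [h7, map_one, Units.val_one]
      change τ (χ y) = (((lam ^ k) a : ℂˣ) : ℂ) * τ (χ x)
      rw [h5, map_mul, h.pow h6, MonoidHom.pow_apply, Units.val_pow_eq_pow_val]
    · obtain ⟨m, h5, h6⟩ := h3
      exact ⟨m, by change τ (χ 1) = _; rw [h5, map_natCast], h6⟩
    · intro f hf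
      have hJ : ∀ g : H, g ^ Nat.card G = 1 := by
        intro g
        apply Subtype.ext
        rw [SubmonoidClass.coe_pow]
        exact pow_card_eq_one'
      rw [h.central red hJ h1, h4 f hf]
  · intro χ ψ hχψ
    apply Subtype.ext
    funext x
    have h1 := congrFun (congrArg Subtype.val hχψ) x
    exact τ.injective h1

/-- invariance under Galois conjugation -/
theorem kProj_pow {k : ℕ} {ζ : ℂ} {τ : ℂ →+* ℂ} (h : Gal p (Nat.card G) k ζ τ)
    (hk : Nat.Coprime k (Nat.card G)) (lam : A →* ℂˣ)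
    (B : (G → F) → F) (d : ℕ) (H : Subgroup G) :
    kProj p red (lam ^ k) B d H = kProj p red lam B d H := by
  apply le_antisymm _ (kProj_le red h lam B d H)
  have h1 : ∀ i : ℕ, ∀ mu : A →* ℂˣ, kProj p red mu B d H ≤ kProj p red (mu ^ k ^ i) B d H := by
    intro i
    induction i with
    | zero =>
      intro mu
      rw [pow_zero, hom_pow_one]
    | succ i ih =>
      intro mu
      refine (ih mu).trans ?_
      rw [pow_succ, hom_pow_mul]
      exact kProj_le red h _ B d H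
  have hφ : 0 < Nat.totient (Nat.card G) := Nat.totient_pos.mpr Nat.card_pos
  obtain ⟨t, ht⟩ := Nat.exists_eq_succ_of_ne_zero hφ.ne'
  have h2 := h1 t (lam ^ k)
  have h3 : (lam ^ k) ^ k ^ t = lam := by
    rw [← hom_pow_mul, ← pow_succ', show t + 1 = Nat.totient (Nat.card G) from ht.symm]
    have h4 := Nat.ModEq.pow_totient hk
    ext a
    rw [MonoidHom.pow_apply]
    congr 1
    have h5 : (lam a) ^ Nat.card G = 1 := by
      rw [← map_pow]
      have h7 : a ^ Nat.card G = 1 := by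
        apply Subtype.ext
        rw [SubmonoidClass.coe_pow]
        exact pow_card_eq_one'
      rw [h7, map_one]
    have h6 : k ^ Nat.totient (Nat.card G) ≡ 1 [MOD orderOf (lam a)] :=
      h4.of_dvd (orderOf_dvd_of_pow_eq_one h5)
    have h7 := pow_eq_pow_iff_modEq.mpr h6
    rwa [pow_one] at h7
  rwa [h3] at h2

/-- characters of a `p`-group with the same kernel are Galois conjugate -/
theorem exists_gal (hA : IsPGroup p A) (lam mu : A →* ℂˣ) (hk : lam.ker = mu.ker) :
    ∃ (k : ℕ) (ζ : ℂ) (τ : ℂ →+* ℂ), Gal p (Nat.card G) k ζ τ ∧ Nat.Coprime k (Nat.card G) ∧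
      mu = lam ^ k := by
  set n := Nat.card G with hn
  have hn0 : n ≠ 0 := Nat.card_pos.ne'
  set v := n.factorization p with hv
  set m := n / p ^ v with hm
  have hnm : p ^ v * m = n := Nat.ordProj_mul_ordCompl_eq_self n p
  have hpm : ¬ p ∣ m := Nat.not_dvd_ordCompl hp.out hn0
  -- the image is cyclic
  have hfin : Finite lam.range := by
    have : Finite (Set.range lam) := Set.finite_range lam
    exact this
  have hcyc : IsCyclic lam.range := subgroup_units_cyclic lam.range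
  obtain ⟨⟨ε, hε⟩, hgen⟩ := hcyc.exists_generator
  obtain ⟨a0, rfl⟩ := MonoidHom.mem_range.mp hε
  have hgen' : ∀ a : A, ∃ i : ℕ, lam a = lam a0 ^ i := by
    intro a
    have h1 := hgen ⟨lam a, ⟨a, rfl⟩⟩
    have hfo : IsOfFinOrder (⟨lam a0, hε⟩ : lam.range) := isOfFinOrder_of_finite _
    obtain ⟨i, hi⟩ := (hfo.mem_powers_iff_mem_zpowers).mpr h1
    exact ⟨i, (congrArg Subtype.val hi).symm⟩
  obtain ⟨e, he⟩ := hA a0
  have hord : orderOf (lam a0) ∣ p ^ e := by
    apply orderOf_dvd_of_pow_eq_one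
    rw [← map_pow, he, map_one]
  obtain ⟨e', _, hq⟩ := (Nat.dvd_prime_pow hp.out).mp hord
  -- the value of `mu`
  have hmu : mu a0 ^ p ^ e' = 1 := by
    rw [← map_pow, ← MonoidHom.mem_ker, ← hk, MonoidHom.mem_ker, map_pow, ← hq,
      pow_orderOf_eq_one]
  have hprim : IsPrimitiveRoot (lam a0) (p ^ e') := by
    rw [← hq]
    exact IsPrimitiveRoot.orderOf _
  have hprim' : IsPrimitiveRoot ((lam a0 : ℂˣ) : ℂ) (p ^ e') := by
    exact IsPrimitiveRoot.coe_units_iff.mpr hprim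
  have hne : NeZero (p ^ e') := ⟨pow_ne_zero _ hp.out.ne_zero⟩
  obtain ⟨r, _, hr⟩ := hprim'.eq_pow_of_pow_eq_one (ξ := ((mu a0 : ℂˣ) : ℂ)) (by
    rw [← Units.val_pow_eq_pow_val, hmu, Units.val_one])
  have hr' : mu a0 = lam a0 ^ r := Units.ext (by rw [← hr, Units.val_pow_eq_pow_val])
  have hmulam : ∀ a : A, mu a = lam a ^ r := by
    intro a
    obtain ⟨i, hi⟩ := hgen' a
    have h1 : a * (a0 ^ i)⁻¹ ∈ lam.ker := by
      rw [MonoidHom.mem_ker, map_mul, map_inv, map_pow, hi, mul_inv_cancel]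
    rw [hk, MonoidHom.mem_ker, map_mul, map_inv, map_pow, mul_inv_eq_one] at h1
    rw [h1, hi, hr', ← pow_mul, ← pow_mul, mul_comm]
  -- `r` is prime to `p` if `e' ≠ 0`
  have hrp : e' ≠ 0 → ¬ p ∣ r := by
    intro he' hpr
    have h1 : mu a0 ^ p ^ (e' - 1) = 1 := by
      obtain ⟨r', rfl⟩ := hpr
      rw [hr', ← pow_mul]
      have : p * r' * p ^ (e' - 1) = p ^ e' * r' := by
        obtain ⟨c, rfl⟩ := Nat.exists_eq_succ_of_ne_zero he'
        simp only [Nat.succ_eq_add_one, Nat.add_sub_cancel]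
        ring
      rw [this, pow_mul, ← hq, pow_orderOf_eq_one, one_pow]
    rw [← map_pow, ← MonoidHom.mem_ker, ← hk, MonoidHom.mem_ker, map_pow] at h1
    have h2 := orderOf_dvd_of_pow_eq_one h1
    rw [hq] at h2
    have h3 := (Nat.pow_dvd_pow_iff_le_right hp.out.one_lt).mp h2
    omega
  have hcop : Nat.Coprime (p ^ e') m :=
    Nat.Coprime.pow_left _ ((Nat.Prime.coprime_iff_not_dvd hp.out).mpr hpm)
  -- the exponent
  obtain ⟨k, hk1, hk2, hkp⟩ : ∃ k : ℕ, k ≡ r [MOD p ^ e'] ∧ k ≡ 1 [MOD m] ∧ ¬ p ∣ k := by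
    by_cases he' : e' = 0
    · refine ⟨1, ?_, Nat.ModEq.refl 1, hp.out.one_lt.not_ge ∘ Nat.le_of_dvd one_pos⟩
      rw [he', pow_zero]
      exact Nat.modEq_one
    · obtain ⟨k, hk1, hk2⟩ := Nat.chineseRemainder hcop r 1
      refine ⟨k, hk1, hk2, fun h => hrp he' ?_⟩
      have h1 : k ≡ r [MOD p] := hk1.of_dvd (dvd_pow_self p he')
      exact (h1.dvd_iff (dvd_refl p)).mp h
  have hkm : Nat.Coprime k m := by
    have h1 := hk2.gcd_eq
    rwa [Nat.gcd_one_left] at h1
  have hkn : Nat.Coprime k n := by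
    rw [← hnm]
    exact Nat.Coprime.mul_right (Nat.Coprime.pow_right _
      ((Nat.Prime.coprime_iff_not_dvd hp.out).mpr hkp).symm) hkm
  have hk0 : 1 ≤ k := by
    rcases Nat.eq_zero_or_pos k with h | h
    · rw [h] at hkp
      exact absurd (dvd_zero p) hkp
    · exact h
  obtain ⟨j, hj⟩ : m ∣ k - 1 := (Nat.modEq_iff_dvd' hk0).mp hk2.symm
  have hζ := Complex.isPrimitiveRoot_exp n hn0
  obtain ⟨τ, hτ⟩ := exists_tau hn0 hkn hζ
  refine ⟨k, _, τ, ⟨hn0, hζ, hτ, m, j, by omega, v, hnm.symm⟩, hkn, ?_⟩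
  ext a
  rw [MonoidHom.pow_apply, hmulam]
  congr 1
  rw [pow_eq_pow_iff_modEq]
  apply (hk1.symm).of_dvd
  apply orderOf_dvd_of_pow_eq_one
  obtain ⟨i, hi⟩ := hgen' a
  rw [hi, ← pow_mul, mul_comm, pow_mul, ← hq, pow_orderOf_eq_one, one_pow]

/-- the numbers only depend on the kernel -/
theorem kProj_ker (hA : IsPGroup p A) (lam mu : A →* ℂˣ) (hk : lam.ker = mu.ker)
    (B : (G → F) → F) (d : ℕ) (H : Subgroup G) :
    kProj p red mu B d H = kProj p red lam B d H := by
  obtain ⟨k, ζ, τ, h1, h2, rfl⟩ := exists_gal hA lam mu hk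
  exact kProj_pow red h1 h2 lam B d H

end Pool.Agent.X209.PJ
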