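import Pool.Agent.X209.PJ.Main
import Pool.Agent.X209.PJ.Contr

/-!
# Central subgroups which are not `p`-groups
-/

open scoped Classical BigOperators
open Pool.Agent.Helper884.IC Pool.Agent.Y63.AWC
open Pool.Agent.Y63.NV (redC centralValue IsClassFun)
open Pool.Agent.Y63.KR (conjSub chainStabilizer mem_chainStabilizer conjSub_eq_iff mem_conjSub
  conjSub_inv_conjSub)

set_option linter.unusedSectionVars false
set_option linter.unusedVariables false

noncomputable section

namespace Pool.Agent.X209.PJ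

variable {p : ℕ} {F : Type} [Field F] (red : integralClosure ℤ ℂ →+* F)
  {G : Type} [Group G] [Finite G] {A Z : Subgroup G}

/-- the indicator function of an element -/
def delta (z : G) : G → F := fun x => if x = z then 1 else 0

lemma delta_class {z : G} (hz : z ∈ Subgroup.center G) : IsClassFun (delta z : G → F) := by
  intro g x
  unfold delta
  have h : (g * x * g⁻¹ = z) ↔ (x = z) := by
    constructor
    · intro h1
      have h2 : x = g⁻¹ * z * g := by rw [← h1]; group
      rw [h2, mul_assoc, ← Subgroup.mem_center_iff.mp hz g, inv_mul_cancel_left]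
    · rintro rfl
      rw [Subgroup.mem_center_iff.mp hz g, mul_inv_cancel_right]
  simp only [h]

lemma cv_single {H : Subgroup G} (χ : H → ℂ) {z : G} (hz : z ∈ Subgroup.center G) (hzH : z ∈ H) :
    centralValue red χ (fun x : H => (delta z : G → F) x) = redC red (χ ⟨z, hzH⟩ / χ 1) := by
  unfold centralValue
  have hcz : ∀ g : H, g * ⟨z, hzH⟩ * g⁻¹ = (⟨z, hzH⟩ : H) := by
    intro g
    apply Subtype.ext
    change (g : G) * z * (g : G)⁻¹ = z
    rw [Subgroup.mem_center_iff.mp hz g, mul_inv_cancel_right]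
  rw [finsum_eq_single _ (ConjClasses.mk (⟨z, hzH⟩ : H))]
  · have hout : (ConjClasses.mk (⟨z, hzH⟩ : H)).out = ⟨z, hzH⟩ := by
      have h1 : ConjClasses.mk (ConjClasses.mk (⟨z, hzH⟩ : H)).out = ConjClasses.mk ⟨z, hzH⟩ :=
        Quotient.out_eq _
      rw [ConjClasses.mk_eq_mk_iff_isConj, isConj_comm, isConj_iff] at h1
      obtain ⟨c, hc⟩ := h1
      rw [← hc]
      exact hcz c
    have hcar : (ConjClasses.mk (⟨z, hzH⟩ : H)).carrier = {⟨z, hzH⟩} := by
      ext x
      rw [ConjClasses.mem_carrier_iff_mk_eq, Set.mem_singleton_iff,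
        ConjClasses.mk_eq_mk_iff_isConj, isConj_comm, isConj_iff]
      constructor
      · rintro ⟨c, hc⟩
        rw [← hc]
        exact hcz c
      · rintro rfl
        exact ⟨1, by group⟩
    have e1 : (delta z : G → F) ((⟨z, hzH⟩ : H) : G) = 1 := if_pos rfl
    rw [hout, hcar]
    refine (congrArg (fun a : F => a * redC red
      ((Nat.card ({(⟨z, hzH⟩ : H)} : Set H) : ℂ) * χ ⟨z, hzH⟩ / χ 1)) e1).trans ?_
    simp only [one_mul]
    congr 1
    simp
  · intro C hC
    have h1 : ((C.out : H) : G) ≠ z := by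
      intro h2
      apply hC
      have h3 : (C.out : H) = ⟨z, hzH⟩ := Subtype.ext h2
      rw [← h3]
      exact (Quotient.out_eq C).symm
    have e1 : (delta z : G → F) ((C.out : H) : G) = 0 := if_neg h1
    exact (congrArg (fun a : F => a * redC red
      ((Nat.card C.carrier : ℂ) * χ C.out / χ 1)) e1).trans (zero_mul _)

lemma root_one [hp : Fact p.Prime] [CharP F p] {m : ℕ} (hm : ¬ p ∣ m) {ζ : integralClosure ℤ ℂ}
    (h1 : ζ ^ m = 1) (hr : red ζ = 1) : ζ = 1 := by
  by_contra hne
  have h2 : (∑ i ∈ Finset.range m, ζ ^ i) * (ζ - 1) = 0 := by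
    rw [geom_sum_mul, h1, sub_self]
  have h3 : ∑ i ∈ Finset.range m, ζ ^ i = 0 :=
    (mul_eq_zero.mp h2).resolve_right (sub_ne_zero.mpr hne)
  have h4 := congrArg red h3
  rw [map_sum, map_zero] at h4
  simp only [map_pow, hr, one_pow, Finset.sum_const, Finset.card_range, nsmul_eq_mul,
    mul_one] at h4
  exact hm ((CharP.cast_eq_zero_iff F p m).mp h4)

lemma hom_int (lam : Z →* ℂˣ) (z : Z) : IsIntegral ℤ ((lam z : ℂˣ) : ℂ) := by
  have h1 : (((lam z : ℂˣ) : ℂ)) ^ Nat.card Z = 1 := by
    rw [← Units.val_pow_eq_pow_val, ← map_pow, pow_card_eq_one', map_one, Units.val_one]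
  refine IsIntegral.of_pow (Nat.card_pos (α := Z)) ?_
  rw [h1]
  exact isIntegral_one

/-- `A` is the Sylow `p`-subgroup of the central subgroup `Z` -/
structure IsSylowOf (p : ℕ) (A Z : Subgroup G) : Prop where
  le : A ≤ Z
  pgroup : IsPGroup p A
  card : (Nat.card A).factorization p = (Nat.card Z).factorization p

theorem hom_eq [hp : Fact p.Prime] [CharP F p] (hZ : Z ≤ Subgroup.center G)
    (hS : IsSylowOf p A Z) (lam mu : Z →* ℂˣ)
    (h1 : ∀ z : Z, (z : G) ∈ A → lam z = mu z)
    (h2 : ∀ z : Z, redC red (lam z : ℂ) = redC red (mu z : ℂ)) : lam = mu := by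
  have hn : (A.subgroupOf Z).Normal := by
    constructor
    intro n hn g
    have : g * n * g⁻¹ = n := by
      apply Subtype.ext
      change (g : G) * n * (g : G)⁻¹ = n
      rw [Subgroup.mem_center_iff.mp (hZ n.2) g, mul_inv_cancel_right]
    rwa [this]
  have hidx : ¬ p ∣ (A.subgroupOf Z).index := by
    intro h3
    have h4 := (A.subgroupOf Z).card_mul_index
    have h5 : Nat.card (A.subgroupOf Z) = Nat.card A :=
      Nat.card_congr (Subgroup.subgroupOfEquivOfLe hS.le).toEquiv
    have h6 : (A.subgroupOf Z).index ≠ 0 := Subgroup.index_ne_zero_of_finite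
    have h7 : 0 < ((A.subgroupOf Z).index).factorization p :=
      hp.out.factorization_pos_of_dvd h6 h3
    have h8 : (Nat.card (A.subgroupOf Z) * (A.subgroupOf Z).index).factorization p =
        (Nat.card Z).factorization p := by rw [h4]
    rw [h5, Nat.factorization_mul Nat.card_pos.ne' h6, Finsupp.add_apply, hS.card] at h8
    omega
  refine MonoidHom.ext fun z => ?_
  set m := (A.subgroupOf Z).index with hm
  have h3 : z ^ m ∈ A.subgroupOf Z := Subgroup.pow_index_mem _ z
  have h4 : lam z ^ m = mu z ^ m := by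
    rw [← map_pow, ← map_pow]
    exact h1 _ (Subgroup.mem_subgroupOf.mp h3)
  -- the quotient is a root of unity of order prime to `p`
  have hi1 := hom_int lam z
  have hi2 := hom_int mu z⁻¹
  have hi3 := hom_int mu z
  let u : integralClosure ℤ ℂ := ⟨(lam z : ℂ), hi1⟩
  let v : integralClosure ℤ ℂ := ⟨(mu z⁻¹ : ℂ), hi2⟩
  let w : integralClosure ℤ ℂ := ⟨(mu z : ℂ), hi3⟩
  have hwv : w * v = 1 := by
    apply Subtype.ext
    change ((mu z : ℂˣ) : ℂ) * ((mu z⁻¹ : ℂˣ) : ℂ) = 1
    rw [map_inv, ← Units.val_mul, mul_inv_cancel, Units.val_one]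
  have huw : red u = red w := by
    have h5 := h2 z
    rwa [Pool.Agent.Y930.NV.redC_of red hi1, Pool.Agent.Y930.NV.redC_of red hi3] at h5
  have hr : red (u * v) = 1 := by
    rw [map_mul, huw, ← map_mul, hwv, map_one]
  have hpow : (u * v) ^ m = 1 := by
    apply Subtype.ext
    change (((lam z : ℂˣ) : ℂ) * ((mu z⁻¹ : ℂˣ) : ℂ)) ^ m = 1
    rw [← Units.val_mul, ← Units.val_pow_eq_pow_val, mul_pow, h4, map_inv, ← mul_pow,
      mul_inv_cancel, one_pow, Units.val_one]
  have h6 := root_one red hidx hpow hr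
  have h7 : u = w := by
    calc u = u * (w * v) := by rw [hwv, mul_one]
      _ = (u * v) * w := by ring
      _ = w := by rw [h6, one_mul]
  have h8 : ((lam z : ℂˣ) : ℂ) = ((mu z : ℂˣ) : ℂ) := congrArg Subtype.val h7
  exact Units.ext h8

lemma over_val {H : Subgroup G} (hZH : Z ≤ H) {χ : H → ℂ} (h : IsIrrChar χ) {lam : Z →* ℂˣ}
    (hl : Over lam χ) (z : Z) : χ ⟨z, hZH z.2⟩ / χ 1 = (lam z : ℂ) := by
  have h0 : χ 1 ≠ 0 := one_ne h
  have h1 := hl z 1 ⟨z, hZH z.2⟩ (by simp)
  rw [h1, mul_div_assoc, div_self h0, mul_one]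

lemma induces_val (hZ : Z ≤ Subgroup.center G) {H : Subgroup G} (hZH : Z ≤ H) {χ : H → ℂ}
    (h : IsIrrChar χ) {lam : Z →* ℂˣ} (hl : Over lam χ) {B : (G → F) → F}
    (hB : Induces red B χ) (z : Z) : B (delta (z : G)) = redC red (lam z : ℂ) := by
  rw [← hB (delta (z : G)) (delta_class (hZ z.2)), cv_single red χ (hZ z.2) (hZH z.2),
    over_val hZH h hl]

/-- a central character lies over its restrictions -/
lemma over_restrict (hAZ : A ≤ Z) {H : Subgroup G} {χ : H → ℂ} {lam : Z →* ℂˣ}
    (hl : Over lam χ) : Over (lam.comp (Subgroup.inclusion hAZ)) χ := by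
  intro a x y hxy
  exact hl (Subgroup.inclusion hAZ a) x y hxy

theorem kProj_split [hp : Fact p.Prime] [CharP F p] (hZ : Z ≤ Subgroup.center G)
    (hS : IsSylowOf p A Z) (lam : Z →* ℂˣ) (B : (G → F) → F) (d : ℕ) {H : Subgroup G}
    (hZH : Z ≤ H) : kProj p red lam B d H =
      if ∀ z : Z, B (delta (z : G)) = redC red (lam z : ℂ) then
        kProj p red (lam.comp (Subgroup.inclusion hS.le)) B d H else 0 := by
  split_ifs with hc
  · unfold kProj
    refine Nat.card_congr (Equiv.subtypeEquivRight fun χ => ?_)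
    constructor
    · rintro ⟨h1, h2, h3⟩
      exact ⟨h1, over_restrict hS.le h2, h3⟩
    · rintro ⟨h1, h2, h3, h4⟩
      refine ⟨h1, ?_, h3, h4⟩
      obtain ⟨mu, hmu⟩ := exists_over hZ hZH h1
      have h5 : mu = lam := by
        apply hom_eq red hZ hS mu lam
        · intro z hz
          have h6 := over_unique (hS.le.trans hZH) h1 (over_restrict hS.le hmu) h2
          have h7 := congrArg (fun f : A →* ℂˣ => f ⟨z, hz⟩) h6
          exact h7
        · intro z
          rw [← induces_val red hZ hZH h1 hmu h4 z, hc z]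
      rw [← h5]
      exact hmu
  · unfold kProj
    have : IsEmpty {χ : H → ℂ // IsIrrChar χ ∧ Over lam χ ∧ HasDefect p d χ ∧
        Induces red B χ} := by
      constructor
      rintro ⟨χ, h1, h2, h3, h4⟩
      exact hc fun z => induces_val red hZ hZH h1 h2 h4 z
    exact Nat.card_of_isEmpty

theorem altAbove_split [hp : Fact p.Prime] [CharP F p] (hZ : Z ≤ Subgroup.center G)
    (hS : IsSylowOf p A Z) (lam : Z →* ℂˣ) (B : (G → F) → F) (d : ℕ)
    (h : altAbove p A (fun H => (kProj p red (lam.comp (Subgroup.inclusion hS.le)) B d H : ℤ)) = 0) :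
    altAbove p A (fun H => (kProj p red lam B d H : ℤ)) = 0 := by
  have h1 : altAbove p A (fun H => (kProj p red lam B d H : ℤ)) =
      altAbove p A (fun H => (if ∀ z : Z, B (delta (z : G)) = redC red (lam z : ℂ) then
        (kProj p red (lam.comp (Subgroup.inclusion hS.le)) B d H : ℤ) else 0)) := by
    apply altAbove_congr
    intro σ _
    rw [kProj_split red hZ hS lam B d (center_le_stab hZ σ)]
    split_ifs <;> rfl
  rw [h1]
  split_ifs with hc
  · exact h
  · unfold altAbove
    simp

end Pool.Agent.X209.PJ
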