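import Pool.Agent.X209.PJ.Uniq

/-!
# The equivalence group by group, and the formula for a single central character
-/

open scoped Classical BigOperators
open Pool.Agent.Y63.NV (IsClassFun IsBlock redC centralValue conv)
open Pool.Agent.Helper884.IC
open Pool.Agent.Y63.KR (conjSub chainStabilizer mem_chainStabilizer conjSub_eq_iff)

set_option linter.unusedSectionVars false
set_option linter.unusedVariables false

noncomputable section

namespace Pool.Agent.X209.PJ

variable {p : ℕ} [hp : Fact p.Prime] {F : Type} [Field F] [CharP F p]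
  (red : integralClosure ℤ ℂ →+* F)

section

variable {G : Type} [Group G] [Finite G] {A Z : Subgroup G}

lemma altAbove_zero_of {f : Subgroup G → ℕ}
    (h : ∀ σ, IsChainAbove p A σ → f (chainStabilizer σ) = 0) :
    altAbove p A (fun H => (f H : ℤ)) = 0 := by
  have h1 : altAbove p A (fun H => (f H : ℤ)) = altAbove p A (fun _ : Subgroup G => 0) := by
    apply altAbove_congr
    intro σ hσ
    rw [h σ hσ]
    rfl
  rw [h1]
  unfold altAbove
  simp

lemma proj_A_of_Z (hZ : Z ≤ Subgroup.center G) (hS : IsSylowOf p A Z) {B : (G → F) → F} {d : ℕ}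
    (h : ∀ lam : Z →* ℂˣ, altAbove p A (fun H => (kProj p red lam B d H : ℤ)) = 0)
    (mu : A →* ℂˣ) : altAbove p A (fun H => (kProj p red mu B d H : ℤ)) = 0 := by
  by_cases hex : ∃ σ, IsChainAbove p A σ ∧ kProj p red mu B d (chainStabilizer σ) ≠ 0
  · obtain ⟨σ, hσ, hne⟩ := hex
    have hex2 : ∃ χ : chainStabilizer σ → ℂ, IsIrrChar χ ∧ Over mu χ ∧ HasDefect p d χ ∧
        Induces red B χ := by
      by_contra hcon
      push Not at hcon
      apply hne
      unfold kProj
      have : IsEmpty {χ : chainStabilizer σ → ℂ // IsIrrChar χ ∧ Over mu χ ∧ HasDefect p d χ ∧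
          Induces red B χ} :=
        ⟨fun χ => hcon χ.1 χ.2.1 χ.2.2.1 χ.2.2.2.1 χ.2.2.2.2⟩
      exact Nat.card_of_isEmpty
    obtain ⟨χ, h1, h2, h3, h4⟩ := hex2
    have hZσ := center_le_stab hZ σ
    obtain ⟨lam, hlam⟩ := exists_over hZ hZσ h1
    have hc : ∀ z : Z, B (delta (z : G)) = redC red (lam z : ℂ) :=
      fun z => induces_val red hZ hZσ h1 hlam h4 z
    have hmu : lam.comp (Subgroup.inclusion hS.le) = mu :=
      over_unique (hS.le.trans hZσ) h1 (over_restrict hS.le hlam) h2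
    rw [← h lam]
    apply altAbove_congr
    intro τ _
    rw [kProj_split red hZ hS lam B d (center_le_stab hZ τ), if_pos hc, hmu]
  · push Not at hex
    exact altAbove_zero_of hex

theorem quot_eq {G' : Type} [Group G'] [Finite G'] (π : G →* G') (hπ : Function.Surjective π)
    (hA : A ≤ Subgroup.center G) (hpA : IsPGroup p A) (hY : π.ker ≤ A) (B : (G → F) → F) (d' : ℕ) :
    (Nat.card G : ℤ) * altAbove p A
        (fun H => (kTriv red p π.ker B (d' + (Nat.card π.ker).factorization p) H : ℤ)) =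
      (Nat.card π.ker : ℤ) * ((Nat.card G' : ℤ) * altAbove p (A.map π) (fun H =>
        (kGen red p ((fun t : (G → F) × F => (push π t.1, t.2)) '' (TB B)) ⊥ d' H : ℤ))) := by
  have hn : A.Normal := normal_of_center hA
  have hn' : (A.map π).Normal := normal_of_center (map_center π hπ hA)
  have hT : ∀ t ∈ (TB B : Set ((G → F) × F)), IsClassFun t.1 := fun t ht => ht.1
  set T' : Set ((G' → F) × F) := (fun t : (G → F) × F => (push π t.1, t.2)) '' (TB B) with hT'def
  have hT' : ∀ t ∈ T', IsClassFun t.1 := by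
    rintro _ ⟨t, ht, rfl⟩
    exact push_class π hπ (hT t ht)
  have h4 : (fun H : Subgroup G =>
      (kTriv red p π.ker B (d' + (Nat.card π.ker).factorization p) H : ℤ)) =
      fun H => (kGen red p (TB B) π.ker (d' + (Nat.card π.ker).factorization p) H : ℤ) := by
    funext H
    rw [kTriv_eq_kGen]
  rw [h4]
  exact altAbove_quot (p := p) (A := A) π hπ hY (hpA.to_le hY)
    (fun H => (kGen red p (TB B) π.ker (d' + (Nat.card π.ker).factorization p) H : ℤ))
    (fun H => (kGen red p T' ⊥ d' H : ℤ))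
    (fun g σ _ => by
      rw [kGen_conj red (TB B) hT (hY.trans hA) _ g])
    (fun g σ _ => by
      rw [kGen_conj red T' hT' bot_le d' g])
    (fun H hH => by
      rw [kGen_quot red π (TB B) hT d' H hH])

/-- the characters of the quotient -/
theorem kOrd_push {G' : Type} [Group G'] [Finite G'] (π : G →* G') (hπ : Function.Surjective π)
    (hc : π.ker ≤ Subgroup.center G) (hpk : IsPGroup p π.ker) {A' : Subgroup G'}
    {β : (G' → F) → F} (hβ : IsBlock β) (d' : ℕ) {σ : Set (Subgroup G')}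
    (hσ : IsChainAbove p A' σ) :
    kGen red p ((fun t : (G → F) × F => (push π t.1, t.2)) '' (TB (fun f => β (push π f)))) ⊥ d'
      (chainStabilizer σ) = kOrd p red β d' (chainStabilizer σ) := by
  unfold kGen kOrd
  refine Nat.card_congr (Equiv.subtypeEquivRight fun χ => ?_)
  constructor
  · rintro ⟨h1, h2, h3, h4⟩
    refine ⟨h1, h3, ?_⟩
    have h5 : IsBlock (centralValue red χ) :=
      Pool.Agent.Y930.NV.cvh F red (chainStabilizer σ) χ h1
    have h6 := good_stab (F := F) (p := p) _ σ rfl hσ.1 (fun P hP => (hσ.2 P hP).1) _ h5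
    intro f hf
    refine uniq (p := p) π hπ hc hpk h6 hβ ?_ hf
    intro g hg
    exact h4 _ ⟨(g, β (push π g)), ⟨hg, rfl⟩, rfl⟩
  · rintro ⟨h1, h3, h4⟩
    refine ⟨h1, ?_, h3, ?_⟩
    · intro y hy x z hxz
      rw [Subgroup.mem_bot.mp hy, one_mul] at hxz
      rw [Subtype.ext hxz]
    · rintro _ ⟨⟨g, c⟩, ⟨hg, hgc⟩, rfl⟩
      simp only [] at hg hgc ⊢
      rw [hgc]
      exact h4 _ (push_class π hπ hg)

theorem central_of_proj_local {G' : Type} [Group G'] [Finite G'] (π : G →* G')
    (hπ : Function.Surjective π) (hA : A ≤ Subgroup.center G) (hpA : IsPGroup p A)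
    (hY : π.ker ≤ A)
    (h : ∀ (mu : A →* ℂˣ) (B : (G → F) → F) (d : ℕ), (Nat.card A).factorization p < d →
      altAbove p A (fun H => (kProj p red mu B d H : ℤ)) = 0) :
    DadeCentral red p (A.map π) := by
  intro β d' hd'
  by_cases hex : ∃ σ, IsChainAbove p (A.map π) σ ∧ kOrd p red β d' (chainStabilizer σ) ≠ 0
  · obtain ⟨σ, hσ, hne⟩ := hex
    obtain ⟨χ, h1, h2, h3⟩ := kOrd_ne red hne
    have hβ : IsBlock β := induces_block (p := p) red hσ.1 (fun P hP => (hσ.2 P hP).1) h1 h3
    have : Fintype (A →* ℂˣ) := Fintype.ofFinite _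
    have hcard : (Nat.card A).factorization p = (Nat.card π.ker).factorization p +
        (Nat.card (A.map π)).factorization p := by
      rw [card_map π hY, Nat.factorization_mul Nat.card_pos.ne' Nat.card_pos.ne', Finsupp.add_apply]
    have h4 := quot_eq red π hπ hA hpA hY (fun f => β (push π f)) d'
    rw [altAbove_kTriv red hA hY] at h4
    rw [Finset.sum_eq_zero (fun mu _ => h mu _ _ (by omega)), mul_zero] at h4
    have h5 : altAbove p (A.map π) (fun H =>
        (kGen red p ((fun t : (G → F) × F => (push π t.1, t.2)) '' (TB fun f => β (push π f))) ⊥ d' H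
          : ℤ)) = altAbove p (A.map π) (fun H => (kOrd p red β d' H : ℤ)) := by
      apply altAbove_congr
      intro τ hτ
      rw [kOrd_push red π hπ (hY.trans hA) (hpA.to_le hY) hβ d' hτ]
    rw [h5] at h4
    have h6 : (Nat.card π.ker : ℤ) ≠ 0 := by exact_mod_cast Nat.card_pos.ne'
    have h7 : (Nat.card G' : ℤ) ≠ 0 := by exact_mod_cast Nat.card_pos.ne'
    exact ((mul_eq_zero.mp ((mul_eq_zero.mp h4.symm).resolve_left h6)).resolve_left h7)
  · push Not at hex
    exact altAbove_zero_of hex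

/-- group by group -/
theorem local_iff (hZ : Z ≤ Subgroup.center G) (hS : IsSylowOf p A Z) :
    (∀ (lam : Z →* ℂˣ) (B : (G → F) → F) (d : ℕ), (Nat.card A).factorization p < d →
      altAbove p A (fun H => (kProj p red lam B d H : ℤ)) = 0) ↔
    ∀ Y : Subgroup G, Y ≤ A → ∀ hY : Y.Normal, DadeCentral red p (A.map (QuotientGroup.mk' Y)) := by
  constructor
  · intro h Y hYA hY
    refine central_of_proj_local red (QuotientGroup.mk' Y) (QuotientGroup.mk'_surjective Y)
      (hS.le.trans hZ) hS.pgroup (by rw [QuotientGroup.ker_mk']; exact hYA) ?_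
    intro mu B d hd
    exact proj_A_of_Z red hZ hS (fun lam => h lam B d hd) mu
  · intro h lam B d hd
    apply altAbove_split red hZ hS
    exact kProj_zero red (hS.le.trans hZ) hS.pgroup h _ (lam.comp (Subgroup.inclusion hS.le)) le_rfl
      B d hd

/-! ### A single central character -/

lemma exists_order_p (hpA : IsPGroup p A) {lam : A →* ℂˣ} {b : A} (hb : lam b ≠ 1) :
    ∃ n : ℕ, lam (b ^ n) ≠ 1 ∧ lam (b ^ n) ^ p = 1 := by
  obtain ⟨k, hk⟩ := hpA b
  have h1 : ∃ k : ℕ, lam b ^ p ^ k = 1 := ⟨k, by rw [← map_pow, hk, map_one]⟩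
  have hspec := Nat.find_spec h1
  have hne : Nat.find h1 ≠ 0 := by
    intro h2
    rw [h2, pow_zero, pow_one] at hspec
    exact hb hspec
  obtain ⟨j, hj⟩ := Nat.exists_eq_succ_of_ne_zero hne
  refine ⟨p ^ j, ?_, ?_⟩
  · rw [map_pow]
    exact Nat.find_min h1 (by omega)
  · rw [map_pow, ← pow_mul, ← pow_succ]
    rw [hj] at hspec
    exact hspec

lemma ker_pow_le (hpA : IsPGroup p A) {lam mu : A →* ℂˣ} (h : lam.ker < mu.ker) :
    (lam ^ p).ker ≤ mu.ker := by
  obtain ⟨b, hb, hb'⟩ := SetLike.exists_of_lt h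
  rw [MonoidHom.mem_ker] at hb hb'
  obtain ⟨n, h1, h2⟩ := exists_order_p hpA hb'
  have hprim : IsPrimitiveRoot (lam (b ^ n)) p :=
    IsPrimitiveRoot.iff_orderOf.mpr (orderOf_eq_prime h2 h1)
  intro a ha
  rw [MonoidHom.mem_ker, MonoidHom.pow_apply] at ha
  obtain ⟨i, _, hi⟩ := (IsPrimitiveRoot.coe_units_iff.mpr hprim).eq_pow_of_pow_eq_one
    (ξ := ((lam a : ℂˣ) : ℂ)) (by rw [← Units.val_pow_eq_pow_val, ha, Units.val_one])
  have hi2 : lam (b ^ n) ^ i = lam a := Units.ext (by
    rw [Units.val_pow_eq_pow_val]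
    exact hi)
  have h3 : a * ((b ^ n) ^ i)⁻¹ ∈ lam.ker := by
    rw [MonoidHom.mem_ker, map_mul, map_inv, map_pow, hi2, mul_inv_cancel]
  have h4 := h.le h3
  rw [MonoidHom.mem_ker, map_mul, map_inv, map_pow, map_pow, hb, one_pow, one_pow, inv_one,
    mul_one] at h4
  exact h4

lemma ker_lt_pow (hpA : IsPGroup p A) {lam : A →* ℂˣ} (h : lam ≠ 1) : lam.ker < (lam ^ p).ker := by
  refine lt_of_le_of_ne ?_ ?_
  · intro a ha
    rw [MonoidHom.mem_ker] at ha ⊢
    rw [MonoidHom.pow_apply, ha, one_pow]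
  · intro h1
    obtain ⟨b, hb⟩ : ∃ b, lam b ≠ 1 := by
      by_contra hcon
      push Not at hcon
      exact h (MonoidHom.ext hcon)
    obtain ⟨n, h2, h3⟩ := exists_order_p hpA hb
    apply h2
    rw [← MonoidHom.mem_ker, h1, MonoidHom.mem_ker, MonoidHom.pow_apply, h3]

theorem single_formula (hA : A ≤ Subgroup.center G) (hpA : IsPGroup p A) {lam : A →* ℂˣ}
    (hlam : lam ≠ 1) (B : (G → F) → F) (d : ℕ) :
    (Nat.card {mu : A →* ℂˣ // mu.ker = lam.ker} : ℤ) *
        altAbove p A (fun H => (kProj p red lam B d H : ℤ)) =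
      altAbove p A (fun H => (kTriv red p (kerG lam) B d H : ℤ)) -
        altAbove p A (fun H => (kTriv red p (kerG (lam ^ p)) B d H : ℤ)) := by
  have : Fintype (A →* ℂˣ) := Fintype.ofFinite _
  have hmem : ∀ nu mu : A →* ℂˣ, mu ∈ Lam A (kerG nu) ↔ nu.ker ≤ mu.ker := by
    intro nu mu
    rw [Lam, Finset.mem_filter]
    constructor
    · rintro ⟨_, h2⟩ a ha
      exact h2 a ((mem_kerG nu a).mpr ha)
    · intro h2
      exact ⟨Finset.mem_univ _, fun a ha => h2 ((mem_kerG nu a).mp ha)⟩
  rw [altAbove_kTriv red hA (kerG_le lam), altAbove_kTriv red hA (kerG_le (lam ^ p)),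
    eq_sub_iff_add_eq]
  have h1 : (Lam A (kerG lam)).filter (fun mu => ¬ mu.ker = lam.ker) = Lam A (kerG (lam ^ p)) := by
    ext mu
    rw [Finset.mem_filter, hmem, hmem]
    constructor
    · rintro ⟨h2, h3⟩
      exact ker_pow_le hpA (lt_of_le_of_ne h2 (Ne.symm h3))
    · intro h2
      have h3 := (ker_lt_pow hpA hlam).trans_le h2
      exact ⟨h3.le, h3.ne'⟩
  rw [← Finset.sum_filter_add_sum_filter_not (Lam A (kerG lam)) (fun mu => mu.ker = lam.ker), h1]
  congr 1
  have h2 : ∀ mu ∈ (Lam A (kerG lam)).filter (fun mu => mu.ker = lam.ker),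
      altAbove p A (fun H => (kProj p red mu B d H : ℤ)) =
        altAbove p A (fun H => (kProj p red lam B d H : ℤ)) := by
    intro mu hmu
    congr 1
    funext H
    rw [kProj_ker red hpA lam mu (Finset.mem_filter.mp hmu).2.symm B d H]
  rw [Finset.sum_congr rfl h2, Finset.sum_const, nsmul_eq_mul]
  congr 2
  rw [Nat.card_eq_fintype_card, Fintype.card_subtype]
  congr 1
  ext mu
  rw [Finset.mem_filter, Finset.mem_filter, hmem]
  constructor
  · rintro ⟨_, h3⟩
    exact ⟨h3.ge, h3⟩
  · rintro ⟨_, h3⟩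
    exact ⟨Finset.mem_univ _, h3⟩

end

end Pool.Agent.X209.PJ
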