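import Pool.Agent.X209.PJ.Quot

/-!
# The projective form from the central form of the quotients
-/

open scoped Classical BigOperators
open Pool.Agent.Helper884.IC Pool.Agent.Y63.AWC
open Pool.Agent.Y63.NV (redC centralValue IsClassFun)
open Pool.Agent.Y63.KR (conjSub chainStabilizer mem_chainStabilizer conjSub_eq_iff mem_conjSub
  conjSub_inv_conjSub)

set_option linter.unusedSectionVars false
set_option linter.unusedVariables false

noncomputable section

namespace Pool.Agent.X209.PJ

variable {p : ℕ} {F : Type} [Field F] (red : integralClosure ℤ ℂ →+* F)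
  {G : Type} [Group G] [Finite G] {A : Subgroup G}

/-- the vanishing of the alternating sums for `G` and `A` -/
def DadeCentral (p : ℕ) (A : Subgroup G) : Prop :=
  ∀ (B : (G → F) → F) (d : ℕ), (Nat.card A).factorization p < d →
    altAbove p A (fun H => (kOrd p red B d H : ℤ)) = 0

lemma normal_of_center {Y : Subgroup G} (h : Y ≤ Subgroup.center G) : Y.Normal := by
  constructor
  intro n hn g
  rw [Subgroup.mem_center_iff.mp (h hn) g, mul_inv_cancel_right]
  exact hn

lemma map_center {G' : Type} [Group G'] (π : G →* G') (hπ : Function.Surjective π)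
    (hA : A ≤ Subgroup.center G) : A.map π ≤ Subgroup.center G' := by
  rintro _ ⟨a, ha, rfl⟩
  rw [Subgroup.mem_center_iff]
  intro g
  obtain ⟨x, rfl⟩ := hπ g
  rw [← map_mul, ← map_mul, Subgroup.mem_center_iff.mp (hA ha) x]

theorem kTriv_zero [Fact p.Prime] {G' : Type} [Group G'] [Finite G'] (π : G →* G')
    (hπ : Function.Surjective π) (hA : A ≤ Subgroup.center G) (hpA : IsPGroup p A)
    (hY : π.ker ≤ A) (h : DadeCentral red p (A.map π)) (B : (G → F) → F) (d : ℕ)
    (hd : (Nat.card A).factorization p < d) :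
    altAbove p A (fun H => (kTriv red p π.ker B d H : ℤ)) = 0 := by
  have hn : A.Normal := normal_of_center hA
  have hn' : (A.map π).Normal := normal_of_center (map_center π hπ hA)
  have hp : IsPGroup p π.ker := hpA.to_le hY
  have hcard : (Nat.card A).factorization p = (Nat.card π.ker).factorization p +
      (Nat.card (A.map π)).factorization p := by
    rw [card_map π hY, Nat.factorization_mul Nat.card_pos.ne' Nat.card_pos.ne', Finsupp.add_apply]
  obtain ⟨d', hd'⟩ : ∃ d', d = d' + (Nat.card π.ker).factorization p :=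
    ⟨d - (Nat.card π.ker).factorization p, by omega⟩
  have hd2 : (Nat.card (A.map π)).factorization p < d' := by omega
  have hT : ∀ t ∈ (TB B : Set ((G → F) × F)), IsClassFun t.1 := fun t ht => ht.1
  set T' : Set ((G' → F) × F) := (fun t : (G → F) × F => (push π t.1, t.2)) '' (TB B) with hT'def
  have hT' : ∀ t ∈ T', IsClassFun t.1 := by
    rintro _ ⟨t, ht, rfl⟩
    exact push_class π hπ (hT t ht)
  have h1 := altAbove_quot (p := p) (A := A) π hπ hY hp
    (fun H => (kGen red p (TB B) π.ker d H : ℤ)) (fun H => (kGen red p T' ⊥ d' H : ℤ))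
    (fun g σ _ => by
      rw [kGen_conj red (TB B) hT (hY.trans hA) d g])
    (fun g σ _ => by
      rw [kGen_conj red T' hT' bot_le d' g])
    (fun H hH => by
      rw [hd', kGen_quot red π (TB B) hT d' H hH])
  have h2 : altAbove p (A.map π) (fun H => (kGen red p T' ⊥ d' H : ℤ)) = 0 := by
    have h3 : (fun H : Subgroup G' => (kGen red p T' ⊥ d' H : ℤ)) = fun H =>
        ∑ β ∈ (RS_finite (G := G') red).toFinset.filter (fun β => ∀ t ∈ T', β t.1 = t.2),
          (kOrd p red β d' H : ℤ) := by
      funext H
      rw [kGen_sum red T' hT' d' H]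
      push_cast
      rfl
    rw [h3, altAbove_sum]
    exact Finset.sum_eq_zero fun β _ => h β d' hd2
  have h4 : (fun H : Subgroup G => (kTriv red p π.ker B d H : ℤ)) =
      fun H => (kGen red p (TB B) π.ker d H : ℤ) := by
    funext H
    rw [kTriv_eq_kGen]
  rw [h4]
  rw [h2, mul_zero, mul_zero] at h1
  have h5 : (Nat.card G : ℤ) ≠ 0 := by exact_mod_cast Nat.card_pos.ne'
  exact (mul_eq_zero.mp h1).resolve_left h5

/-- the kernel as a subgroup of `G` -/
def kerG (lam : A →* ℂˣ) : Subgroup G := lam.ker.map A.subtype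

lemma kerG_le (lam : A →* ℂˣ) : kerG lam ≤ A := Subgroup.map_subtype_le _

lemma mem_kerG (lam : A →* ℂˣ) (a : A) : (a : G) ∈ kerG lam ↔ a ∈ lam.ker := by
  unfold kerG
  rw [Subgroup.mem_map]
  constructor
  · rintro ⟨b, hb, hba⟩
    have : b = a := Subtype.ext hba
    rwa [← this]
  · intro h
    exact ⟨a, h, rfl⟩

theorem kProj_zero [Fact p.Prime] [CharP F p] (hA : A ≤ Subgroup.center G) (hpA : IsPGroup p A)
    (h : ∀ Y : Subgroup G, Y ≤ A → ∀ hY : Y.Normal,
      DadeCentral red p (A.map (QuotientGroup.mk' Y))) :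
    ∀ (n : ℕ) (lam : A →* ℂˣ), Nat.card A - Nat.card lam.ker ≤ n → ∀ (B : (G → F) → F) (d : ℕ),
      (Nat.card A).factorization p < d →
      altAbove p A (fun H => (kProj p red lam B d H : ℤ)) = 0 := by
  intro n
  induction n using Nat.strong_induction_on with
  | _ n ih =>
    intro lam hn B d hd
    have : Fintype (A →* ℂˣ) := Fintype.ofFinite _
    have hnorm : (kerG lam).Normal := normal_of_center ((kerG_le lam).trans hA)
    have hker : (QuotientGroup.mk' (kerG lam)).ker = kerG lam := QuotientGroup.ker_mk' _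
    have h1 := kTriv_zero red (QuotientGroup.mk' (kerG lam)) (QuotientGroup.mk'_surjective _) hA hpA
      (by rw [hker]; exact kerG_le lam) (h (kerG lam) (kerG_le lam) hnorm) B d hd
    rw [hker, altAbove_kTriv red hA (kerG_le lam) B d] at h1
    have hmem : ∀ mu : A →* ℂˣ, mu ∈ Lam A (kerG lam) ↔ lam.ker ≤ mu.ker := by
      intro mu
      rw [Lam, Finset.mem_filter]
      constructor
      · rintro ⟨_, h2⟩ a ha
        exact h2 a ((mem_kerG lam a).mpr ha)
      · intro h2
        exact ⟨Finset.mem_univ _, fun a ha => h2 ((mem_kerG lam a).mp ha)⟩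
    have h2 : ∀ mu ∈ Lam A (kerG lam), altAbove p A (fun H => (kProj p red mu B d H : ℤ)) =
        if mu.ker = lam.ker then altAbove p A (fun H => (kProj p red lam B d H : ℤ)) else 0 := by
      intro mu hmu
      by_cases h3 : mu.ker = lam.ker
      · rw [if_pos h3]
        congr 1
        funext H
        rw [kProj_ker red hpA lam mu h3.symm B d H]
      · rw [if_neg h3]
        have h4 : lam.ker < mu.ker := lt_of_le_of_ne ((hmem mu).mp hmu) (Ne.symm h3)
        have h5 : Nat.card lam.ker < Nat.card mu.ker := by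
          refine lt_of_le_of_ne (Subgroup.card_le_of_le h4.le) fun h6 => ?_
          exact h4.ne (Subgroup.eq_of_le_of_card_ge h4.le h6.ge)
        have h6 : Nat.card mu.ker ≤ Nat.card A := Subgroup.card_le_card_group _
        exact ih (Nat.card A - Nat.card mu.ker) (by omega) mu le_rfl B d hd
    rw [Finset.sum_congr rfl h2, ← Finset.sum_filter, Finset.sum_const, nsmul_eq_mul] at h1
    have h7 : 0 < (((Lam A (kerG lam)).filter fun mu => mu.ker = lam.ker).card) := by
      apply Finset.card_pos.mpr
      exact ⟨lam, Finset.mem_filter.mpr ⟨(hmem lam).mpr le_rfl, rfl⟩⟩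
    rcases mul_eq_zero.mp h1 with h8 | h8
    · exfalso
      have : ((Lam A (kerG lam)).filter fun mu => mu.ker = lam.ker).card = 0 := by exact_mod_cast h8
      omega
    · exact h8

end Pool.Agent.X209.PJ
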