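import Pool.Agent.X209.PJ.Gal
import Pool.Agent.Y63.KR.Basic

/-!
# The central character of an irreducible character, and the partition
-/

open scoped Classical BigOperators
open Pool.Agent.Helper884.IC Pool.Agent.Y63.AWC Representation
open Pool.Agent.Y63.NV (redC centralValue IsClassFun)
open Pool.Agent.Y63.KR (conjSub chainStabilizer mem_chainStabilizer conjSub_eq_iff)

set_option linter.unusedSectionVars false
set_option linter.unusedVariables false

noncomputable section

namespace Pool.Agent.X209.PJ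

lemma central_scalar {J : Type} [Group J] {V : Type} [AddCommGroup V] [Module ℂ V]
    [FiniteDimensional ℂ V] (rho : Representation ℂ J V) (hr : rho.IsIrreducible) {z : J}
    (hz : ∀ g : J, z * g = g * z) : ∃ c : ℂ, rho z = c • LinearMap.id := by
  have hcomm : ∀ (h : J) (v : V), rho z (rho h v) = rho h (rho z v) := by
    intro h v
    rw [← Module.End.mul_apply, ← Module.End.mul_apply, ← map_mul, ← map_mul, hz]
  let T : IntertwiningMap rho rho :=
    (rho z).intertwiningMap_of_isIntertwiningMap rho rho hcomm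
  obtain ⟨c, hc⟩ := (Representation.IsIrreducible.algebraMap_intertwiningMap_bijective_of_isAlgClosed
    (ρ := rho)).2 T
  refine ⟨c, ?_⟩
  ext v
  have := congrArg (fun S : IntertwiningMap rho rho => S v) hc
  have h2 : T v = rho z v := rfl
  rw [← h2]
  exact this.symm

lemma central_char {J : Type} [Group J] {χ : J → ℂ} (h : IsIrrChar χ) {z : J}
    (hz : ∀ g : J, z * g = g * z) (x : J) : χ (z * x) = χ z / χ 1 * χ x := by
  have h1 : χ 1 ≠ 0 := one_ne h
  obtain ⟨V, _, _, _, rho, hr, rfl⟩ := h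
  obtain ⟨c, hc⟩ := central_scalar rho hr hz
  have key : ∀ x : J, rho.character (z * x) = c * rho.character x := by
    intro x
    unfold Representation.character
    rw [map_mul, hc]
    have : (c • (LinearMap.id : V →ₗ[ℂ] V)) * rho x = c • rho x := by
      ext v
      rfl
    rw [this, map_smul, smul_eq_mul]
  have h2 := key 1
  rw [mul_one] at h2
  rw [key x, h2]
  field_simp

variable {G : Type} [Group G] [Finite G] {A : Subgroup G}

/-- existence of the central character -/
lemma exists_over (hA : A ≤ Subgroup.center G) {H : Subgroup G} (hAH : A ≤ H) {χ : H → ℂ}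
    (h : IsIrrChar χ) : ∃ lam : A →* ℂˣ, Over lam χ := by
  have h1 : χ 1 ≠ 0 := one_ne h
  let i : A → H := fun a => ⟨a, hAH a.2⟩
  have hi : ∀ (a : A) (x : H), χ (i a * x) = χ (i a) / χ 1 * χ x := by
    intro a x
    apply central_char h
    intro g
    apply Subtype.ext
    exact (Subgroup.mem_center_iff.mp (hA a.2) g).symm
  let f : A →* ℂ :=
    { toFun := fun a => χ (i a) / χ 1
      map_one' := by
        have : i 1 = 1 := rfl
        rw [this, div_self h1]
      map_mul' := fun a b => by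
        have : i (a * b) = i a * i b := rfl
        rw [this, hi a (i b)]
        field_simp }
  refine ⟨f.toHomUnits, ?_⟩
  intro a x y hxy
  have h2 : y = i a * x := Subtype.ext hxy
  rw [h2, hi a x]
  rfl

lemma over_unique {H : Subgroup G} (hAH : A ≤ H) {χ : H → ℂ} (h : IsIrrChar χ) {lam mu : A →* ℂˣ}
    (h1 : Over lam χ) (h2 : Over mu χ) : lam = mu := by
  have h0 : χ 1 ≠ 0 := one_ne h
  ext a
  have e1 := h1 a 1 ⟨a, hAH a.2⟩ (by simp)
  have e2 := h2 a 1 ⟨a, hAH a.2⟩ (by simp)
  rw [e1] at e2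
  exact mul_right_cancel₀ h0 e2

instance finite_hom : Finite (A →* ℂˣ) := by
  have hne : NeZero (Nat.card G) := ⟨Nat.card_pos.ne'⟩
  have hfin : Finite (rootsOfUnity (Nat.card G) ℂ) := inferInstance
  have hmem : ∀ (lam : A →* ℂˣ) (a : A), lam a ∈ rootsOfUnity (Nat.card G) ℂ := by
    intro lam a
    rw [mem_rootsOfUnity, ← map_pow]
    have h7 : a ^ Nat.card G = 1 := by
      apply Subtype.ext
      rw [SubmonoidClass.coe_pow]
      exact pow_card_eq_one'
    rw [h7, map_one]
  refine Finite.of_injective (fun (lam : A →* ℂˣ) (a : A) =>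
    (⟨lam a, hmem lam a⟩ : rootsOfUnity (Nat.card G) ℂ)) ?_
  intro lam mu h
  refine MonoidHom.ext fun a => ?_
  have h1 := congrFun h a
  exact congrArg Subtype.val h1

variable {p : ℕ} {F : Type} [Field F] (red : integralClosure ℤ ℂ →+* F)

/-- `χ` is trivial on `Y` -/
def TrivOn (Y : Subgroup G) {H : Subgroup G} (χ : H → ℂ) : Prop :=
  ∀ y ∈ Y, ∀ x z : H, (z : G) = y * (x : G) → χ z = χ x

/-- the number of the characters trivial on `Y` -/
def kTriv (p : ℕ) (Y : Subgroup G) (B : (G → F) → F) (d : ℕ) (H : Subgroup G) : ℕ :=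
  Nat.card {χ : H → ℂ // IsIrrChar χ ∧ TrivOn Y χ ∧ HasDefect p d χ ∧ Induces red B χ}

lemma kTriv_bot (B : (G → F) → F) (d : ℕ) (H : Subgroup G) :
    kTriv red p ⊥ B d H = kOrd p red B d H := by
  unfold kTriv kOrd
  refine Nat.card_congr (Equiv.subtypeEquivRight fun χ => ?_)
  constructor
  · rintro ⟨h1, _, h2⟩
    exact ⟨h1, h2⟩
  · rintro ⟨h1, h2⟩
    refine ⟨h1, ?_, h2⟩
    intro y hy x z hxz
    rw [Subgroup.mem_bot.mp hy, one_mul] at hxz
    rw [Subtype.ext hxz]

/-- the characters of `A` trivial on `Y` -/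
def Lam (A Y : Subgroup G) [Fintype (A →* ℂˣ)] : Finset (A →* ℂˣ) :=
  Finset.univ.filter fun lam => ∀ a : A, (a : G) ∈ Y → lam a = 1

theorem kTriv_eq [Fintype (A →* ℂˣ)] (hA : A ≤ Subgroup.center G) {Y : Subgroup G} (hY : Y ≤ A)
    {H : Subgroup G} (hAH : A ≤ H) (B : (G → F) → F) (d : ℕ) :
    kTriv red p Y B d H = ∑ lam ∈ Lam A Y, kProj p red lam B d H := by
  unfold kTriv kProj
  have hfin : ∀ lam : A →* ℂˣ,
      Finite {χ : H → ℂ // IsIrrChar χ ∧ Over lam χ ∧ HasDefect p d χ ∧ Induces red B χ} :=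
    fun lam => finite_irr (H := H) (fun χ => Over lam χ ∧ HasDefect p d χ ∧ Induces red B χ)
  have h1 : Nat.card {χ : H → ℂ // IsIrrChar χ ∧ TrivOn Y χ ∧ HasDefect p d χ ∧
      Induces red B χ} = Nat.card (Σ lam : {lam : A →* ℂˣ // lam ∈ Lam A Y},
        {χ : H → ℂ // IsIrrChar χ ∧ Over lam.1 χ ∧ HasDefect p d χ ∧ Induces red B χ}) := by
    have hspec : ∀ χ : {χ : H → ℂ // IsIrrChar χ ∧ TrivOn Y χ ∧ HasDefect p d χ ∧
        Induces red B χ}, ∃ lam : A →* ℂˣ, lam ∈ Lam A Y ∧ Over lam χ.1 := by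
      rintro ⟨χ, hχ, ht, _⟩
      obtain ⟨lam, hlam⟩ := exists_over hA hAH hχ
      refine ⟨lam, ?_, hlam⟩
      rw [Lam, Finset.mem_filter]
      refine ⟨Finset.mem_univ _, fun a ha => ?_⟩
      have e1 := hlam a 1 ⟨a, hAH a.2⟩ (by simp)
      have e2 := ht a ha 1 ⟨a, hAH a.2⟩ (by simp)
      rw [e1] at e2
      have e3 : ((lam a : ℂˣ) : ℂ) = 1 := by
        have h0 : χ 1 ≠ 0 := one_ne hχ
        exact mul_right_cancel₀ h0 (by rw [e2, one_mul])
      exact Units.ext e3
    choose L hL using hspec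
    refine Nat.card_congr
      { toFun := fun χ => ⟨⟨L χ, (hL χ).1⟩, χ.1, χ.2.1, (hL χ).2, χ.2.2.2⟩
        invFun := fun s => ⟨s.2.1, s.2.2.1, ?_, s.2.2.2.2⟩
        left_inv := fun χ => rfl
        right_inv := ?_ }
    · intro y hy x z hxz
      have h2 := s.2.2.2.1 ⟨y, hY hy⟩ x z hxz
      have h3 := (Finset.mem_filter.mp s.1.2).2 ⟨y, hY hy⟩ hy
      rw [h3, Units.val_one, one_mul] at h2
      exact h2
    · rintro ⟨⟨lam, hlam⟩, χ, h2, h3, h4⟩
      have h5 : ∀ hh, L ⟨χ, hh⟩ = lam := fun hh => over_unique hAH h2 (hL ⟨χ, hh⟩).2 h3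
      refine Sigma.ext (Subtype.ext (h5 _)) ?_
      simp only []
      congr 1
      · funext ψ
        rw [h5]
      · apply proof_irrel_heq
  rw [h1, Nat.card_sigma]
  exact Finset.sum_coe_sort (Lam A Y) (fun lam => Nat.card {χ : H → ℂ // IsIrrChar χ ∧
    Over lam χ ∧ HasDefect p d χ ∧ Induces red B χ})

/-! ### alternating sums -/

lemma altAbove_sum {ι : Type} (s : Finset ι) (f : ι → Subgroup G → ℤ) :
    altAbove p A (fun H => ∑ i ∈ s, f i H) = ∑ i ∈ s, altAbove p A (f i) := by
  have : Fintype (Quotient (aboveClass p A)) := Fintype.ofFinite _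
  unfold altAbove
  simp only [finsum_eq_sum_of_fintype]
  rw [Finset.sum_comm]
  refine Finset.sum_congr rfl fun c _ => ?_
  rw [Finset.mul_sum]

lemma altAbove_congr {f g : Subgroup G → ℤ}
    (h : ∀ σ, IsChainAbove p A σ → f (chainStabilizer σ) = g (chainStabilizer σ)) :
    altAbove p A f = altAbove p A g := by
  unfold altAbove
  refine finsum_congr fun c => ?_
  rw [h c.out.1 c.out.2]

lemma center_le_stab (hA : A ≤ Subgroup.center G) (σ : Set (Subgroup G)) :
    A ≤ chainStabilizer σ := by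
  intro x hx
  rw [mem_chainStabilizer]
  intro P _
  rw [conjSub_eq_iff, Subgroup.mem_normalizer_iff]
  intro y
  have h1 : x * y * x⁻¹ = y := by
    rw [← Subgroup.mem_center_iff.mp (hA hx) y, mul_inv_cancel_right]
  rw [h1]

theorem altAbove_kTriv [Fintype (A →* ℂˣ)] (hA : A ≤ Subgroup.center G) {Y : Subgroup G}
    (hY : Y ≤ A) (B : (G → F) → F) (d : ℕ) :
    altAbove p A (fun H => (kTriv red p Y B d H : ℤ)) =
      ∑ lam ∈ Lam A Y, altAbove p A (fun H => (kProj p red lam B d H : ℤ)) := by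
  rw [← altAbove_sum]
  apply altAbove_congr
  intro σ _
  rw [kTriv_eq red hA hY (center_le_stab hA σ) B d]
  push_cast
  rfl

end Pool.Agent.X209.PJ
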