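import Pool.Agent.X209.PJ.Twist
import Pool.Agent.Y930.NV.Cen

/-!
# Galois conjugation and the reduced central characters
-/

open scoped Classical BigOperators
open Pool.Agent.Helper884.IC Pool.Agent.Y63.AWC
open Pool.Agent.Y63.NV (redC centralValue IsClassFun)

set_option linter.unusedSectionVars false
set_option linter.unusedVariables false

noncomputable section

namespace Pool.Agent.X209.PJ

/-- the data of a Galois conjugation: an endomorphism `τ` of `ℂ` raising the `n`-th roots of unity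
to the `k`-th power, with `k ≡ 1` modulo the `p'`-part of `n` -/
structure Gal (p n k : ℕ) (ζ : ℂ) (τ : ℂ →+* ℂ) : Prop where
  n0 : n ≠ 0
  prim : IsPrimitiveRoot ζ n
  map : τ ζ = ζ ^ k
  k1 : ∃ m j : ℕ, k = 1 + m * j ∧ ∃ v : ℕ, n = p ^ v * m

variable {p n k : ℕ} {ζ : ℂ} {τ : ℂ →+* ℂ}

lemma Gal.pow (h : Gal p n k ζ τ) {x : ℂ} (hx : x ^ n = 1) : τ x = x ^ k := by
  have hne : NeZero n := ⟨h.n0⟩
  obtain ⟨i, _, rfl⟩ := h.prim.eq_pow_of_pow_eq_one hx
  rw [map_pow, h.map, ← pow_mul, ← pow_mul, mul_comm]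

section red

variable {F : Type} [Field F] (red : integralClosure ℤ ℂ →+* F)

lemma Gal.red_zeta [hp : Fact p.Prime] [CharP F p] (h : Gal p n k ζ τ)
    (z : integralClosure ℤ ℂ) (hz : (z : ℂ) = ζ) : red (z ^ k) = red z := by
  obtain ⟨m, j, rfl, v, hv⟩ := h.k1
  have h1 : z ^ n = 1 := by
    apply Subtype.ext
    change (z : ℂ) ^ n = 1
    rw [hz, h.prim.pow_eq_one]
  have h2 : (red z ^ m) ^ p ^ v = 1 := by
    rw [← pow_mul, mul_comm m, ← hv, ← map_pow, h1, map_one]
  have h3 : red z ^ m = 1 := by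
    have h4 : (red z ^ m - 1) ^ p ^ v = 0 := by
      have h5 := sub_pow_char_pow (p := p) (red z ^ m) 1 v
      rw [h5, h2, one_pow, sub_self]
    exact sub_eq_zero.mp (pow_eq_zero_iff (pow_ne_zero v hp.out.ne_zero) |>.mp h4)
  rw [map_pow, pow_add, pow_one, pow_mul, h3, one_pow, mul_one]

lemma tau_integral {a : ℂ} (ha : IsIntegral ℤ a) : IsIntegral ℤ (τ a) := by
  have := ha.map (τ.toIntAlgHom)
  exact this

/-- integers of the cyclotomic field -/
lemma Gal.red_eq [hp : Fact p.Prime] [CharP F p] (h : Gal p n k ζ τ) {a : ℂ}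
    (ha : a ∈ Algebra.adjoin ℤ ({ζ} : Set ℂ)) : redC red (τ a) = redC red a := by
  have hζ : IsIntegral ℤ ζ := h.prim.isIntegral (Nat.pos_of_ne_zero h.n0)
  let z : integralClosure ℤ ℂ := ⟨ζ, hζ⟩
  rw [Algebra.adjoin_singleton_eq_range_aeval] at ha
  obtain ⟨P, rfl⟩ := ha
  have e1 : ∀ (w : integralClosure ℤ ℂ),
      ((Polynomial.aeval w P : integralClosure ℤ ℂ) : ℂ) = Polynomial.aeval (w : ℂ) P := by
    intro w
    exact (Polynomial.aeval_algHom_apply (integralClosure ℤ ℂ).val w P).symm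
  have e2 : ∀ (w : integralClosure ℤ ℂ),
      redC red (Polynomial.aeval (w : ℂ) P) = Polynomial.aeval (red w) P := by
    intro w
    rw [← e1, Pool.Agent.Y930.NV.redC_of red (Polynomial.aeval w P).2]
    exact (Polynomial.aeval_algHom_apply red.toIntAlgHom w P).symm
  have e3 : τ (Polynomial.aeval ζ P) = Polynomial.aeval ((z ^ k : integralClosure ℤ ℂ) : ℂ) P := by
    have h1 := (Polynomial.aeval_algHom_apply τ.toIntAlgHom ζ P).symm
    change τ (Polynomial.aeval ζ P) = Polynomial.aeval (τ ζ) P at h1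
    rw [h1, h.map]
    rfl
  change redC red (τ (Polynomial.aeval ζ P)) = redC red (Polynomial.aeval ζ P)
  rw [e3, e2, h.red_zeta red z rfl]
  exact (e2 z).symm

lemma mem_adjoin_int (hn : n ≠ 0) (hζ : IsPrimitiveRoot ζ n) {a : ℂ} (ha : IsIntegral ℤ a)
    (haK : a ∈ IntermediateField.adjoin ℚ ({ζ} : Set ℂ)) : a ∈ Algebra.adjoin ℤ ({ζ} : Set ℂ) := by
  have hne : NeZero n := ⟨hn⟩
  have halg : IsAlgebraic ℚ ζ :=
    ((hζ.isIntegral (Nat.pos_of_ne_zero hn)).tower_top (A := ℚ)).isAlgebraic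
  have hcyc : IsCyclotomicExtension {n} ℚ (IntermediateField.adjoin ℚ ({ζ} : Set ℂ)) := by
    change IsCyclotomicExtension {n} ℚ (IntermediateField.adjoin ℚ {ζ}).toSubalgebra
    rw [IntermediateField.adjoin_simple_toSubalgebra_of_isAlgebraic halg]
    exact hζ.adjoin_isCyclotomicExtension ℚ
  set K := IntermediateField.adjoin ℚ ({ζ} : Set ℂ) with hK
  have hζK : ζ ∈ K := IntermediateField.mem_adjoin_simple_self ℚ ζ
  let z : K := ⟨ζ, hζK⟩
  have hz : IsPrimitiveRoot z n :=
    IsPrimitiveRoot.of_map_of_injective (f := K.val) (by exact hζ) K.val.injective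
  have h1 := IsCyclotomicExtension.Rat.isIntegralClosure_adjoin_singleton (n := n) (K := K) hz
  have ha' : IsIntegral ℤ (⟨a, haK⟩ : K) := by
    have h2 : IsIntegral ℤ (algebraMap K ℂ ⟨a, haK⟩) := ha
    exact (isIntegral_algebraMap_iff (FaithfulSMul.algebraMap_injective K ℂ)).mp h2
  obtain ⟨y, hy⟩ := h1.isIntegral_iff.mp ha'
  have hy2 : (⟨a, haK⟩ : K) ∈ Algebra.adjoin ℤ ({z} : Set K) := by
    rw [← hy]
    exact y.2
  have h3 := Subalgebra.mem_map.mpr
    ⟨(⟨a, haK⟩ : K), hy2, (rfl : (K.val.restrictScalars ℤ) ⟨a, haK⟩ = _)⟩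
  rw [AlgHom.map_adjoin] at h3
  have h4 : ((K.val.restrictScalars ℤ) '' ({z} : Set K)) = ({ζ} : Set ℂ) := by
    rw [Set.image_singleton]
    rfl
  rw [h4] at h3
  exact h3

end red

section chars

variable {J : Type} [Group J] [Fintype J]

/-- the values of characters are in the cyclotomic field -/
lemma char_mem (hζ : IsPrimitiveRoot ζ n) (hn : n ≠ 0) (hJ : ∀ g : J, g ^ n = 1) {χ : J → ℂ}
    (h : IsIrrChar χ) (g : J) : χ g ∈ IntermediateField.adjoin ℚ ({ζ} : Set ℂ) := by
  have hne : NeZero n := ⟨hn⟩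
  obtain ⟨V, _, _, _, ρ, hr, rfl⟩ := h
  unfold Representation.character
  rw [Module.End.trace_eq_sum_roots_charpoly_of_splits (IsAlgClosed.splits _)]
  have key : ∀ μ ∈ (LinearMap.charpoly (ρ g)).roots,
      μ ∈ IntermediateField.adjoin ℚ ({ζ} : Set ℂ) := by
    intro μ hμ
    have h1 : (LinearMap.charpoly (ρ g)).IsRoot μ := (Polynomial.mem_roots'.mp hμ).2
    have h2 := (Module.End.hasEigenvalue_iff_isRoot_charpoly (ρ g) μ).mpr h1
    obtain ⟨v, hv⟩ := h2.exists_hasEigenvector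
    have h3 : ∀ n : ℕ, ((ρ g) ^ n) v = μ ^ n • v := fun n => by
      induction n with
      | zero => simp
      | succ n ih =>
        rw [pow_succ', Module.End.mul_apply, ih, map_smul, hv.apply_eq_smul, smul_smul, pow_succ]
    have h4 := h3 n
    rw [← map_pow, hJ g, map_one, Module.End.one_apply] at h4
    have h5 : μ ^ n = 1 := by
      have h6 : (μ ^ n - 1) • v = 0 := by
        rw [sub_smul, one_smul, ← h4, sub_self]
      rcases smul_eq_zero.mp h6 with h7 | h7
      · exact sub_eq_zero.mp h7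
      · exact absurd h7 hv.2
    obtain ⟨i, _, rfl⟩ := hζ.eq_pow_of_pow_eq_one h5
    exact pow_mem (IntermediateField.mem_adjoin_simple_self ℚ ζ) i
  generalize (LinearMap.charpoly (ρ g)).roots = s at key
  induction s using Multiset.induction_on with
  | empty => simp
  | cons a s ih =>
    rw [Multiset.sum_cons]
    exact add_mem (key a (Multiset.mem_cons_self a s))
      (ih (fun μ hμ => key μ (Multiset.mem_cons_of_mem hμ)))

/-- the reduced central characters are invariant -/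
theorem Gal.central [hp : Fact p.Prime] {F : Type} [Field F] [CharP F p]
    (red : integralClosure ℤ ℂ →+* F) (h : Gal p n k ζ τ) (hJ : ∀ g : J, g ^ n = 1) {χ : J → ℂ}
    (hχ : IsIrrChar χ) (f : J → F) :
    centralValue red (fun g => τ (χ g)) f = centralValue red χ f := by
  unfold centralValue
  refine finsum_congr fun C => ?_
  congr 1
  have hχ' : Pool.Agent.Y63.AWC.IsIrreducibleCharacter χ := hχ
  have hint : IsIntegral ℤ ((Nat.card C.carrier : ℂ) * χ C.out / χ 1) := by
    rw [← Pool.Agent.Y930.NV.om_ind χ (Pool.Agent.Y930.NV.irr_Cf hχ') C,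
      ← Pool.Agent.Y930.NV.ind_cast]
    exact Pool.Agent.Y930.NV.om_int hχ' (Pool.Agent.Y930.NV.Cf_ind ℤ C)
  have hmem : (Nat.card C.carrier : ℂ) * χ C.out / χ 1 ∈
      IntermediateField.adjoin ℚ ({ζ} : Set ℂ) :=
    div_mem (mul_mem (natCast_mem _ _) (char_mem h.prim h.n0 hJ hχ _))
      (char_mem h.prim h.n0 hJ hχ _)
  have h1 := h.red_eq red (mem_adjoin_int h.n0 h.prim hint hmem)
  rw [← h1, map_div₀, map_mul, map_natCast]

end chars

end Pool.Agent.X209.PJ
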