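import Pool.Agent.Y63.AWC.Norm

/-!
# Galois conjugates of irreducible characters
-/

open scoped Classical BigOperators
open Pool.Agent.Helper884.IC Pool.Agent.Y63.AWC

set_option linter.unusedSectionVars false
set_option linter.unusedVariables false

noncomputable section

namespace Pool.Agent.X209.PJ

section twist

variable {G : Type} [Group G] {V : Type} [AddCommGroup V] [Module ℂ V] [FiniteDimensional ℂ V]

/-- the twist of a representation by an endomorphism of `ℂ` -/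
def twRep (τ : ℂ →+* ℂ) (ρ : Representation ℂ G V) :
    Representation ℂ G (Fin (Module.finrank ℂ V) → ℂ) where
  toFun g := Matrix.toLin' ((LinearMap.toMatrix (Module.finBasis ℂ V) (Module.finBasis ℂ V)
    (ρ g)).map τ)
  map_one' := by
    rw [map_one]
    have h1 : LinearMap.toMatrix (Module.finBasis ℂ V) (Module.finBasis ℂ V)
        (1 : V →ₗ[ℂ] V) = 1 := LinearMap.toMatrix_one _
    rw [h1, Matrix.map_one τ (map_zero τ) (map_one τ), Matrix.toLin'_one]
    rfl
  map_mul' g h := by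
    rw [map_mul]
    have h1 : LinearMap.toMatrix (Module.finBasis ℂ V) (Module.finBasis ℂ V) (ρ g * ρ h) =
        LinearMap.toMatrix (Module.finBasis ℂ V) (Module.finBasis ℂ V) (ρ g) *
        LinearMap.toMatrix (Module.finBasis ℂ V) (Module.finBasis ℂ V) (ρ h) :=
      LinearMap.toMatrix_mul _ _ _
    rw [h1, Matrix.map_mul, Matrix.toLin'_mul]
    rfl

lemma twRep_char (τ : ℂ →+* ℂ) (ρ : Representation ℂ G V) (g : G) :
    (twRep τ ρ).character g = τ (ρ.character g) := by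
  unfold Representation.character
  change LinearMap.trace ℂ _ (Matrix.toLin' _) = _
  rw [LinearMap.trace_eq_matrix_trace ℂ (Pi.basisFun ℂ (Fin (Module.finrank ℂ V)))]
  rw [LinearMap.trace_eq_matrix_trace ℂ (Module.finBasis ℂ V) (ρ g)]
  have h1 : LinearMap.toMatrix (Pi.basisFun ℂ (Fin (Module.finrank ℂ V)))
      (Pi.basisFun ℂ (Fin (Module.finrank ℂ V)))
      (Matrix.toLin' ((LinearMap.toMatrix (Module.finBasis ℂ V) (Module.finBasis ℂ V)
        (ρ g)).map τ)) = (LinearMap.toMatrix (Module.finBasis ℂ V) (Module.finBasis ℂ V)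
        (ρ g)).map τ := LinearMap.toMatrix'_toLin' _
  rw [h1]
  unfold Matrix.trace
  rw [map_sum]
  rfl

end twist

variable {G : Type} [Group G] [Fintype G]

theorem irr_twist (τ : ℂ →+* ℂ) {χ : G → ℂ} (h : IsIrrChar χ) : IsIrrChar (fun g => τ (χ g)) := by
  have hirr := h
  set χ' : G → ℂ := fun g => τ (χ g) with hχ'
  have hcl : IsClass χ' := fun g y => by
    simp only [hχ']
    rw [h.isClass g y]
  have hnorm : B χ' χ' = 1 := by
    have h1 := B_irr h h
    rw [if_pos rfl] at h1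
    have h2 := congrArg τ h1
    rw [map_one] at h2
    rw [← h2]
    unfold B
    rw [map_mul, map_inv₀, map_natCast, map_sum]
    simp only [map_mul, hχ']
  have hnat : ∀ θ ∈ Irr G, ∃ m : ℕ, B χ' θ = (m : ℂ) := by
    intro θ hθ
    obtain ⟨V, _, _, _, rho, hr, rfl⟩ := hirr
    obtain ⟨W, _, _, _, sigma, hs, rfl⟩ := mem_Irr.mp hθ
    haveI : Invertible (Nat.card G : ℂ) := invertibleOfNonzero cardG_ne
    have h3 := Representation.card_inv_mul_sum_char_mul_char_eq_finrank sigma (twRep τ rho)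
    simp only [twRep_char] at h3
    exact ⟨_, h3⟩
  choose! m hm using hnat
  have hsum : ∑ θ ∈ Irr G, (m θ) ^ 2 = 1 := by
    have h1 := B_expand χ' χ' hcl
    rw [hnorm] at h1
    have h2 : ∑ θ ∈ Irr G, B χ' θ * B θ χ' = ((∑ θ ∈ Irr G, (m θ) ^ 2 : ℕ) : ℂ) := by
      push_cast
      refine Finset.sum_congr rfl fun θ hθ => ?_
      rw [B_comm θ χ', hm θ hθ, pow_two]
    rw [h2] at h1
    exact_mod_cast h1.symm
  have hex : ∃ θ ∈ Irr G, m θ ≠ 0 := by
    by_contra hcon
    push Not at hcon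
    rw [Finset.sum_eq_zero fun θ hθ => by rw [hcon θ hθ]; rfl] at hsum
    exact absurd hsum (by norm_num)
  obtain ⟨θ, hθ, hθ0⟩ := hex
  have h1 : ∀ ψ ∈ Irr G, ψ ≠ θ → m ψ = 0 := by
    intro ψ hψ hne
    by_contra hne0
    have h2 : (m ψ) ^ 2 + (m θ) ^ 2 ≤ ∑ θ ∈ Irr G, (m θ) ^ 2 := by
      rw [← Finset.sum_pair hne (f := fun θ => (m θ) ^ 2)]
      apply Finset.sum_le_sum_of_subset
      intro x hx
      rw [Finset.mem_insert, Finset.mem_singleton] at hx
      rcases hx with rfl | rfl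
      · exact hψ
      · exact hθ
    have h3 : 1 ≤ (m ψ) ^ 2 := Nat.one_le_pow _ _ (Nat.pos_of_ne_zero hne0)
    have h4 : 1 ≤ (m θ) ^ 2 := Nat.one_le_pow _ _ (Nat.pos_of_ne_zero hθ0)
    omega
  have h2 : m θ = 1 := by
    have h3 : ∑ θ ∈ Irr G, (m θ) ^ 2 = (m θ) ^ 2 := by
      rw [Finset.sum_eq_single θ]
      · intro ψ hψ hne
        rw [h1 ψ hψ hne]
        rfl
      · intro h
        exact absurd hθ h
    rw [h3] at hsum
    exact (Nat.pow_eq_one.mp hsum).resolve_right (by norm_num)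
  have h3 : χ' = θ := by
    rw [expand χ' hcl, Finset.sum_eq_single θ]
    · rw [hm θ hθ, h2, Nat.cast_one, one_smul]
    · intro ψ hψ hne
      rw [hm ψ hψ, h1 ψ hψ hne, Nat.cast_zero, zero_smul]
    · intro h
      exact absurd hθ h
  rw [h3]
  exact mem_Irr.mp hθ

/-- an endomorphism of `ℂ` which raises the `n`-th roots of unity to the `k`-th power -/
theorem exists_tau {n k : ℕ} (hn : n ≠ 0) (hk : Nat.Coprime k n) {ζ : ℂ} (hζ : IsPrimitiveRoot ζ n) :
    ∃ τ : ℂ →+* ℂ, τ ζ = ζ ^ k := by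
  have hpos : 0 < n := Nat.pos_of_ne_zero hn
  have hint : IsIntegral ℚ ζ := (hζ.isIntegral hpos).tower_top
  -- the automorphism of the cyclotomic field
  let K : IntermediateField ℚ ℂ := IntermediateField.adjoin ℚ {ζ}
  have hζK : ζ ∈ K := IntermediateField.mem_adjoin_simple_self ℚ ζ
  have hζk : IsPrimitiveRoot (ζ ^ k) n := hζ.pow_of_coprime k hk
  have hmin : minpoly ℚ ζ = minpoly ℚ (ζ ^ k) := by
    rw [← Polynomial.cyclotomic_eq_minpoly_rat hζ hpos,
      ← Polynomial.cyclotomic_eq_minpoly_rat hζk hpos]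
  let η : K := ⟨ζ ^ k, K.pow_mem hζK k⟩
  have hroot : (Polynomial.aeval η) (minpoly ℚ ζ) = 0 := by
    apply Subtype.ext
    have h1 : ((Polynomial.aeval η (minpoly ℚ ζ) : K) : ℂ) =
        Polynomial.aeval (ζ ^ k) (minpoly ℚ ζ) :=
      (Polynomial.aeval_algHom_apply K.val η (minpoly ℚ ζ)).symm
    rw [h1, hmin]
    exact minpoly.aeval ℚ _
  have hs : ∃ s : K →ₐ[ℚ] K, s ⟨ζ, hζK⟩ = η := by
    refine ⟨(IntermediateField.algHomAdjoinIntegralEquiv ℚ (K := K) hint).symm
      ⟨η, ?_⟩, ?_⟩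
    · rw [Polynomial.mem_aroots]
      exact ⟨minpoly.ne_zero hint, hroot⟩
    · exact IntermediateField.algHomAdjoinIntegralEquiv_symm_apply_gen ℚ hint _
  obtain ⟨s, hs⟩ := hs
  have hfd : FiniteDimensional ℚ K := IntermediateField.adjoin.finiteDimensional hint
  let σ : K ≃ₐ[ℚ] K := AlgEquiv.ofBijective s s.bijective
  -- the extension to `ℂ`
  obtain ⟨b, hb⟩ := exists_isTranscendenceBasis K ℂ
  let _ := IsAlgClosed.isAlgClosure_of_transcendence_basis _ hb
  let E : Algebra.adjoin K (Set.range ((↑) : b → ℂ)) ≃+*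
      Algebra.adjoin K (Set.range ((↑) : b → ℂ)) :=
    (hb.1.aevalEquiv.symm.toRingEquiv.trans (MvPolynomial.mapEquiv b σ.toRingEquiv)).trans
      hb.1.aevalEquiv.toRingEquiv
  refine ⟨(IsAlgClosure.equivOfEquiv ℂ ℂ E).toRingHom, ?_⟩
  have h1 := IsAlgClosure.equivOfEquiv_algebraMap ℂ ℂ E
    (algebraMap K (Algebra.adjoin K (Set.range ((↑) : b → ℂ))) ⟨ζ, hζK⟩)
  have h2 : E (algebraMap K (Algebra.adjoin K (Set.range ((↑) : b → ℂ))) ⟨ζ, hζK⟩) =
      algebraMap K (Algebra.adjoin K (Set.range ((↑) : b → ℂ))) η := by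
    change hb.1.aevalEquiv (MvPolynomial.mapEquiv b σ.toRingEquiv
      (hb.1.aevalEquiv.symm (algebraMap K _ ⟨ζ, hζK⟩))) = _
    rw [AlgEquiv.commutes]
    have h3 : MvPolynomial.mapEquiv b σ.toRingEquiv
        (algebraMap K (MvPolynomial b K) ⟨ζ, hζK⟩) = algebraMap K (MvPolynomial b K) η := by
      rw [MvPolynomial.algebraMap_eq, MvPolynomial.mapEquiv_apply, MvPolynomial.map_C]
      congr 1
    rw [h3, AlgEquiv.commutes]
  rw [h2] at h1
  exact h1

end Pool.Agent.X209.PJ
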